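import Pool.Agent.H730R3.HD.R32

/-! Definitions for the proof of S04091 (simplicial cohomology of C*-algebras). -/

set_option autoImplicit false

namespace H504S

open H730HC Finset
open scoped ComplexConjugate ComplexOrder

universe u v

attribute [local instance] CStarAlgebra.spectralOrder CStarAlgebra.spectralOrderedRing

variable {A : Type u} [CStarAlgebra A]

/-- `x ↦ φ (w x w*)` -/
noncomputable def cju (w : unitary A) (φ : A →L[ℂ] ℂ) : A →L[ℂ] ℂ := ra (la (star (w : A)) φ) (w : A)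

/-- positive functionals -/
def IsPos (ρ : A →L[ℂ] ℂ) : Prop := ∀ x : A, 0 ≤ ρ (star x * x)

/-- positive traces -/
def IsPT (τ : A →L[ℂ] ℂ) : Prop := IsPos τ ∧ ∀ x y : A, τ (x * y) = τ (y * x)

/-- functionals of finite type: approximately dominated by a positive trace -/
def FT (φ : A →L[ℂ] ℂ) : Prop :=
  ∀ ε : ℝ, 0 < ε → ∃ τ : A →L[ℂ] ℂ, IsPT τ ∧
    ∀ x, ‖φ x‖ ≤ Real.sqrt ((τ (x * star x)).re) + ε * ‖x‖

/-- functionals of infinite type: singular to all positive traces -/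
def InfT (φ : A →L[ℂ] ℂ) : Prop :=
  ∀ τ : A →L[ℂ] ℂ, IsPT τ → ∀ ε : ℝ, 0 < ε → ∃ D : A, 0 ≤ D ∧ D ≤ 1 ∧ (τ (1 - D)).re ≤ ε ∧
    ∀ y, ‖φ (D * y)‖ ≤ ε * ‖y‖

/-- the operator interval `[0,1]` -/
def Bl (A : Type u) [CStarAlgebra A] : Type u := {e : A // 0 ≤ e ∧ e ≤ 1}

/-- index set of the generalised means: pairs of unitaries and a cut-down -/
abbrev Ix (A : Type u) [CStarAlgebra A] : Type u := (unitary A × unitary A) × Bl A

/-- means on `Ix A` concentrated on almost central cut-downs -/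
def IsGM (m : (Ix A → ℝ) → ℝ) : Prop :=
  IsMean m ∧ ∀ u : unitary A, m (fun i => ‖(u : A) * i.2.1 - i.2.1 * (u : A)‖) = 0

/-- on sequences `g, g*, g, …` the cochain is a sum of faces -/
def Good (n : ℕ) (F : (ℕ → A) → (A →L[ℂ] ℂ)) : Prop :=
  ∃ P : ℕ → (ℕ → A) → (A →L[ℂ] ℂ), (∀ i, IsB n (P i)) ∧
    ∀ g : unitary A, F (al (g : A)) = -∑ i ∈ range (n + 2), ((-1 : ℂ) ^ i) • fX n i (P i) (al (g : A))

/-- the convex cone generated by the conjugates of `R` -/
def Cone (R R' : A →L[ℂ] ℂ) : Prop :=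
  ∃ (S : Finset (unitary A)) (k : unitary A → ℝ), (∀ u, 0 ≤ k u) ∧ R' = ∑ u ∈ S, ((k u : ℝ) : ℂ) • cju u R

theorem cju_apply (w : unitary A) (φ : A →L[ℂ] ℂ) (x : A) :
    cju w φ x = φ ((w : A) * x * star (w : A)) := rfl

end H504S
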