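import Pool.Agent.H504S.Defs

set_option autoImplicit false

namespace H504S

open Finset
open scoped ComplexConjugate ComplexOrder

universe u v

attribute [local instance] CStarAlgebra.spectralOrder CStarAlgebra.spectralOrderedRing

variable {A : Type u} [CStarAlgebra A]

theorem A_res (lam : ℝ) (hl : 0 ≤ lam) (h : A) (hh : 0 ≤ h) :
    ∃ R : A, 0 ≤ R ∧ R ≤ 1 ∧ (1 + lam • h) * R = 1 ∧ R * (1 + lam • h) = 1 := by
  have h1 : (1 : A) ≤ 1 + lam • h := le_add_of_nonneg_right (smul_nonneg hl hh)
  have hu : IsUnit (1 + lam • h) :=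
    CStarAlgebra.isUnit_of_le 1 h1 (by cfc_tac)
  obtain ⟨a, ha⟩ := hu
  refine ⟨(a⁻¹ : Aˣ), ?_, ?_, ?_, ?_⟩
  · exact CFC.inv_nonneg_of_nonneg a (by rw [ha]; exact zero_le_one.trans h1)
  · exact CStarAlgebra.inv_le_one (by rw [← Units.val_le_val, ha]; exact h1)
  · rw [← ha]; exact a.mul_inv
  · rw [← ha]; exact a.inv_mul

theorem A_anti {x y R S : A} (hx : 0 ≤ x) (hxy : x ≤ y) (h1 : x * R = 1) (h2 : R * x = 1)
    (h3 : y * S = 1) (h4 : S * y = 1) : S ≤ R :=
  CStarAlgebra.inv_le_inv (a := ⟨x, R, h1, h2⟩) (b := ⟨y, S, h3, h4⟩) hx hxy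

/-- `x ↦ ∑ u* x u` -/
noncomputable def A_S (E : Finset (unitary A)) (x : A) : A :=
  ∑ u ∈ E, star (u : A) * x * (u : A)

theorem A_S_mono (E : Finset (unitary A)) {x y : A} (h : x ≤ y) : A_S E x ≤ A_S E y :=
  Finset.sum_le_sum fun _ _ => star_left_conjugate_le_conjugate h _

theorem A_S_nonneg (E : Finset (unitary A)) {x : A} (h : 0 ≤ x) : 0 ≤ A_S E x :=
  Finset.sum_nonneg fun _ _ => star_left_conjugate_nonneg h _

theorem A_S_ge (E : Finset (unitary A)) {x : A} (h : 0 ≤ x) (u : unitary A) (hu : u ∈ E) :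
    star (u : A) * x * (u : A) ≤ A_S E x :=
  Finset.single_le_sum (f := fun u : unitary A => star (u : A) * x * (u : A))
    (fun _ _ => star_left_conjugate_nonneg h _) hu

theorem A_iter_nonneg (E : Finset (unitary A)) {x : A} (h : 0 ≤ x) (k : ℕ) :
    0 ≤ (A_S E)^[k] x := by
  induction k with
  | zero => exact h
  | succ k ih => rw [Function.iterate_succ_apply']; exact A_S_nonneg E ih

theorem A_iter_mono (E : Finset (unitary A)) (h1 : (1 : unitary A) ∈ E) {x : A} (h : 0 ≤ x)
    {k l : ℕ} (hkl : k ≤ l) : (A_S E)^[k] x ≤ (A_S E)^[l] x := by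
  induction l, hkl using Nat.le_induction with
  | base => exact le_rfl
  | succ l hkl ih =>
    refine ih.trans ?_
    rw [Function.iterate_succ_apply']
    have := A_S_ge E (A_iter_nonneg E h l) 1 h1
    simpa using this

theorem A_iter (E : Finset (unitary A)) (k : ℕ) : ∃ (V : Finset (unitary A)) (c : ℝ), 0 ≤ c ∧
    ∀ h : A, 0 ≤ h → (A_S E)^[k] h ≤ c • ∑ v ∈ V, star (v : A) * h * (v : A) := by
  classical
  induction k with
  | zero =>
    refine ⟨{1}, 1, zero_le_one, fun h hh => ?_⟩
    simp
  | succ k ih =>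
    obtain ⟨V, c, hc, hV⟩ := ih
    refine ⟨(V ×ˢ E).image (fun p => p.1 * p.2), c * (E.card : ℝ), by positivity, fun h hh => ?_⟩
    rw [Function.iterate_succ_apply']
    set W := (V ×ˢ E).image (fun p : unitary A × unitary A => p.1 * p.2) with hW
    have hWn : ∀ w : unitary A, 0 ≤ star (w : A) * h * (w : A) :=
      fun w => star_left_conjugate_nonneg hh _
    calc A_S E ((A_S E)^[k] h) ≤ A_S E (c • ∑ v ∈ V, star (v : A) * h * (v : A)) :=
          A_S_mono E (hV h hh)
      _ = c • ∑ u ∈ E, ∑ v ∈ V, star ((v * u : unitary A) : A) * h * ((v * u : unitary A) : A) := by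
          have q : ∀ u ∈ E, star (u : A) * (c • ∑ v ∈ V, star (v : A) * h * (v : A)) * (u : A) =
              c • ∑ v ∈ V, star ((v * u : unitary A) : A) * h * ((v * u : unitary A) : A) := by
            intro u _
            rw [mul_smul_comm, smul_mul_assoc, Finset.mul_sum, Finset.sum_mul]
            congr 1
            refine Finset.sum_congr rfl fun v _ => ?_
            push_cast
            rw [star_mul]
            simp only [mul_assoc]
          unfold A_S
          rw [Finset.sum_congr rfl q, ← Finset.smul_sum]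
      _ ≤ c • ∑ u ∈ E, ∑ w ∈ W, star (w : A) * h * (w : A) := by
          refine smul_le_smul_of_nonneg_left ?_ hc
          refine Finset.sum_le_sum fun u hu => ?_
          have hinj : Set.InjOn (fun v : unitary A => v * u) V := fun a _ b _ hab =>
            mul_right_cancel hab
          have this : ∑ w ∈ V.image (fun v : unitary A => v * u), star (w : A) * h * (w : A) =
              ∑ v ∈ V, star ((v * u : unitary A) : A) * h * ((v * u : unitary A) : A) :=
            Finset.sum_image hinj
          rw [← this]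
          refine Finset.sum_le_sum_of_subset_of_nonneg ?_ fun w _ _ => hWn w
          intro w hw
          rw [Finset.mem_image] at hw
          obtain ⟨v, hv, rfl⟩ := hw
          exact Finset.mem_image.mpr ⟨(v, u), Finset.mem_product.mpr ⟨hv, hu⟩, rfl⟩
      _ = (c * (E.card : ℝ)) • ∑ w ∈ W, star (w : A) * h * (w : A) := by
          rw [Finset.sum_const, mul_smul, Nat.cast_smul_eq_nsmul]

theorem A_norm_le {x : A} {r : ℝ} (hr : 0 ≤ r) (h1 : -(r • (1 : A)) ≤ x) (h2 : x ≤ r • (1 : A)) :
    ‖x‖ ≤ 3 * r := by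
  rcases subsingleton_or_nontrivial A with hA | hA
  · rw [Subsingleton.elim x 0, norm_zero]; positivity
  have h3 : 0 ≤ x + r • (1 : A) := by
    have := add_le_add_left h1 (r • (1 : A))
    simpa [add_comm] using this
  have h4 : x + r • (1 : A) ≤ algebraMap ℝ A (2 * r) := by
    rw [Algebra.algebraMap_eq_smul_one, two_mul, add_smul]
    exact add_le_add h2 le_rfl
  have h5 := (CStarAlgebra.norm_le_iff_le_algebraMap (x + r • (1 : A)) (by positivity) h3).mpr h4
  have h6 : x = (x + r • (1 : A)) - r • (1 : A) := by abel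
  calc ‖x‖ = ‖(x + r • (1 : A)) - r • (1 : A)‖ := by rw [← h6]
    _ ≤ ‖x + r • (1 : A)‖ + ‖r • (1 : A)‖ := norm_sub_le _ _
    _ ≤ 2 * r + r := by
        refine add_le_add h5 ?_
        rw [norm_smul, norm_one, mul_one, Real.norm_eq_abs, abs_of_nonneg hr]
    _ = 3 * r := by ring

/-- for `R = (1+lam h)⁻¹`: `4 lam R h R ≤ 1` and `1 - R ≤ lam h` -/
theorem A_est (lam : ℝ) (h R : A) (hh : 0 ≤ h) (hR : 0 ≤ R)
    (h1 : (1 + lam • h) * R = 1) (h2 : R * (1 + lam • h) = 1) :
    (4 * lam) • (R * h * R) ≤ 1 ∧ 1 - R ≤ lam • h := by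
  have hRs : star R = R := IsSelfAdjoint.of_nonneg hR
  have hhs : star h = h := IsSelfAdjoint.of_nonneg hh
  have hc : h * R * lam • (1 : A) = lam • (h * R) := by simp
  have e1 : lam • (h * R) = 1 - R := by
    have : (1 + lam • h) * R = R + lam • (h * R) := by
      rw [add_mul, one_mul, smul_mul_assoc]
    rw [this] at h1
    rw [← h1]; abel
  have e2 : lam • (R * h) = 1 - R := by
    have : R * (1 + lam • h) = R + lam • (R * h) := by
      rw [mul_add, mul_one, mul_smul_comm]
    rw [this] at h2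
    rw [← h2]; abel
  constructor
  · have key : 1 - (4 * lam) • (R * h * R) = star ((1 - lam • h) * R) * ((1 - lam • h) * R) := by
      have e3 : (1 - lam • h) * R = R - (1 - R) := by
        rw [sub_mul, one_mul, smul_mul_assoc, e1]
      have e4 : (4 * lam) • (R * h * R) = (4 : ℝ) • ((1 - R) * R) := by
        rw [mul_smul, ← smul_mul_assoc, e2]
      have e5 : star (R - (1 - R)) = R - (1 - R) := by
        rw [star_sub, star_sub, star_one, hRs]
      rw [e3, e4, e5]
      have : (4 : ℝ) • ((1 - R) * R) = (1 - R) * R + (1 - R) * R + (1 - R) * R + (1 - R) * R := by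
        rw [show (4 : ℝ) = 1 + 1 + 1 + 1 by norm_num]
        simp only [add_smul, one_smul]
      rw [this]
      noncomm_ring
    rw [← sub_nonneg, key]
    exact star_mul_self_nonneg _
  · rw [← sub_nonneg]
    have : lam • h - (1 - R) = star (lam • h) * R * (lam • h) := by
      have e6 : R * (lam • h) = 1 - R := by rw [mul_smul_comm, e2]
      rw [star_smul, hhs, star_trivial, mul_assoc, e6, mul_sub, mul_one, smul_mul_assoc, e1]
    rw [this]
    exact star_left_conjugate_nonneg hR _

-- TASK A (telescoping quasi-central cut-downs)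
theorem tele (E : Finset (unitary A)) (ε : ℝ) (hε : 0 < ε) :
    ∃ (V : Finset (unitary A)) (c : ℝ), 0 ≤ c ∧ ∀ h : A, 0 ≤ h → ∃ e : A, 0 ≤ e ∧ e ≤ 1 ∧
      (∀ u ∈ E, ‖(u : A) * e - e * (u : A)‖ ≤ ε) ∧
      1 - e ≤ c • ∑ v ∈ V, star (v : A) * h * (v : A) ∧
      ∀ z : A, star z * z ≤ h → ‖z * e‖ ≤ ε := by
  classical
  set E' : Finset (unitary A) := insert 1 (E ∪ E.image (fun u => star u)) with hE'
  have h1E : (1 : unitary A) ∈ E' := Finset.mem_insert_self _ _
  have hEE : ∀ u ∈ E, u ∈ E' ∧ star u ∈ E' := by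
    intro u hu
    constructor
    · exact Finset.mem_insert_of_mem (Finset.mem_union_left _ hu)
    · exact Finset.mem_insert_of_mem (Finset.mem_union_right _
        (Finset.mem_image.mpr ⟨u, hu, rfl⟩))
  obtain ⟨k, hk⟩ := exists_nat_gt (3 / ε)
  have hk0 : 0 < (k : ℝ) := lt_trans (by positivity) hk
  have hkn : k ≠ 0 := by rintro rfl; simp at hk0
  obtain ⟨V, c, hc, hV⟩ := A_iter E' k
  set lam : ℝ := 1 / (4 * ε ^ 2) with hlam
  have hlam0 : 0 < lam := by positivity
  refine ⟨V, lam * c, by positivity, fun h hh => ?_⟩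
  have hn : ∀ l, 0 ≤ (A_S E')^[l] h := A_iter_nonneg E' hh
  choose R hR0 hR1 hRa hRb using fun l => A_res lam hlam0.le ((A_S E')^[l] h) (hn l)
  have hest := fun l => A_est lam ((A_S E')^[l] h) (R l) (hn l) (hR0 l) (hRa l) (hRb l)
  -- conjugation
  have hconj : ∀ u ∈ E', ∀ l, R (l + 1) ≤ star (u : A) * R l * (u : A) := by
    intro u hu l
    have huu : star (u : A) * (u : A) = 1 := Unitary.coe_star_mul_self u
    have huu' : (u : A) * star (u : A) = 1 := Unitary.coe_mul_star_self u
    have ex : star (u : A) * (1 + lam • (A_S E')^[l] h) * (u : A) =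
        1 + lam • (star (u : A) * (A_S E')^[l] h * (u : A)) := by
      rw [mul_add, add_mul, mul_one, huu, mul_smul_comm, smul_mul_assoc]
    have hx : 0 ≤ star (u : A) * (1 + lam • (A_S E')^[l] h) * (u : A) :=
      star_left_conjugate_nonneg (add_nonneg zero_le_one (smul_nonneg hlam0.le (hn l))) _
    refine A_anti (x := star (u : A) * (1 + lam • (A_S E')^[l] h) * (u : A))
      (y := 1 + lam • (A_S E')^[l + 1] h) hx ?_ ?_ ?_ (hRa _) (hRb _)
    · rw [ex, Function.iterate_succ_apply']
      exact add_le_add le_rfl (smul_le_smul_of_nonneg_left (A_S_ge E' (hn l) u hu) hlam0.le)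
    · calc star (u : A) * (1 + lam • (A_S E')^[l] h) * (u : A) * (star (u : A) * R l * (u : A))
          = star (u : A) * ((1 + lam • (A_S E')^[l] h) * ((u : A) * star (u : A)) * R l) * (u : A) := by
            simp only [mul_assoc]
        _ = 1 := by rw [huu', mul_one, hRa, mul_one, huu]
    · calc star (u : A) * R l * (u : A) * (star (u : A) * (1 + lam • (A_S E')^[l] h) * (u : A))
          = star (u : A) * (R l * ((u : A) * star (u : A)) * (1 + lam • (A_S E')^[l] h)) * (u : A) := by
            simp only [mul_assoc]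
        _ = 1 := by rw [huu', mul_one, hRb, mul_one, huu]
  set e : A := (k : ℝ)⁻¹ • ∑ l ∈ range k, R l with he
  have hki : 0 ≤ (k : ℝ)⁻¹ := by positivity
  have hsum : ∀ u ∈ E', e - (k : ℝ)⁻¹ • (1 : A) ≤ star (u : A) * e * (u : A) := by
    intro u hu
    have h1 : ∑ l ∈ range k, R (l + 1) ≤ ∑ l ∈ range k, star (u : A) * R l * (u : A) :=
      Finset.sum_le_sum fun l _ => hconj u hu l
    have h2 : ∑ l ∈ range k, R l - 1 ≤ ∑ l ∈ range k, R (l + 1) := by
      have h3 := Finset.sum_range_succ R k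
      have h4 := Finset.sum_range_succ' R k
      have h5 : ∑ l ∈ range k, R (l + 1) = ∑ l ∈ range k, R l + R k - R 0 := by
        rw [← h3, h4]; abel
      rw [h5]
      have h6 : 0 ≤ R k + (1 - R 0) := add_nonneg (hR0 k) (sub_nonneg.mpr (hR1 0))
      have h7 : ∑ l ∈ range k, R l - 1 ≤ (∑ l ∈ range k, R l - 1) + (R k + (1 - R 0)) :=
        le_add_of_nonneg_right h6
      calc ∑ l ∈ range k, R l - 1 ≤ (∑ l ∈ range k, R l - 1) + (R k + (1 - R 0)) := h7
        _ = ∑ l ∈ range k, R l + R k - R 0 := by abel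
    have h8 : star (u : A) * e * (u : A) = (k : ℝ)⁻¹ • ∑ l ∈ range k, star (u : A) * R l * (u : A) := by
      rw [he, mul_smul_comm, smul_mul_assoc, Finset.mul_sum, Finset.sum_mul]
    rw [h8, he, ← smul_sub]
    exact smul_le_smul_of_nonneg_left (h2.trans h1) hki
  have hcard : (k : ℝ)⁻¹ • ∑ l ∈ range k, (1 : A) = 1 := by
    rw [Finset.sum_const, Finset.card_range, ← Nat.cast_smul_eq_nsmul ℝ, smul_smul,
      inv_mul_cancel₀ (by exact_mod_cast hkn), one_smul]
  refine ⟨e, ?_, ?_, ?_, ?_, ?_⟩
  · exact smul_nonneg hki (Finset.sum_nonneg fun l _ => hR0 l)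
  · calc e ≤ (k : ℝ)⁻¹ • ∑ l ∈ range k, (1 : A) :=
        smul_le_smul_of_nonneg_left (Finset.sum_le_sum fun l _ => hR1 l) hki
      _ = 1 := hcard
  · intro u hu
    have huu : star (u : A) * (u : A) = 1 := Unitary.coe_star_mul_self u
    have huu' : (u : A) * star (u : A) = 1 := Unitary.coe_mul_star_self u
    have a1 := hsum u (hEE u hu).1
    have a2 := hsum (star u) (hEE u hu).2
    have a3 : star (u : A) * e * (u : A) ≤ e + (k : ℝ)⁻¹ • (1 : A) := by
      have := star_left_conjugate_le_conjugate a2 (u : A)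
      have e1 : star (u : A) * (e - (k : ℝ)⁻¹ • (1 : A)) * (u : A) =
          star (u : A) * e * (u : A) - (k : ℝ)⁻¹ • (1 : A) := by
        have e0 : star (u : A) * ((k : ℝ)⁻¹ • (1 : A)) * (u : A) = (k : ℝ)⁻¹ • (1 : A) := by
          rw [mul_smul_comm, smul_mul_assoc, mul_one, huu]
        rw [mul_sub, sub_mul, e0]
      have e2 : star (u : A) * (star ((star u : unitary A) : A) * e * ((star u : unitary A) : A)) * (u : A)
          = e := by
        have : star ((star u : unitary A) : A) = (u : A) := by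
          rw [Unitary.coe_star, star_star]
        rw [this, Unitary.coe_star]
        calc star (u : A) * ((u : A) * e * star (u : A)) * (u : A)
            = (star (u : A) * (u : A)) * e * (star (u : A) * (u : A)) := by simp only [mul_assoc]
          _ = e := by rw [huu, one_mul, mul_one]
      rw [e1, e2] at this
      exact sub_le_iff_le_add.mp this
    have a4 : ‖star (u : A) * e * (u : A) - e‖ ≤ 3 * (k : ℝ)⁻¹ := by
      refine A_norm_le hki ?_ ?_
      · rw [neg_le_sub_iff_le_add]
        exact sub_le_iff_le_add.mp a1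
      · rw [sub_le_iff_le_add, add_comm]
        exact a3
    have a5 : e * (u : A) - (u : A) * e = (u : A) * (star (u : A) * e * (u : A) - e) := by
      rw [mul_sub, ← mul_assoc, ← mul_assoc, huu', one_mul]
    rw [← norm_neg, neg_sub, a5, CStarRing.norm_coe_unitary_mul]
    refine a4.trans ?_
    rw [← div_eq_mul_inv, div_le_iff₀ hk0]
    rw [div_lt_iff₀ hε] at hk
    linarith
  · have b1 : ∀ l ∈ range k, 1 - R l ≤ lam • (A_S E')^[k] h := by
      intro l hl
      exact (hest l).2.trans (smul_le_smul_of_nonneg_left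
        (A_iter_mono E' h1E hh (Finset.mem_range.mp hl).le) hlam0.le)
    have b2 : 1 - e = (k : ℝ)⁻¹ • ∑ l ∈ range k, (1 - R l) := by
      rw [Finset.sum_sub_distrib, smul_sub, hcard]
    calc 1 - e = (k : ℝ)⁻¹ • ∑ l ∈ range k, (1 - R l) := b2
      _ ≤ (k : ℝ)⁻¹ • ∑ l ∈ range k, lam • (A_S E')^[k] h :=
          smul_le_smul_of_nonneg_left (Finset.sum_le_sum b1) hki
      _ = lam • (A_S E')^[k] h := by
          rw [Finset.sum_const, Finset.card_range, ← Nat.cast_smul_eq_nsmul ℝ, smul_smul,
            inv_mul_cancel₀ (by exact_mod_cast hkn), one_smul]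
      _ ≤ lam • (c • ∑ v ∈ V, star (v : A) * h * (v : A)) :=
          smul_le_smul_of_nonneg_left (hV h hh) hlam0.le
      _ = (lam * c) • ∑ v ∈ V, star (v : A) * h * (v : A) := by rw [smul_smul]
  · intro z hz
    have c1 : ∀ l ∈ range k, ‖z * R l‖ ≤ ε := by
      intro l _
      have hRs : star (R l) = R l := IsSelfAdjoint.of_nonneg (hR0 l)
      have c2 : star (z * R l) * (z * R l) ≤ algebraMap ℝ A (ε ^ 2) := by
        have c3 : star (z * R l) * (z * R l) = star (R l) * (star z * z) * R l := by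
          rw [star_mul]; simp only [mul_assoc]
        rw [c3]
        have c4 : star z * z ≤ (A_S E')^[l] h :=
          hz.trans (A_iter_mono E' h1E hh (Nat.zero_le l))
        refine (star_left_conjugate_le_conjugate c4 (R l)).trans ?_
        rw [hRs]
        have c5 := (hest l).1
        have c6 : R l * (A_S E')^[l] h * R l = (ε ^ 2) • ((4 * lam) • (R l * (A_S E')^[l] h * R l)) := by
          rw [smul_smul, hlam]
          have : ε ^ 2 * (4 * (1 / (4 * ε ^ 2))) = 1 := by field_simp
          rw [this, one_smul]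
        rw [c6, Algebra.algebraMap_eq_smul_one]
        exact smul_le_smul_of_nonneg_left c5 (by positivity)
      have c7 := (CStarAlgebra.norm_le_iff_le_algebraMap (star (z * R l) * (z * R l))
        (by positivity) (star_mul_self_nonneg _)).mpr c2
      rw [CStarRing.norm_star_mul_self, ← sq] at c7
      exact le_of_sq_le_sq c7 hε.le
    calc ‖z * e‖ = ‖(k : ℝ)⁻¹ • ∑ l ∈ range k, z * R l‖ := by
          rw [he, mul_smul_comm, Finset.mul_sum]
      _ = (k : ℝ)⁻¹ * ‖∑ l ∈ range k, z * R l‖ := by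
          rw [norm_smul, Real.norm_eq_abs, abs_of_nonneg hki]
      _ ≤ (k : ℝ)⁻¹ * ∑ l ∈ range k, ε := by
          refine mul_le_mul_of_nonneg_left ?_ hki
          exact (norm_sum_le _ _).trans (Finset.sum_le_sum c1)
      _ = ε := by
          rw [Finset.sum_const, Finset.card_range, nsmul_eq_mul, ← mul_assoc,
            inv_mul_cancel₀ (by exact_mod_cast hkn), one_mul]

end H504S
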