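import Pool.Agent.H504S.Defs

set_option autoImplicit false

namespace H504S

open H730HC Finset
open scoped ComplexConjugate ComplexOrder

universe u v

attribute [local instance] CStarAlgebra.spectralOrder CStarAlgebra.spectralOrderedRing

variable {A : Type u} [CStarAlgebra A]

theorem B_nonneg (ρ : A →L[ℂ] ℂ) (hρ : IsPos ρ) {a : A} (ha : 0 ≤ a) : 0 ≤ ρ a := by
  obtain ⟨b, rfl⟩ := CStarAlgebra.nonneg_iff_eq_star_mul_self.mp ha
  exact hρ b

theorem B_nonneg_re (ρ : A →L[ℂ] ℂ) (hρ : IsPos ρ) {a : A} (ha : 0 ≤ a) : 0 ≤ (ρ a).re :=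
  (Complex.le_def.mp (B_nonneg ρ hρ ha)).1

theorem B_mono (ρ : A →L[ℂ] ℂ) (hρ : IsPos ρ) {a b : A} (h : a ≤ b) : (ρ a).re ≤ (ρ b).re := by
  have h1 := B_nonneg_re ρ hρ (sub_nonneg.mpr h)
  rw [map_sub, Complex.sub_re] at h1
  linarith

theorem B_im (ρ : A →L[ℂ] ℂ) (hρ : IsPos ρ) {a : A} (ha : 0 ≤ a) : (ρ a).im = 0 :=
  (Complex.le_def.mp (B_nonneg ρ hρ ha)).2.symm

theorem B_star_re (ρ : A →L[ℂ] ℂ) (hρ : IsPos ρ) (z : A) : (ρ (star z)).re = (ρ z).re := by
  have h1 := B_im ρ hρ (star_mul_self_nonneg (1 + Complex.I • z))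
  have h2 := B_im ρ hρ (star_mul_self_nonneg z)
  have h3 := B_im ρ hρ (zero_le_one (α := A))
  have e : star (1 + Complex.I • z) * (1 + Complex.I • z) =
      1 + Complex.I • z - Complex.I • star z + star z * z := by
    rw [star_add, star_one, star_smul, add_mul, mul_add, mul_add, one_mul, one_mul, mul_one,
      smul_mul_smul_comm]
    have : star Complex.I * Complex.I = 1 := by simp
    rw [this, one_smul]
    have : star Complex.I = -Complex.I := by simp
    rw [this, neg_smul]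
    abel
  rw [e] at h1
  simp only [map_add, map_sub, map_smul, smul_eq_mul, Complex.add_im, Complex.sub_im,
    Complex.mul_im, Complex.I_re, Complex.I_im, zero_mul, one_mul, zero_add] at h1
  rw [h2, h3] at h1
  linarith

theorem B_star_mul_le_one {x : A} (hx : ‖x‖ ≤ 1) : star x * x ≤ 1 := by
  rw [← CStarAlgebra.norm_le_one_iff_of_nonneg _ (star_mul_self_nonneg x),
    CStarRing.norm_star_mul_self]
  nlinarith [norm_nonneg x]

theorem B_mul_star_le_one {x : A} (hx : ‖x‖ ≤ 1) : x * star x ≤ 1 := by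
  have := B_star_mul_le_one (x := star x) (by rwa [norm_star])
  rwa [star_star] at this

theorem B_row (x b : A) (hx : ‖x‖ ≤ 1) :
    star (x + (1 - x * star x) * b) * (x + (1 - x * star x) * b) ≤ 1 + star b * b := by
  have hD : 0 ≤ 1 - star x * x := sub_nonneg.mpr (B_star_mul_le_one hx)
  have h1 : 0 ≤ star (1 - star x * b) * (1 - star x * x) * (1 - star x * b) :=
    star_left_conjugate_nonneg hD _
  have h2 : 0 ≤ star b * (x * star x) * b := by
    have := star_mul_self_nonneg (star x * b)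
    have e : star (star x * b) * (star x * b) = star b * (x * star x) * b := by
      rw [star_mul, star_star]; simp only [mul_assoc]
    rwa [e] at this
  have e : 1 + star b * b - star (x + (1 - x * star x) * b) * (x + (1 - x * star x) * b) =
      star (1 - star x * b) * (1 - star x * x) * (1 - star x * b) + star b * (x * star x) * b := by
    simp only [star_add, star_sub, star_mul, star_star, star_one]
    noncomm_ring
  rw [← sub_nonneg, e]
  exact add_nonneg h1 h2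

theorem B_lin (L : A → ℂ) (hL : ∀ (c : ℂ) (y : A), L (c • y) = c * L y) (M : ℝ)
    (h : ∀ y : A, ‖y‖ ≤ 1 → (L y).re ≤ M) (y : A) : ‖L y‖ ≤ M * ‖y‖ := by
  by_cases hy : y = 0
  · have : L y = 0 := by
      have := hL 0 y
      rwa [zero_smul, zero_mul, ← hy] at this
    rw [this, hy]; simp
  by_cases hLy : L y = 0
  · rw [hLy, norm_zero]
    have h0 : L 0 = 0 := by
      have := hL 0 y
      rwa [zero_smul, zero_mul] at this
    have := h 0 (by simp)
    rw [h0] at this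
    exact mul_nonneg this (norm_nonneg _)
  have hyn : 0 < ‖y‖ := norm_pos_iff.mpr hy
  have hLn : 0 < ‖L y‖ := norm_pos_iff.mpr hLy
  have h1 := h (((starRingEnd ℂ (L y)) / (‖L y‖ * ‖y‖ : ℝ)) • y) (by
    rw [norm_smul, norm_div, Complex.norm_conj, Complex.norm_real, Real.norm_eq_abs,
      abs_of_pos (by positivity)]
    rw [div_mul_eq_mul_div, mul_comm, div_self]
    positivity)
  rw [hL] at h1
  have e : starRingEnd ℂ (L y) / ((‖L y‖ * ‖y‖ : ℝ) : ℂ) * L y = ((‖L y‖ / ‖y‖ : ℝ) : ℂ) := by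
    rw [div_mul_eq_mul_div, mul_comm, Complex.mul_conj, Complex.normSq_eq_norm_sq]
    push_cast
    have : (‖L y‖ : ℂ) ≠ 0 := by exact_mod_cast hLn.ne'
    have : (‖y‖ : ℂ) ≠ 0 := by exact_mod_cast hyn.ne'
    field_simp
  rw [e, Complex.ofReal_re, div_le_iff₀ hyn] at h1
  exact h1

-- TASK B (variation at an almost maximiser)
theorem var (ρ ζ : A →L[ℂ] ℂ) (hρ : IsPos ρ) (κ δ s : ℝ) (hs : 0 < s) (hs1 : s ≤ 1)
    (hsup : ∀ x : A, ‖x‖ ≤ 1 → (ζ x).re - (ρ (x * star x)).re ≤ κ) (x0 : A) (hx0 : ‖x0‖ ≤ 1)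
    (hx1 : κ - δ ≤ (ζ x0).re - (ρ (x0 * star x0)).re) (y : A) :
    ‖ζ ((1 - x0 * star x0) * y) - 2 * ρ ((1 - x0 * star x0) * y * star x0)‖ ≤
      (δ / s + s * (κ + (ρ 1).re)) * ‖y‖ := by
  refine B_lin (fun y => ζ ((1 - x0 * star x0) * y) - 2 * ρ ((1 - x0 * star x0) * y * star x0))
    ?_ _ ?_ y
  · intro c y
    simp only [mul_smul_comm, smul_mul_assoc, map_smul, smul_eq_mul]
    ring
  clear y
  intro y hy
  set D : A := 1 - x0 * star x0 with hD
  have hD0 : 0 ≤ D := sub_nonneg.mpr (B_mul_star_le_one hx0)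
  have hDs : star D = D := IsSelfAdjoint.of_nonneg hD0
  have hP0 : 0 ≤ x0 * star x0 := mul_star_self_nonneg x0
  have hD1 : D ≤ 1 := by rw [hD]; exact sub_le_self _ hP0
  have hκ : 0 ≤ κ := by
    have := hsup 0 (by simp)
    simpa using this
  set T : A := x0 + s • (D * y) with hT
  have hTT : star T * T ≤ algebraMap ℝ A (1 + s ^ 2) := by
    have h1 := B_row x0 (s • y) hx0
    have e1 : x0 + (1 - x0 * star x0) * (s • y) = T := by rw [hT, mul_smul_comm]
    rw [e1] at h1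
    refine h1.trans ?_
    rw [star_smul, star_trivial, smul_mul_smul_comm, map_add, map_one,
      Algebra.algebraMap_eq_smul_one, ← pow_two]
    exact add_le_add le_rfl (smul_le_smul_of_nonneg_left (B_star_mul_le_one hy) (by positivity))
  have hTn : ‖T‖ ^ 2 ≤ 1 + s ^ 2 := by
    have := (CStarAlgebra.norm_le_iff_le_algebraMap (star T * T) (by positivity)
      (star_mul_self_nonneg T)).mpr hTT
    rwa [CStarRing.norm_star_mul_self, ← pow_two] at this
  set r : ℝ := Real.sqrt (1 + s ^ 2) with hr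
  have hr2 : r ^ 2 = 1 + s ^ 2 := Real.sq_sqrt (by positivity)
  have hr1 : 1 ≤ r := by
    rw [hr]; exact Real.one_le_sqrt.mpr (by nlinarith)
  have hr0 : 0 < r := by linarith
  have hTr : ‖T‖ ≤ r := by
    rw [hr]; exact Real.le_sqrt_of_sq_le hTn
  have h2 := hsup (r⁻¹ • T) (by
    rw [norm_smul, Real.norm_eq_abs, abs_of_pos (by positivity), inv_mul_le_iff₀ hr0, mul_one]
    exact hTr)
  have e2 : ζ (r⁻¹ • T) = ((r⁻¹ : ℝ) : ℂ) * ζ T := by
    rw [← Complex.coe_smul, map_smul, smul_eq_mul]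
  have e3 : ρ (r⁻¹ • T * star (r⁻¹ • T)) = (((r⁻¹) ^ 2 : ℝ) : ℂ) * ρ (T * star T) := by
    rw [star_smul, star_trivial, smul_mul_smul_comm, ← Complex.coe_smul, map_smul, smul_eq_mul, pow_two]
  rw [e2, e3, Complex.re_ofReal_mul, Complex.re_ofReal_mul] at h2
  have h3 : r * (ζ T).re - (ρ (T * star T)).re ≤ κ * (1 + s ^ 2) := by
    have := mul_le_mul_of_nonneg_left h2 (sq_nonneg r)
    have e4 : r ^ 2 * (r⁻¹ * (ζ T).re - r⁻¹ ^ 2 * (ρ (T * star T)).re) =
        r * (ζ T).re - (ρ (T * star T)).re := by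
      field_simp
    rw [e4, hr2] at this
    linarith
  have hTp : 0 ≤ (ρ (T * star T)).re := B_nonneg_re ρ hρ (mul_star_self_nonneg T)
  have h4 : (ζ T).re ≤ κ * (1 + s ^ 2) + (ρ (T * star T)).re := by
    rcases le_or_gt 0 (ζ T).re with h | h
    · nlinarith
    · have : 0 ≤ κ * (1 + s ^ 2) := by positivity
      linarith
  have e5 : (ζ T).re = (ζ x0).re + s * (ζ (D * y)).re := by
    rw [hT, map_add, ← Complex.coe_smul, map_smul, smul_eq_mul, Complex.add_re,
      Complex.re_ofReal_mul]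
  have e6 : T * star T = x0 * star x0 + (s • (D * y * star x0) + s • star (D * y * star x0)) +
      (s ^ 2) • (D * (y * star y) * D) := by
    have q1 : star T = star x0 + s • (star y * D) := by
      rw [hT, star_add, star_smul, star_trivial s, star_mul, hDs]
    have q2 : star (D * y * star x0) = x0 * (star y * D) := by
      rw [star_mul, star_star, star_mul, hDs]
    rw [q1, q2, hT, add_mul, mul_add, mul_add, smul_mul_smul_comm, ← pow_two]
    simp only [mul_smul_comm, smul_mul_assoc, mul_assoc]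
    abel
  have e7 : (ρ (T * star T)).re = (ρ (x0 * star x0)).re + 2 * s * (ρ (D * y * star x0)).re +
      s ^ 2 * (ρ (D * (y * star y) * D)).re := by
    rw [e6]
    simp only [map_add, ← Complex.coe_smul, map_smul, smul_eq_mul, Complex.add_re,
      Complex.re_ofReal_mul]
    rw [B_star_re ρ hρ]
    ring
  have h5 : (ρ (D * (y * star y) * D)).re ≤ (ρ 1).re := by
    refine B_mono ρ hρ ?_
    have h6 : star D * (y * star y) * D ≤ star D * 1 * D :=
      star_left_conjugate_le_conjugate (B_mul_star_le_one hy) D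
    rw [hDs, mul_one] at h6
    refine h6.trans ?_
    have h7 : ‖D‖ ≤ 1 := (CStarAlgebra.norm_le_one_iff_of_nonneg D hD0).mpr hD1
    have h8 := B_star_mul_le_one h7
    rwa [hDs] at h8
  have h9 : (ζ (D * y) - 2 * ρ (D * y * star x0)).re =
      (ζ (D * y)).re - 2 * (ρ (D * y * star x0)).re := by
    rw [Complex.sub_re]
    congr 1
    simp
  show (ζ (D * y) - 2 * ρ (D * y * star x0)).re ≤ δ / s + s * (κ + (ρ 1).re)
  rw [h9]
  have h10 : s * ((ζ (D * y)).re - 2 * (ρ (D * y * star x0)).re) ≤ δ + s ^ 2 * (κ + (ρ 1).re) := by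
    have := mul_le_mul_of_nonneg_left h5 (sq_nonneg s)
    nlinarith
  have h11 : δ / s + s * (κ + (ρ 1).re) = (δ + s ^ 2 * (κ + (ρ 1).re)) / s := by
    field_simp
  rw [h11, le_div_iff₀ hs]
  linarith

theorem close (N : ℕ) (B ε : ℝ) (hε : 0 < ε) : ∃ δ : ℝ, 0 < δ ∧ δ ≤ 1 ∧
    ∀ (ρ : A →L[ℂ] ℂ), IsPos ρ → (ρ 1).re ≤ B → ∀ (κ : ℝ), 0 ≤ κ → κ ≤ B →
    ∀ (W : Finset (unitary A)), W.card ≤ N → W.Nonempty → ∀ (ζ : unitary A → (A →L[ℂ] ℂ)),
    (∀ i ∈ W, ∀ x : A, ‖x‖ ≤ 1 → (ζ i x).re - (ρ (x * star x)).re ≤ κ + δ) →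
    ∀ x0 : A, ‖x0‖ ≤ 1 →
    κ - δ ≤ (∑ i ∈ W, (ζ i x0).re) / (W.card : ℝ) - (ρ (x0 * star x0)).re →
    ∀ i ∈ W, ∀ j ∈ W, ∀ y : A,
      ‖ζ i ((1 - x0 * star x0) * y) - ζ j ((1 - x0 * star x0) * y)‖ ≤ ε * ‖y‖ := by
  classical
  set B' : ℝ := max B 0 with hB'
  have hB0 : 0 ≤ B' := le_max_right _ _
  have hBB : B ≤ B' := le_max_left _ _
  set s : ℝ := min 1 (ε / (4 * (2 * B' + 1))) with hs
  have hs0 : 0 < s := by rw [hs]; exact lt_min zero_lt_one (by positivity)
  have hs1 : s ≤ 1 := min_le_left _ _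
  have hs2 : s * (2 * B' + 1) ≤ ε / 4 := by
    have : s ≤ ε / (4 * (2 * B' + 1)) := min_le_right _ _
    calc s * (2 * B' + 1) ≤ ε / (4 * (2 * B' + 1)) * (2 * B' + 1) :=
          mul_le_mul_of_nonneg_right this (by positivity)
      _ = ε / 4 := by field_simp
  set δ : ℝ := min 1 (ε * s / (8 * (N + 1))) with hδ
  have hδ0 : 0 < δ := by rw [hδ]; exact lt_min zero_lt_one (by positivity)
  have hδ1 : δ ≤ 1 := min_le_left _ _
  have hδ2 : 2 * (N : ℝ) * δ / s ≤ ε / 4 := by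
    have h1 : δ ≤ ε * s / (8 * (N + 1)) := min_le_right _ _
    rw [div_le_iff₀ hs0]
    have h2 : 2 * (N : ℝ) * δ ≤ 2 * (N : ℝ) * (ε * s / (8 * (N + 1))) :=
      mul_le_mul_of_nonneg_left h1 (by positivity)
    refine h2.trans ?_
    have h3 : 2 * (N : ℝ) * (ε * s / (8 * (N + 1))) = ε / 4 * s * (N / (N + 1)) := by
      field_simp
      ring
    rw [h3]
    have h4 : (N : ℝ) / (N + 1) ≤ 1 := by
      rw [div_le_one (by positivity)]; linarith
    exact mul_le_of_le_one_right (by positivity) h4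
  refine ⟨δ, hδ0, hδ1, ?_⟩
  intro ρ hρ hρB κ hκ0 hκB W hWN hWne ζ hsup x0 hx0 hav
  have hρ1 : 0 ≤ (ρ 1).re := B_nonneg_re ρ hρ zero_le_one
  have hn : 0 < (W.card : ℝ) := by exact_mod_cast hWne.card_pos
  set P : ℝ := (ρ (x0 * star x0)).re with hP
  have key : ∀ i ∈ W, ∀ y : A,
      ‖ζ i ((1 - x0 * star x0) * y) - 2 * ρ ((1 - x0 * star x0) * y * star x0)‖ ≤
        (ε / 2) * ‖y‖ := by
    intro i hi y
    have h1 : (κ + δ) - 2 * (N : ℝ) * δ ≤ (ζ i x0).re - P := by
      have h2 : ∑ j ∈ W, (ζ j x0).re ≥ (κ - δ + P) * W.card := by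
        have : κ - δ + P ≤ (∑ j ∈ W, (ζ j x0).re) / (W.card : ℝ) := by linarith
        rwa [le_div_iff₀ hn] at this
      have h3 : ∑ j ∈ W.erase i, (ζ j x0).re ≤ ∑ _j ∈ W.erase i, (κ + δ + P) := by
        refine Finset.sum_le_sum fun j hj => ?_
        have := hsup j (Finset.mem_of_mem_erase hj) x0 hx0
        linarith
      rw [Finset.sum_const, nsmul_eq_mul, Finset.card_erase_of_mem hi] at h3
      have h4 : ((W.card - 1 : ℕ) : ℝ) = W.card - 1 := by
        rw [Nat.cast_sub hWne.card_pos]; simp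
      rw [h4] at h3
      have h5 := Finset.add_sum_erase W (fun j => (ζ j x0).re) hi
      have h6 : (W.card : ℝ) ≤ N := by exact_mod_cast hWN
      nlinarith
    have h7 := var ρ (ζ i) hρ (κ + δ) (2 * (N : ℝ) * δ) s hs0 hs1 (hsup i hi) x0 hx0
      (by linarith) y
    refine h7.trans ?_
    refine mul_le_mul_of_nonneg_right ?_ (norm_nonneg y)
    have h8 : s * (κ + δ + (ρ 1).re) ≤ s * (2 * B' + 1) := by
      refine mul_le_mul_of_nonneg_left ?_ hs0.le
      linarith
    linarith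
  intro i hi j hj y
  have h1 := key i hi y
  have h2 := key j hj y
  have h3 : ζ i ((1 - x0 * star x0) * y) - ζ j ((1 - x0 * star x0) * y) =
      (ζ i ((1 - x0 * star x0) * y) - 2 * ρ ((1 - x0 * star x0) * y * star x0)) -
      (ζ j ((1 - x0 * star x0) * y) - 2 * ρ ((1 - x0 * star x0) * y * star x0)) := by ring
  rw [h3]
  refine (norm_sub_le _ _).trans ?_
  linarith

end H504S
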