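import Pool.Agent.H504S.Defs
import Pool.Agent.H504S.TaskA
import Pool.Agent.H504S.TaskB

set_option autoImplicit false

namespace H504S

open H730HC Finset
open scoped ComplexConjugate ComplexOrder

universe u v

attribute [local instance] CStarAlgebra.spectralOrder CStarAlgebra.spectralOrderedRing

variable {A : Type u} [CStarAlgebra A]

theorem C_cju_cju (w v : unitary A) (φ : A →L[ℂ] ℂ) : cju w (cju v φ) = cju (v * w) φ := by
  ext x
  simp only [cju_apply, Submonoid.coe_mul, star_mul]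
  congr 1
  simp only [mul_assoc]

theorem C_cju_one (φ : A →L[ℂ] ℂ) : cju (1 : unitary A) φ = φ := by
  ext x
  simp [cju_apply]

theorem C_norm_conj (w : unitary A) (x : A) : ‖(w : A) * x * star (w : A)‖ = ‖x‖ := by
  have h : star (w : A) = ((star w : unitary A) : A) := rfl
  rw [h, CStarRing.norm_mul_coe_unitary, CStarRing.norm_coe_unitary_mul]

theorem C_cju_norm (w : unitary A) (φ : A →L[ℂ] ℂ) : ‖cju w φ‖ ≤ ‖φ‖ := by
  refine ContinuousLinearMap.opNorm_le_bound _ (norm_nonneg _) (fun x => ?_)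
  rw [cju_apply]
  refine (φ.le_opNorm _).trans ?_
  rw [C_norm_conj]

theorem C_cju_add (w : unitary A) (φ ψ : A →L[ℂ] ℂ) : cju w (φ + ψ) = cju w φ + cju w ψ := by
  ext x
  simp [cju_apply]

theorem C_cju_smul (w : unitary A) (r : ℝ) (φ : A →L[ℂ] ℂ) : cju w (r • φ) = r • cju w φ := by
  ext x
  simp [cju_apply]

/-- the generating set -/
def CR (Z : unitary A → (A →L[ℂ] ℂ)) : Set (unitary A → (A →L[ℂ] ℂ)) :=
  Set.range (fun (p : unitary A × unitary A) (g : unitary A) => cju p.1 (Z (p.1 * g * p.2)))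

/-- the translation as a linear map -/
noncomputable def CL (w b : unitary A) :
    (unitary A → (A →L[ℂ] ℂ)) →ₗ[ℝ] (unitary A → (A →L[ℂ] ℂ)) where
  toFun Z' := fun g => cju w (Z' (w * g * b))
  map_add' := fun X Y => by
    funext g
    simp only [Pi.add_apply, C_cju_add]
  map_smul' := fun r X => by
    funext g
    simp only [Pi.smul_apply, C_cju_smul, RingHom.id_apply]

theorem CL_mem (Z : unitary A → (A →L[ℂ] ℂ)) (w b : unitary A)
    (Z' : unitary A → (A →L[ℂ] ℂ)) (h : Z' ∈ convexHull ℝ (CR Z)) :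
    (fun g => cju w (Z' (w * g * b))) ∈ convexHull ℝ (CR Z) := by
  have h1 : CL w b Z' ∈ CL w b '' convexHull ℝ (CR Z) := ⟨Z', h, rfl⟩
  rw [LinearMap.image_convexHull] at h1
  refine convexHull_mono ?_ h1
  rintro _ ⟨_, ⟨p, rfl⟩, rfl⟩
  refine ⟨(p.1 * w, b * p.2), ?_⟩
  funext g
  show cju (p.1 * w) (Z (p.1 * w * g * (b * p.2))) = cju w (cju p.1 (Z (p.1 * (w * g * b) * p.2)))
  rw [C_cju_cju]
  simp only [mul_assoc]

theorem CR_norm (Z : unitary A → (A →L[ℂ] ℂ)) (C : ℝ) (hZ : ∀ g, ‖Z g‖ ≤ C)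
    (Z' : unitary A → (A →L[ℂ] ℂ)) (h : Z' ∈ convexHull ℝ (CR Z)) (g : unitary A) : ‖Z' g‖ ≤ C := by
  have hc : Convex ℝ {Y : unitary A → (A →L[ℂ] ℂ) | ∀ g, ‖Y g‖ ≤ C} := by
    intro x hx y hy a b ha hb hab g
    have hx' := hx g
    have hy' := hy g
    calc ‖(a • x + b • y) g‖ = ‖a • x g + b • y g‖ := rfl
      _ ≤ ‖a • x g‖ + ‖b • y g‖ := norm_add_le _ _
      _ = a * ‖x g‖ + b * ‖y g‖ := by
          rw [norm_smul, norm_smul, Real.norm_of_nonneg ha, Real.norm_of_nonneg hb]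
      _ ≤ a * C + b * C := by gcongr
      _ = C := by rw [← add_mul, hab, one_mul]
  have hs : CR Z ⊆ {Y : unitary A → (A →L[ℂ] ℂ) | ∀ g, ‖Y g‖ ≤ C} := by
    rintro _ ⟨p, rfl⟩ g
    exact (C_cju_norm _ _).trans (hZ _)
  exact convexHull_min hs hc h g

theorem C_re_nonneg (ρ : A →L[ℂ] ℂ) (hρ : IsPos ρ) {a : A} (ha : 0 ≤ a) : 0 ≤ (ρ a).re := by
  obtain ⟨s, rfl⟩ := CStarAlgebra.nonneg_iff_eq_star_mul_self.1 ha
  exact (Complex.le_def.1 (hρ s)).1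

theorem C_re_mono (ρ : A →L[ℂ] ℂ) (hρ : IsPos ρ) {a b : A} (hab : a ≤ b) : (ρ a).re ≤ (ρ b).re := by
  have h := C_re_nonneg ρ hρ (sub_nonneg.2 hab)
  rw [map_sub, Complex.sub_re] at h
  linarith

theorem C_tr_conj (τ : A →L[ℂ] ℂ) (hτ : IsPT τ) (w : unitary A) (h : A) :
    τ ((w : A) * h * star (w : A)) = τ h := by
  rw [hτ.2, ← mul_assoc, Unitary.coe_star_mul_self, one_mul]

theorem C_tr_conj' (τ : A →L[ℂ] ℂ) (hτ : IsPT τ) (w : unitary A) (h : A) :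
    τ (star (w : A) * h * (w : A)) = τ h := by
  rw [hτ.2, ← mul_assoc, Unitary.mul_star_self_of_mem w.2, one_mul]

/-- statement of task A -/
def CTele (A : Type u) [CStarAlgebra A] : Prop :=
  ∀ (E : Finset (unitary A)) (ε : ℝ), 0 < ε →
    ∃ (V : Finset (unitary A)) (c : ℝ), 0 ≤ c ∧ ∀ h : A, 0 ≤ h → ∃ e : A, 0 ≤ e ∧ e ≤ 1 ∧
      (∀ u ∈ E, ‖(u : A) * e - e * (u : A)‖ ≤ ε) ∧
      1 - e ≤ c • ∑ v ∈ V, star (v : A) * h * (v : A) ∧
      ∀ z : A, star z * z ≤ h → ‖z * e‖ ≤ ε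

/-- statement of task B -/
def CClose (A : Type u) [CStarAlgebra A] : Prop :=
  ∀ (N : ℕ) (B ε : ℝ), 0 < ε → ∃ δ : ℝ, 0 < δ ∧ δ ≤ 1 ∧
    ∀ (ρ : A →L[ℂ] ℂ), IsPos ρ → (ρ 1).re ≤ B → ∀ (κ : ℝ), 0 ≤ κ → κ ≤ B →
    ∀ (W : Finset (unitary A)), W.card ≤ N → W.Nonempty → ∀ (ζ : unitary A → (A →L[ℂ] ℂ)),
    (∀ i ∈ W, ∀ x : A, ‖x‖ ≤ 1 → (ζ i x).re - (ρ (x * star x)).re ≤ κ + δ) →
    ∀ x0 : A, ‖x0‖ ≤ 1 →
    κ - δ ≤ (∑ i ∈ W, (ζ i x0).re) / (W.card : ℝ) - (ρ (x0 * star x0)).re →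
    ∀ i ∈ W, ∀ j ∈ W, ∀ y : A,
      ‖ζ i ((1 - x0 * star x0) * y) - ζ j ((1 - x0 * star x0) * y)‖ ≤ ε * ‖y‖

theorem KL_of (tele : CTele A) (close : CClose A) (Z : unitary A → (A →L[ℂ] ℂ)) (C : ℝ)
    (hZ : ∀ g, ‖Z g‖ ≤ C) (τ : A →L[ℂ] ℂ) (hτ : IsPT τ)
    (E W : Finset (unitary A)) (ε : ℝ) (hε : 0 < ε) :
    ∃ Z2 ∈ convexHull ℝ (Set.range (fun (p : unitary A × unitary A) (g : unitary A) =>
        cju p.1 (Z (p.1 * g * p.2)))),
      ∃ e : A, 0 ≤ e ∧ e ≤ 1 ∧ (∀ u ∈ E, ‖(u : A) * e - e * (u : A)‖ ≤ ε) ∧ (τ (1 - e)).re ≤ ε ∧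
        ∀ w ∈ W, ∀ y : A, ‖cju w (Z2 w) (e * y) - Z2 1 (e * y)‖ ≤ ε * ‖y‖ := by
  classical
  change ∃ Z2 ∈ convexHull ℝ (CR Z), _
  have hC : 0 ≤ C := (norm_nonneg _).trans (hZ 1)
  set ε1 : ℝ := ε / (4 * (C + 1)) with hε1
  have hε1p : 0 < ε1 := by positivity
  have hε1le : ε1 ≤ ε := by
    rw [hε1]
    exact div_le_self hε.le (by linarith)
  have hε1C : 2 * C * ε1 ≤ ε / 2 := by
    have h1 : ε1 * (4 * (C + 1)) = ε := by
      rw [hε1]; field_simp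
    nlinarith
  obtain ⟨V, c, hc, hV⟩ := tele E ε1 hε1p
  set t : ℝ := c * (V.card : ℝ) * (C + 1) / ε + 1 with ht
  have htp : 0 < t := by positivity
  set ρ : A →L[ℂ] ℂ := ((t : ℝ) : ℂ) • τ with hρdef
  have hρre : ∀ a, (ρ a).re = t * (τ a).re := by
    intro a
    simp [hρdef]
  have hρ : IsPos ρ := by
    intro x
    show (0 : ℂ) ≤ ((t : ℝ) : ℂ) * τ (star x * x)
    exact mul_nonneg (by exact_mod_cast htp.le) (hτ.1 x)
  have hρ1 : 0 ≤ (ρ 1).re := by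
    have := (Complex.le_def.1 (hρ 1)).1
    simpa using this
  set W' : Finset (unitary A) := insert 1 W with hW'
  have hW'ne : W'.Nonempty := ⟨1, by simp [hW']⟩
  have hcard : (0 : ℝ) < (W'.card : ℝ) := by exact_mod_cast hW'ne.card_pos
  obtain ⟨δ, hδ, hδ1, hcl⟩ := close W'.card (C + (ρ 1).re) (ε / 2) (by positivity)
  -- the functional to be minimised
  let val : (unitary A → (A →L[ℂ] ℂ)) → Set ℝ := fun Z' =>
    {r | ∃ (h : unitary A) (x : A), ‖x‖ ≤ 1 ∧ r = (Z' h x).re - (ρ (x * star x)).re}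
  have hρxx : ∀ x : A, 0 ≤ (ρ (x * star x)).re := by
    intro x
    exact C_re_nonneg ρ hρ (mul_star_self_nonneg x)
  have hval0 : ∀ Z', (0 : ℝ) ∈ val Z' := fun Z' => ⟨1, 0, by simp, by simp⟩
  have hvalC : ∀ Z' ∈ convexHull ℝ (CR Z), ∀ r ∈ val Z', r ≤ C := by
    rintro Z' hZ' r ⟨h, x, hx, rfl⟩
    have h1 : (Z' h x).re ≤ C := by
      calc (Z' h x).re ≤ ‖Z' h x‖ := Complex.re_le_norm _
        _ ≤ ‖Z' h‖ * ‖x‖ := (Z' h).le_opNorm x
        _ ≤ C * 1 := mul_le_mul (CR_norm Z C hZ Z' hZ' h) hx (norm_nonneg _) hC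
        _ = C := mul_one C
    linarith [hρxx x]
  have hbdd : ∀ Z' ∈ convexHull ℝ (CR Z), BddAbove (val Z') := fun Z' hZ' =>
    ⟨C, fun r hr => hvalC Z' hZ' r hr⟩
  let K : (unitary A → (A →L[ℂ] ℂ)) → ℝ := fun Z' => sSup (val Z')
  have hK0 : ∀ Z' ∈ convexHull ℝ (CR Z), 0 ≤ K Z' := fun Z' hZ' =>
    le_csSup (hbdd Z' hZ') (hval0 Z')
  have hKC : ∀ Z' ∈ convexHull ℝ (CR Z), K Z' ≤ C := fun Z' hZ' =>
    csSup_le ⟨0, hval0 Z'⟩ (hvalC Z' hZ')
  have hne : (convexHull ℝ (CR Z)).Nonempty :=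
    ⟨_, subset_convexHull ℝ _ ⟨(1, 1), rfl⟩⟩
  set κ : ℝ := sInf (K '' convexHull ℝ (CR Z)) with hκ
  have hKb : BddBelow (K '' convexHull ℝ (CR Z)) := by
    refine ⟨0, ?_⟩
    rintro _ ⟨Z', hZ', rfl⟩
    exact hK0 Z' hZ'
  have hκ0 : 0 ≤ κ := by
    refine le_csInf (hne.image K) ?_
    rintro _ ⟨Z', hZ', rfl⟩
    exact hK0 Z' hZ'
  have hκC : κ ≤ C := by
    obtain ⟨Z', hZ'⟩ := hne
    exact (csInf_le hKb ⟨Z', hZ', rfl⟩).trans (hKC Z' hZ')
  obtain ⟨_, ⟨Z1, hZ1, rfl⟩, hZ1lt⟩ := exists_lt_of_csInf_lt (hne.image K)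
    (show sInf (K '' convexHull ℝ (CR Z)) < κ + δ by rw [← hκ]; linarith)
  -- the average
  set N : ℝ := (W'.card : ℝ) with hN
  let Zav : unitary A → (A →L[ℂ] ℂ) :=
    ∑ i ∈ W', (1 / N) • (fun g : unitary A => cju i (Z1 (i * g * 1)))
  have hZav : Zav ∈ convexHull ℝ (CR Z) := by
    refine (convex_convexHull ℝ (CR Z)).sum_mem (fun i _ => by positivity) ?_
      (fun i _ => CL_mem Z i 1 Z1 hZ1)
    rw [Finset.sum_const, nsmul_eq_mul, mul_one_div, ← hN, div_self hcard.ne']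
  have hlt : κ - δ < K Zav := by
    have h1 : κ ≤ K Zav := csInf_le hKb ⟨Zav, hZav, rfl⟩
    linarith
  obtain ⟨_, ⟨h0, x0, hx0, rfl⟩, hx1⟩ := exists_lt_of_lt_csSup ⟨0, hval0 Zav⟩ hlt
  -- the functionals
  let ζ : unitary A → (A →L[ℂ] ℂ) := fun i => cju i (Z1 (i * h0))
  have hZavv : (Zav h0 x0).re = (∑ i ∈ W', (ζ i x0).re) / N := by
    have h1 : Zav h0 = ∑ i ∈ W', (1 / N) • ζ i := by
      show (∑ i ∈ W', (1 / N) • (fun g : unitary A => cju i (Z1 (i * g * 1)))) h0 = _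
      rw [Finset.sum_apply]
      refine Finset.sum_congr rfl (fun i _ => ?_)
      simp only [Pi.smul_apply, mul_one]
      rfl
    rw [h1, _root_.sum_apply, Complex.re_sum, Finset.sum_div]
    refine Finset.sum_congr rfl (fun i _ => ?_)
    rw [smul_apply, Complex.real_smul, Complex.re_ofReal_mul]
    ring
  have hζn : ∀ i, ‖ζ i‖ ≤ C := fun i => (C_cju_norm _ _).trans (CR_norm Z C hZ Z1 hZ1 _)
  have hsup : ∀ i ∈ W', ∀ x : A, ‖x‖ ≤ 1 → (ζ i x).re - (ρ (x * star x)).re ≤ κ + δ := by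
    intro i _ x hx
    have h1 : (ζ i x).re - (ρ (x * star x)).re ∈ val Z1 := by
      refine ⟨i * h0, (i : A) * x * star (i : A), by rw [C_norm_conj]; exact hx, ?_⟩
      have h2 : ζ i x = Z1 (i * h0) ((i : A) * x * star (i : A)) := rfl
      have h3 : ((i : A) * x * star (i : A)) * star ((i : A) * x * star (i : A)) =
          (i : A) * (x * star x) * star (i : A) := by
        rw [star_mul, star_mul, star_star]
        calc (i : A) * x * star (i : A) * ((i : A) * (star x * star (i : A)))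
            = (i : A) * x * (star (i : A) * (i : A)) * (star x * star (i : A)) := by
              simp only [mul_assoc]
          _ = (i : A) * (x * star x) * star (i : A) := by
              rw [Unitary.coe_star_mul_self, mul_one]
              simp only [mul_assoc]
      rw [h2, h3, hρre, hρre, C_tr_conj τ hτ]
    exact (le_csSup (hbdd Z1 hZ1) h1).trans hZ1lt.le
  have hmax : κ - δ ≤ (∑ i ∈ W', (ζ i x0).re) / (W'.card : ℝ) - (ρ (x0 * star x0)).re := by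
    rw [hZavv] at hx1
    exact hx1.le
  have hfin := hcl ρ hρ (by linarith) κ hκ0 (by linarith) W' le_rfl hW'ne ζ hsup x0 hx0 hmax
  -- size of `ρ (x0 x0*)`
  have hav : (Zav h0 x0).re ≤ C := by
    calc (Zav h0 x0).re ≤ ‖Zav h0 x0‖ := Complex.re_le_norm _
      _ ≤ ‖Zav h0‖ * ‖x0‖ := (Zav h0).le_opNorm x0
      _ ≤ C * 1 := mul_le_mul (CR_norm Z C hZ Zav hZav h0) hx0 (norm_nonneg _) hC
      _ = C := mul_one C
  have hρh : (ρ (x0 * star x0)).re ≤ C + 1 := by linarith [hx1.le]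
  have hτh : (τ (x0 * star x0)).re ≤ (C + 1) / t := by
    rw [le_div_iff₀ htp, mul_comm, ← hρre]
    exact hρh
  obtain ⟨e, he0, he1, heE, heV, hez⟩ := hV (x0 * star x0) (mul_star_self_nonneg x0)
  refine ⟨fun g => Z1 (g * h0), ?_, e, he0, he1, fun u hu => (heE u hu).trans hε1le, ?_, ?_⟩
  · have h1 := CL_mem Z 1 h0 Z1 hZ1
    have h2 : (fun g : unitary A => cju 1 (Z1 (1 * g * h0))) = fun g => Z1 (g * h0) := by
      funext g
      rw [C_cju_one, one_mul]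
    rw [h2] at h1
    exact h1
  · have h1 := C_re_mono τ hτ.1 heV
    have h2 : (τ (c • ∑ v ∈ V, star (v : A) * (x0 * star x0) * (v : A))).re =
        c * ((V.card : ℝ) * (τ (x0 * star x0)).re) := by
      have h3 : c • (∑ v ∈ V, star (v : A) * (x0 * star x0) * (v : A)) =
          ((c : ℝ) : ℂ) • (∑ v ∈ V, star (v : A) * (x0 * star x0) * (v : A)) :=
        (Complex.coe_smul c _).symm
      rw [h3, map_smul, smul_eq_mul, Complex.re_ofReal_mul, map_sum, Complex.re_sum]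
      congr 1
      rw [Finset.sum_congr rfl (fun v _ => by rw [C_tr_conj' τ hτ]), Finset.sum_const, nsmul_eq_mul]
    rw [h2] at h1
    refine h1.trans ?_
    calc c * ((V.card : ℝ) * (τ (x0 * star x0)).re) ≤ c * ((V.card : ℝ) * ((C + 1) / t)) := by
          gcongr
      _ = (c * (V.card : ℝ) * (C + 1)) / t := by ring
      _ ≤ ε := by
          rw [div_le_iff₀ htp, ht]
          have : ε * (c * (V.card : ℝ) * (C + 1) / ε + 1) = c * (V.card : ℝ) * (C + 1) + ε := by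
            field_simp
          rw [this]
          linarith
  · intro w hw y
    have hwW : w ∈ W' := by simp [hW', hw]
    have h1W : (1 : unitary A) ∈ W' := by simp [hW']
    have hk := hfin w hwW 1 h1W (e * y)
    have hen : ‖e‖ ≤ 1 := (CStarAlgebra.norm_le_one_iff_of_nonneg e he0).2 he1
    have hey : ‖e * y‖ ≤ ‖y‖ := by
      calc ‖e * y‖ ≤ ‖e‖ * ‖y‖ := norm_mul_le _ _
        _ ≤ 1 * ‖y‖ := by gcongr
        _ = ‖y‖ := one_mul _
    have hz : ‖star x0 * e‖ ≤ ε1 := hez (star x0) (by rw [star_star])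
    have hsplit : e * y = (1 - x0 * star x0) * (e * y) + x0 * (star x0 * e) * y := by
      rw [sub_mul, one_mul]
      simp only [mul_assoc]
      rw [sub_add_cancel]
    have hsmall : ∀ i, ‖ζ i (x0 * (star x0 * e) * y)‖ ≤ C * (ε1 * ‖y‖) := by
      intro i
      refine ((ζ i).le_opNorm _).trans ?_
      have h4 : ‖x0 * (star x0 * e) * y‖ ≤ ε1 * ‖y‖ := by
        calc ‖x0 * (star x0 * e) * y‖ ≤ ‖x0 * (star x0 * e)‖ * ‖y‖ := norm_mul_le _ _
          _ ≤ (‖x0‖ * ‖star x0 * e‖) * ‖y‖ := by gcongr; exact norm_mul_le _ _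
          _ ≤ (1 * ε1) * ‖y‖ := by gcongr
          _ = ε1 * ‖y‖ := by rw [one_mul]
      exact mul_le_mul (hζn i) h4 (norm_nonneg _) hC
    have hζ1 : ζ 1 = Z1 (1 * h0) := C_cju_one _
    show ‖ζ w (e * y) - Z1 (1 * h0) (e * y)‖ ≤ ε * ‖y‖
    rw [← hζ1]
    have e1 : ζ w (e * y) - ζ 1 (e * y) =
        (ζ w ((1 - x0 * star x0) * (e * y)) - ζ 1 ((1 - x0 * star x0) * (e * y))) +
        (ζ w (x0 * (star x0 * e) * y) - ζ 1 (x0 * (star x0 * e) * y)) := by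
      conv_lhs => rw [hsplit]
      rw [map_add, map_add]
      ring
    rw [e1]
    calc ‖(ζ w ((1 - x0 * star x0) * (e * y)) - ζ 1 ((1 - x0 * star x0) * (e * y))) +
        (ζ w (x0 * (star x0 * e) * y) - ζ 1 (x0 * (star x0 * e) * y))‖
        ≤ ‖ζ w ((1 - x0 * star x0) * (e * y)) - ζ 1 ((1 - x0 * star x0) * (e * y))‖ +
          ‖ζ w (x0 * (star x0 * e) * y) - ζ 1 (x0 * (star x0 * e) * y)‖ := norm_add_le _ _
      _ ≤ ε / 2 * ‖e * y‖ + (C * (ε1 * ‖y‖) + C * (ε1 * ‖y‖)) := by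
          refine add_le_add hk ((norm_sub_le _ _).trans (add_le_add (hsmall w) (hsmall 1)))
      _ ≤ ε / 2 * ‖y‖ + (2 * C * ε1) * ‖y‖ := by
          have : ε / 2 * ‖e * y‖ ≤ ε / 2 * ‖y‖ := by gcongr
          linarith [this]
      _ ≤ ε / 2 * ‖y‖ + (ε / 2) * ‖y‖ := by gcongr
      _ = ε * ‖y‖ := by ring

/-- TASK C (equivariance) -/
theorem KL (Z : unitary A → (A →L[ℂ] ℂ)) (C : ℝ) (hZ : ∀ g, ‖Z g‖ ≤ C) (τ : A →L[ℂ] ℂ) (hτ : IsPT τ)
    (E W : Finset (unitary A)) (ε : ℝ) (hε : 0 < ε) :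
    ∃ Z2 ∈ convexHull ℝ (Set.range (fun (p : unitary A × unitary A) (g : unitary A) =>
        cju p.1 (Z (p.1 * g * p.2)))),
      ∃ e : A, 0 ≤ e ∧ e ≤ 1 ∧ (∀ u ∈ E, ‖(u : A) * e - e * (u : A)‖ ≤ ε) ∧ (τ (1 - e)).re ≤ ε ∧
        ∀ w ∈ W, ∀ y : A, ‖cju w (Z2 w) (e * y) - Z2 1 (e * y)‖ ≤ ε * ‖y‖ :=
  KL_of (fun E' ε' h' => tele E' ε' h') (fun N B ε' h' => close N B ε' h') Z C hZ τ hτ E W ε hε

end H504S
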