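import Pool.Agent.H504S.Defs

set_option autoImplicit false

namespace H504S

open H730HC Finset
open scoped ComplexConjugate ComplexOrder

universe u v

attribute [local instance] CStarAlgebra.spectralOrder CStarAlgebra.spectralOrderedRing

variable {A : Type u} [CStarAlgebra A]

theorem D_norm_one : ‖(1 : A)‖ ≤ 1 := by
  have h := CStarRing.norm_star_mul_self (x := (1 : A))
  rw [star_one, one_mul] at h
  have h0 := norm_nonneg (1 : A)
  by_contra hc
  push Not at hc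
  nlinarith

/-! ### positive functionals -/

theorem D_pos {σ : A →L[ℂ] ℂ} (hσ : IsPos σ) {a : A} (ha : 0 ≤ a) : 0 ≤ (σ a).re := by
  obtain ⟨b, rfl⟩ := CStarAlgebra.nonneg_iff_eq_star_mul_self.mp ha
  exact (Complex.le_def.1 (hσ b)).1

theorem D_mono {σ : A →L[ℂ] ℂ} (hσ : IsPos σ) {a b : A} (hab : a ≤ b) : (σ a).re ≤ (σ b).re := by
  have h := D_pos hσ (sub_nonneg.2 hab)
  rw [map_sub, Complex.sub_re] at h
  linarith

theorem D_sumpos (S : Finset (A →L[ℂ] ℂ)) (hS : ∀ σ ∈ S, IsPT σ) : IsPT (∑ σ ∈ S, σ) := by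
  refine ⟨fun x => ?_, fun x y => ?_⟩
  · rw [_root_.sum_apply]
    exact Finset.sum_nonneg fun σ hσ => (hS σ hσ).1 x
  · rw [_root_.sum_apply, _root_.sum_apply]
    exact Finset.sum_congr rfl fun σ hσ => (hS σ hσ).2 x y

theorem D_le_sum (S : Finset (A →L[ℂ] ℂ)) (hS : ∀ σ ∈ S, IsPT σ) {σ : A →L[ℂ] ℂ} (hσ : σ ∈ S)
    {a : A} (ha : 0 ≤ a) : (σ a).re ≤ ((∑ σ ∈ S, σ) a).re := by
  rw [_root_.sum_apply, Complex.re_sum]
  exact Finset.single_le_sum (f := fun σ : A →L[ℂ] ℂ => (σ a).re)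
    (fun σ hσ => D_pos (hS σ hσ).1 ha) hσ

/-- `τ ((1-e) x x* (1-e)) ≤ ‖x‖² τ (1-e)` -/
theorem D_cut {σ : A →L[ℂ] ℂ} (hσ : IsPos σ) {e : A} (he0 : 0 ≤ e) (he1 : e ≤ 1) (x : A) :
    (σ (((1 - e) * x) * star ((1 - e) * x))).re ≤ ‖x‖ ^ 2 * (σ (1 - e)).re := by
  have hq0 : 0 ≤ 1 - e := sub_nonneg.2 he1
  have hq1 : 1 - e ≤ 1 := sub_le_self _ he0
  have hqs : star (1 - e) = 1 - e := (IsSelfAdjoint.of_nonneg hq0).star_eq
  set q : A := 1 - e with hq
  have h1 : (q * x) * star (q * x) ≤ (‖x‖ ^ 2) • (q * q) := by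
    have := star_left_conjugate_le_conjugate (CStarAlgebra.mul_star_le_algebraMap_norm_sq (a := x)) q
    rw [hqs] at this
    have e1 : (q * x) * star (q * x) = q * (x * star x) * q := by
      rw [star_mul, hqs]; noncomm_ring
    rw [e1]
    refine this.trans (le_of_eq ?_)
    rw [Algebra.algebraMap_eq_smul_one, mul_smul_comm, mul_one, smul_mul_assoc]
  have h2 : q * q ≤ q := by
    obtain ⟨b, hb⟩ := CStarAlgebra.nonneg_iff_eq_star_mul_self.mp hq0
    have hbn : ‖b‖ ^ 2 ≤ 1 := by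
      have h3 : ‖q‖ ≤ 1 := by
        have := CStarAlgebra.norm_le_norm_of_nonneg_of_le hq0 hq1
        refine this.trans ?_
        exact D_norm_one
      rw [hb, CStarRing.norm_star_mul_self] at h3
      nlinarith
    have h4 := star_left_conjugate_le_conjugate (CStarAlgebra.mul_star_le_algebraMap_norm_sq (a := b)) b
    have e2 : q * q = star b * (b * star b) * b := by rw [hb]; noncomm_ring
    rw [e2]
    refine h4.trans ?_
    rw [Algebra.algebraMap_eq_smul_one, mul_smul_comm, mul_one, smul_mul_assoc, ← hb]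
    calc (‖b‖ ^ 2) • q ≤ (1 : ℝ) • q := smul_le_smul_of_nonneg_right hbn hq0
      _ = q := one_smul _ _
  have h5 : (q * x) * star (q * x) ≤ (‖x‖ ^ 2) • q :=
    h1.trans (smul_le_smul_of_nonneg_left h2 (by positivity))
  have h6 := D_mono hσ h5
  have h7 : σ ((‖x‖ ^ 2) • q) = ((‖x‖ ^ 2 : ℝ) : ℂ) * σ q := by
    rw [show (‖x‖ ^ 2) • q = ((‖x‖ ^ 2 : ℝ) : ℂ) • q from (Complex.coe_smul _ _).symm, map_smul, smul_eq_mul]
  rw [h7, Complex.re_ofReal_mul] at h6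
  exact h6

/-! ### convex combinations as means -/

theorem D_comb {I : Type v} {m1 m2 : (I → ℝ) → ℝ} (h1 : IsMean m1) (h2 : IsMean m2) {a b : ℝ}
    (ha : 0 ≤ a) (hb : 0 ≤ b) (hab : a + b = 1) : IsMean (fun f => a * m1 f + b * m2 f) where
  add f g hf hg := by
    show a * m1 (fun i => f i + g i) + b * m2 (fun i => f i + g i) = _
    rw [h1.add f g hf hg, h2.add f g hf hg]; ring
  smul c f hf := by
    show a * m1 (fun i => c * f i) + b * m2 (fun i => c * f i) = _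
    rw [h1.smul c f hf, h2.smul c f hf]; ring
  mono f g hf hg h := add_le_add (mul_le_mul_of_nonneg_left (h1.mono f g hf hg h) ha)
    (mul_le_mul_of_nonneg_left (h2.mono f g hf hg h) hb)
  const c := by
    show a * m1 (fun _ => c) + b * m2 (fun _ => c) = c
    rw [h1.const, h2.const, ← add_mul, hab, one_mul]

theorem D_cjn (w : unitary A) (φ : A →L[ℂ] ℂ) (C : ℝ) (h : ‖φ‖ ≤ C) : ‖cju w φ‖ ≤ C := by
  have hC : 0 ≤ C := (norm_nonneg _).trans h
  refine ContinuousLinearMap.opNorm_le_bound _ hC fun x => ?_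
  rw [cju_apply]
  have h1 : ‖(w : A) * x * star (w : A)‖ = ‖x‖ := by
    have e : star (w : A) = ((star w : unitary A) : A) := rfl
    rw [e, CStarRing.norm_mul_coe_unitary, CStarRing.norm_coe_unitary_mul]
  calc ‖φ ((w : A) * x * star (w : A))‖ ≤ ‖φ‖ * ‖(w : A) * x * star (w : A)‖ :=
        ContinuousLinearMap.le_opNorm _ _
    _ ≤ C * ‖x‖ := by rw [h1]; exact mul_le_mul_of_nonneg_right h (norm_nonneg _)

theorem D_hull {I : Type v} {G : Type u} (φ : I → G → (A →L[ℂ] ℂ)) (C : ℝ) (hφ : ∀ i g, ‖φ i g‖ ≤ C)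
    (z : G → (A →L[ℂ] ℂ)) (hz : z ∈ convexHull ℝ (Set.range φ)) :
    ∃ m : (I → ℝ) → ℝ, IsMean m ∧ ∀ g, EX m (fun i => φ i g) = z g := by
  have hsub : convexHull ℝ (Set.range φ) ⊆
      {z | ∃ m : (I → ℝ) → ℝ, IsMean m ∧ ∀ g, EX m (fun i => φ i g) = z g} := by
    apply convexHull_min
    · rintro _ ⟨i, rfl⟩
      have hm : IsMean (fun f : I → ℝ => f i) := T08_mean_point i
      refine ⟨fun f => f i, hm, fun g => ?_⟩
      ext x
      rw [R04_EX_eq hm _ ⟨C, fun j => hφ j g⟩]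
      rfl
    · rintro z1 ⟨m1, hm1, hz1⟩ z2 ⟨m2, hm2, hz2⟩ a b ha hb hab
      have hm := D_comb hm1 hm2 ha hb hab
      refine ⟨_, hm, fun g => ?_⟩
      ext x
      rw [R04_EX_eq hm _ ⟨C, fun j => hφ j g⟩]
      have e1 : (z1 g) x = R04_cm m1 (fun i => φ i g x) := by rw [← hz1 g]; exact R04_EX_eq hm1 _ ⟨C, fun j => hφ j g⟩ x
      have e2 : (z2 g) x = R04_cm m2 (fun i => φ i g x) := by rw [← hz2 g]; exact R04_EX_eq hm2 _ ⟨C, fun j => hφ j g⟩ x
      show _ = (a • z1 g + b • z2 g) x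
      rw [ContinuousLinearMap.add_apply, ContinuousLinearMap.smul_apply, ContinuousLinearMap.smul_apply, e1, e2]
      apply Complex.ext
      · simp [R04_cm]
      · simp [R04_cm]
  exact hsub hz

/-! ### limits of the means -/

theorem D_lim {I : Type v} {κ : Type v} (F : Ultrafilter κ) (m : κ → (I → ℝ) → ℝ)
    (hm : ∀ k, IsMean (m k)) (f : I → (A →L[ℂ] ℂ)) (C : ℝ) (hf : ∀ i, ‖f i‖ ≤ C) (x : A) :
    Filter.Tendsto (fun k => EX (m k) f x) (F : Filter κ)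
      (nhds (EX (fun g => ulim F (fun k => m k g)) f x)) := by
  have hM := ultra_isMean F m hm
  have hre := ultra_tendsto F m hm (fun i => (f i x).re) (R04_bre ⟨_, R04_bdx hf x⟩)
  have him := ultra_tendsto F m hm (fun i => (f i x).im) (R04_bim ⟨_, R04_bdx hf x⟩)
  rw [← ((EX_spec hM f C hf).1 x).1] at hre
  rw [← ((EX_spec hM f C hf).1 x).2] at him
  have h3 := (Complex.continuous_ofReal.tendsto _).comp hre
  have h4 := (Complex.continuous_ofReal.tendsto _).comp him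
  have h5 := h3.add (h4.mul_const Complex.I)
  rw [Complex.re_add_im] at h5
  refine h5.congr fun k => ?_
  show (((m k fun i => (f i x).re : ℝ)) : ℂ) + ((m k fun i => (f i x).im : ℝ) : ℂ) * Complex.I = _
  rw [← ((EX_spec (hm k) f C hf).1 x).1, ← ((EX_spec (hm k) f C hf).1 x).2, Complex.re_add_im]

theorem D_norm_cut {e : A} (he0 : 0 ≤ e) (he1 : e ≤ 1) : ‖e‖ ≤ 1 :=
  (CStarAlgebra.norm_le_norm_of_nonneg_of_le he0 he1).trans D_norm_one

theorem D_ran (φ : A →L[ℂ] ℂ) (C : ℝ) (h : ‖φ‖ ≤ C) (e : A) (he : ‖e‖ ≤ 1) : ‖ra φ e‖ ≤ C := by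
  have hC : 0 ≤ C := (norm_nonneg _).trans h
  refine ContinuousLinearMap.opNorm_le_bound _ hC fun x => ?_
  rw [R12_ra_apply]
  calc ‖φ (e * x)‖ ≤ ‖φ‖ * ‖e * x‖ := ContinuousLinearMap.le_opNorm _ _
    _ ≤ C * (1 * ‖x‖) := mul_le_mul h ((norm_mul_le _ _).trans
        (mul_le_mul_of_nonneg_right he (norm_nonneg _))) (norm_nonneg _) hC
    _ = C * ‖x‖ := by rw [one_mul]

/-- TASK D, from the statement `KL` of task C: `theorem GMf Z C hZ := GMf_of (fun Z C hZ τ hτ E W ε hε => KL Z C hZ τ hτ E W ε hε) Z C hZ` -/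
theorem GMf_of (hKL : ∀ (Z : unitary A → (A →L[ℂ] ℂ)) (C : ℝ), (∀ g, ‖Z g‖ ≤ C) → ∀ (τ : A →L[ℂ] ℂ), IsPT τ →
    ∀ (E W : Finset (unitary A)) (ε : ℝ), 0 < ε →
    ∃ Z2 ∈ convexHull ℝ (Set.range (fun (p : unitary A × unitary A) (g : unitary A) =>
        cju p.1 (Z (p.1 * g * p.2)))),
      ∃ e : A, 0 ≤ e ∧ e ≤ 1 ∧ (∀ u ∈ E, ‖(u : A) * e - e * (u : A)‖ ≤ ε) ∧ (τ (1 - e)).re ≤ ε ∧
        ∀ w ∈ W, ∀ y : A, ‖cju w (Z2 w) (e * y) - Z2 1 (e * y)‖ ≤ ε * ‖y‖)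
    (Z : unitary A → (A →L[ℂ] ℂ)) (C : ℝ) (hZ : ∀ g, ‖Z g‖ ≤ C) :
    ∃ m : (Ix A → ℝ) → ℝ, IsGM m ∧ (∀ φ : A →L[ℂ] ℂ, FT φ → EX m (fun i => ra φ i.2.1) = φ) ∧
      ∃ ζ : A →L[ℂ] ℂ, ∀ g : unitary A,
        EX m (fun i => ra (cju i.1.1 (Z (i.1.1 * g * i.1.2))) i.2.1) = cju g⁻¹ ζ := by
  classical
  have hC0 : 0 ≤ C := (norm_nonneg _).trans (hZ 1)
  -- finite level data
  have hex : ∀ κ : Finset (unitary A) × Finset (A →L[ℂ] ℂ) × ℕ,
      ∃ (m : (unitary A × unitary A → ℝ) → ℝ) (z : unitary A → (A →L[ℂ] ℂ)) (e : A), IsMean m ∧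
        (∀ g, EX m (fun p => cju p.1 (Z (p.1 * g * p.2))) = z g) ∧ 0 ≤ e ∧ e ≤ 1 ∧
        (∀ u ∈ κ.1, ‖(u : A) * e - e * (u : A)‖ ≤ 1 / ((κ.2.2 : ℝ) + 1)) ∧
        (∀ σ ∈ κ.2.1, IsPT σ → (σ (1 - e)).re ≤ 1 / ((κ.2.2 : ℝ) + 1)) ∧
        ∀ w ∈ κ.1, ∀ y : A, ‖cju w (z w) (e * y) - z 1 (e * y)‖ ≤ 1 / ((κ.2.2 : ℝ) + 1) * ‖y‖ := by
    intro κ
    have hS : ∀ σ ∈ κ.2.1.filter (fun σ => IsPT σ), IsPT σ := fun σ hσ => (Finset.mem_filter.1 hσ).2
    obtain ⟨z, hz, e, he0, he1, h1, h2, h3⟩ := hKL Z C hZ _ (D_sumpos _ hS) κ.1 κ.1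
      (1 / ((κ.2.2 : ℝ) + 1)) (by positivity)
    obtain ⟨m, hm, hmz⟩ := D_hull (fun (p : unitary A × unitary A) (g : unitary A) =>
        cju p.1 (Z (p.1 * g * p.2))) C (fun p g => D_cjn _ _ _ (hZ _)) z hz
    refine ⟨m, z, e, hm, hmz, he0, he1, h1, fun σ hσ hσT => ?_, h3⟩
    exact (D_le_sum _ hS (Finset.mem_filter.2 ⟨hσ, hσT⟩) (sub_nonneg.2 he1)).trans h2
  choose mk z e hmk hmz he0 he1 hcen htr heq using hex
  let mk' : (Finset (unitary A) × Finset (A →L[ℂ] ℂ) × ℕ) → (Ix A → ℝ) → ℝ := fun κ f =>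
    mk κ (fun p => f (p, ⟨e κ, he0 κ, he1 κ⟩))
  have hmk' : ∀ κ, IsMean (mk' κ) := fun κ =>
    T08_mean_pull (hmk κ) (fun p : unitary A × unitary A => ((p, ⟨e κ, he0 κ, he1 κ⟩) : Ix A))
  let F : Ultrafilter (Finset (unitary A) × Finset (A →L[ℂ] ℂ) × ℕ) := Ultrafilter.of Filter.atTop
  have hF : (F : Filter (Finset (unitary A) × Finset (A →L[ℂ] ℂ) × ℕ)) ≤ Filter.atTop :=
    Ultrafilter.of_le _
  have hM : IsMean (fun f => ulim F (fun k => mk' k f)) := ultra_isMean F mk' hmk'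
  have hsmall : ∀ ε : ℝ, 0 < ε → ∀ (E : Finset (unitary A)) (S : Finset (A →L[ℂ] ℂ)),
      ∀ᶠ κ in (F : Filter (Finset (unitary A) × Finset (A →L[ℂ] ℂ) × ℕ)),
        E ⊆ κ.1 ∧ S ⊆ κ.2.1 ∧ 1 / ((κ.2.2 : ℝ) + 1) ≤ ε := by
    intro ε hε E S
    obtain ⟨n, hn⟩ := exists_nat_one_div_lt hε
    apply hF
    filter_upwards [Filter.eventually_ge_atTop (E, S, n)] with κ hκ
    refine ⟨hκ.1, hκ.2.1, le_trans ?_ hn.le⟩
    apply one_div_le_one_div_of_le (by positivity)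
    have : (n : ℝ) ≤ κ.2.2 := by exact_mod_cast hκ.2.2
    linarith
  -- evaluation at the finite level
  have hev : ∀ (g : unitary A) κ (x : A),
      EX (mk' κ) (fun i => ra (cju i.1.1 (Z (i.1.1 * g * i.1.2))) i.2.1) x = z κ g (e κ * x) := by
    intro g κ x
    rw [R04_EX_eq (hmk' κ) _ ⟨C, fun i => D_ran _ _ (D_cjn _ _ _ (hZ _)) _
      (D_norm_cut i.2.2.1 i.2.2.2)⟩, ← hmz κ g, R04_EX_eq (hmk κ) _ ⟨C, fun i => D_cjn _ _ _ (hZ _)⟩]
    rfl
  have hzn : ∀ κ g, ‖z κ g‖ ≤ C := by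
    intro κ g
    rw [← hmz κ g]
    exact (EX_spec (hmk κ) _ C (fun i => D_cjn _ _ _ (hZ _))).2
  refine ⟨fun f => ulim F (fun k => mk' k f), ⟨hM, ?_⟩, ?_, ?_⟩
  · intro u
    have hB : Bdd (fun i : Ix A => ‖(u : A) * i.2.1 - i.2.1 * (u : A)‖) := by
      refine ⟨2, fun i => ?_⟩
      rw [abs_of_nonneg (norm_nonneg _)]
      refine (norm_sub_le _ _).trans ?_
      rw [CStarRing.norm_coe_unitary_mul, CStarRing.norm_mul_coe_unitary]
      have := D_norm_cut i.2.2.1 i.2.2.2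
      linarith
    have hlim := ultra_tendsto F mk' hmk' _ hB
    refine le_antisymm ?_ ?_
    · refine le_of_forall_pos_le_add fun ε hε => ?_
      rw [zero_add]
      refine le_of_tendsto hlim ?_
      filter_upwards [hsmall ε hε {u} ∅] with κ hκ
      show mk κ (fun _ => ‖(u : A) * e κ - e κ * (u : A)‖) ≤ ε
      rw [(hmk κ).const]
      exact (hcen κ u (hκ.1 (Finset.mem_singleton_self u))).trans hκ.2.2
    · refine ge_of_tendsto hlim (Filter.Eventually.of_forall fun κ => ?_)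
      show 0 ≤ mk κ (fun _ => ‖(u : A) * e κ - e κ * (u : A)‖)
      rw [(hmk κ).const]
      exact norm_nonneg _
  · intro φ hφ
    ext x
    have hlim := D_lim F mk' hmk' (fun i : Ix A => ra φ i.2.1) ‖φ‖
      (fun i => D_ran _ _ le_rfl _ (D_norm_cut i.2.2.1 i.2.2.2)) x
    have hval : ∀ κ, EX (mk' κ) (fun i : Ix A => ra φ i.2.1) x = φ (e κ * x) := by
      intro κ
      rw [R04_EX_eq (hmk' κ) _ ⟨‖φ‖, fun i => D_ran _ _ le_rfl _ (D_norm_cut i.2.2.1 i.2.2.2)⟩]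
      apply Complex.ext
      · show mk κ (fun _ => (φ (e κ * x)).re) = _
        exact (hmk κ).const _
      · show mk κ (fun _ => (φ (e κ * x)).im) = _
        exact (hmk κ).const _
    simp only [hval] at hlim
    have hlim2 := (hlim.sub_const (φ x)).norm
    rw [← sub_eq_zero, ← norm_le_zero_iff]
    have hkey : ∀ ε : ℝ, 0 < ε →
        ‖EX (fun g => ulim F (fun k => mk' k g)) (fun i : Ix A => ra φ i.2.1) x - φ x‖ ≤
          ‖x‖ * ε + ε * ‖x‖ := by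
      intro ε hε
      obtain ⟨τ, hτ, hτb⟩ := hφ ε hε
      refine le_of_tendsto hlim2 ?_
      filter_upwards [hsmall (ε ^ 2) (by positivity) ∅ {τ}] with κ hκ
      have h1 := hτb ((1 - e κ) * x)
      have h2 : φ (e κ * x) - φ x = - φ ((1 - e κ) * x) := by
        rw [← map_sub, ← map_neg]; congr 1; noncomm_ring
      rw [h2, norm_neg]
      refine h1.trans (add_le_add ?_ ?_)
      · have h3 := D_cut hτ.1 (he0 κ) (he1 κ) x
        have h4 := (htr κ τ (hκ.2.1 (Finset.mem_singleton_self τ)) hτ).trans hκ.2.2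
        refine Real.sqrt_le_iff.2 ⟨by positivity, h3.trans ?_⟩
        rw [mul_pow]
        exact mul_le_mul_of_nonneg_left h4 (by positivity)
      · refine mul_le_mul_of_nonneg_left ((norm_mul_le _ _).trans ?_) hε.le
        have : ‖1 - e κ‖ ≤ 1 := D_norm_cut (sub_nonneg.2 (he1 κ)) (sub_le_self _ (he0 κ))
        calc ‖1 - e κ‖ * ‖x‖ ≤ 1 * ‖x‖ := mul_le_mul_of_nonneg_right this (norm_nonneg _)
          _ = ‖x‖ := one_mul _
    refine le_of_forall_pos_le_add fun δ hδ => ?_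
    have h5 := hkey (δ / (2 * (‖x‖ + 1))) (by positivity)
    refine h5.trans ?_
    rw [zero_add]
    have h6 : ‖x‖ * (δ / (2 * (‖x‖ + 1))) + δ / (2 * (‖x‖ + 1)) * ‖x‖ = δ * (‖x‖ / (‖x‖ + 1)) := by
      field_simp
      ring
    rw [h6]
    have h7 : ‖x‖ / (‖x‖ + 1) ≤ 1 := by
      rw [div_le_one (by positivity)]; linarith
    nlinarith
  · refine ⟨EX (fun f => ulim F (fun k => mk' k f))
      (fun i => ra (cju i.1.1 (Z (i.1.1 * 1 * i.1.2))) i.2.1), fun g => ?_⟩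
    ext x
    have hfb : ∀ (g : unitary A) (i : Ix A), ‖ra (cju i.1.1 (Z (i.1.1 * g * i.1.2))) i.2.1‖ ≤ C :=
      fun g i => D_ran _ _ (D_cjn _ _ _ (hZ _)) _ (D_norm_cut i.2.2.1 i.2.2.2)
    have hl1 := D_lim F mk' hmk' _ C (hfb g) x
    have hl2 := D_lim F mk' hmk' _ C (hfb 1) (((g⁻¹ : unitary A) : A) * x * star ((g⁻¹ : unitary A) : A))
    rw [cju_apply]
    simp only [hev] at hl1 hl2
    have hl := (hl1.sub hl2).norm
    rw [← sub_eq_zero, ← norm_le_zero_iff]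
    refine le_of_forall_pos_le_add fun δ hδ => ?_
    rw [zero_add]
    refine le_of_tendsto hl ?_
    filter_upwards [hsmall (δ / ((C + 1) * (‖x‖ + 1))) (by positivity) {g} ∅] with κ hκ
    have hgi : ((g⁻¹ : unitary A) : A) = star (g : A) := rfl
    have hgs : star ((g⁻¹ : unitary A) : A) = (g : A) := by rw [hgi, star_star]
    rw [hgs, hgi]
    have hgg : (g : A) * star (g : A) = 1 := Unitary.coe_mul_star_self g
    have hgg' : star (g : A) * (g : A) = 1 := Unitary.coe_star_mul_self g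
    set y : A := star (g : A) * x * (g : A) with hy
    have hyn : ‖y‖ = ‖x‖ := by
      rw [hy, ← hgi, CStarRing.norm_mul_coe_unitary, CStarRing.norm_coe_unitary_mul]
    have h1 := heq κ g (hκ.1 (Finset.mem_singleton_self g)) y
    have h2 := hcen κ g (hκ.1 (Finset.mem_singleton_self g))
    rw [cju_apply] at h1
    have e1 : (g : A) * (e κ * y) * star (g : A) = (g : A) * e κ * star (g : A) * x := by
      rw [hy]
      calc (g : A) * (e κ * (star (g : A) * x * (g : A))) * star (g : A)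
          = (g : A) * e κ * star (g : A) * x * ((g : A) * star (g : A)) := by simp only [mul_assoc]
        _ = (g : A) * e κ * star (g : A) * x := by rw [hgg, mul_one]
    rw [e1] at h1
    have h3 : ‖z κ g (e κ * x) - z κ g ((g : A) * e κ * star (g : A) * x)‖ ≤
        C * (1 / ((κ.2.2 : ℝ) + 1) * ‖x‖) := by
      rw [← map_sub]
      have e2 : e κ * x - (g : A) * e κ * star (g : A) * x =
          -(((g : A) * e κ - e κ * (g : A)) * (star (g : A) * x)) := by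
        calc e κ * x - (g : A) * e κ * star (g : A) * x
            = e κ * ((g : A) * star (g : A)) * x - (g : A) * e κ * star (g : A) * x := by
              rw [hgg, mul_one]
          _ = _ := by noncomm_ring
      rw [e2]
      calc ‖z κ g (-(((g : A) * e κ - e κ * (g : A)) * (star (g : A) * x)))‖
          ≤ ‖z κ g‖ * ‖-(((g : A) * e κ - e κ * (g : A)) * (star (g : A) * x))‖ :=
            ContinuousLinearMap.le_opNorm _ _
        _ ≤ C * (1 / ((κ.2.2 : ℝ) + 1) * ‖x‖) := by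
          refine mul_le_mul (hzn κ g) ?_ (norm_nonneg _) hC0
          rw [norm_neg]
          refine (norm_mul_le _ _).trans ?_
          rw [← hgi, CStarRing.norm_coe_unitary_mul]
          exact mul_le_mul_of_nonneg_right h2 (norm_nonneg _)
    have h4 : ‖z κ g (e κ * x) - z κ 1 (e κ * y)‖ ≤
        C * (1 / ((κ.2.2 : ℝ) + 1) * ‖x‖) + 1 / ((κ.2.2 : ℝ) + 1) * ‖x‖ := by
      have e3 : z κ g (e κ * x) - z κ 1 (e κ * y) =
          (z κ g (e κ * x) - z κ g ((g : A) * e κ * star (g : A) * x)) +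
            (z κ g ((g : A) * e κ * star (g : A) * x) - z κ 1 (e κ * y)) := by ring
      rw [e3]
      refine (norm_add_le _ _).trans (add_le_add h3 ?_)
      rw [← hyn]; exact h1
    refine h4.trans ?_
    have h5 := hκ.2.2
    have h6 : C * (1 / ((κ.2.2 : ℝ) + 1) * ‖x‖) + 1 / ((κ.2.2 : ℝ) + 1) * ‖x‖ =
        1 / ((κ.2.2 : ℝ) + 1) * ((C + 1) * ‖x‖) := by ring
    rw [h6]
    calc 1 / ((κ.2.2 : ℝ) + 1) * ((C + 1) * ‖x‖)
        ≤ δ / ((C + 1) * (‖x‖ + 1)) * ((C + 1) * ‖x‖) :=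
          mul_le_mul_of_nonneg_right h5 (by positivity)
      _ ≤ δ / ((C + 1) * (‖x‖ + 1)) * ((C + 1) * (‖x‖ + 1)) := by
          refine mul_le_mul_of_nonneg_left ?_ (by positivity)
          refine mul_le_mul_of_nonneg_left ?_ (by positivity)
          linarith
      _ = δ := by field_simp

end H504S
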