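import Pool.Agent.H504S.Defs
import Pool.Agent.H730R3.HD.R16
import Pool.Agent.H730R3.HD.R17
import Pool.Agent.H730R3.HD.R31

/-! Task E: from generalised means to sums of faces. -/

set_option autoImplicit false

namespace H504S

open H730HC Finset
open scoped ComplexConjugate ComplexOrder

universe u v

attribute [local instance] CStarAlgebra.spectralOrder CStarAlgebra.spectralOrderedRing

variable {A : Type u} [CStarAlgebra A]

theorem E_norm (e : Bl A) : ‖(e.1 : A)‖ ≤ 1 :=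
  (CStarAlgebra.norm_le_one_iff_of_nonneg e.1 e.2.1).2 e.2.2

/-- two bounded families which are close on average have the same mean -/
theorem E_eq {I : Type v} {m : (I → ℝ) → ℝ} (hm : IsMean m) (f g : I → (A →L[ℂ] ℂ)) (C : ℝ)
    (hf : ∀ i, ‖f i‖ ≤ C) (hg : ∀ i, ‖g i‖ ≤ C) (δ : I → ℝ) (hδ : Bdd δ) (K : ℝ)
    (hfg : ∀ i, ‖f i - g i‖ ≤ K * δ i) (h0 : m δ = 0) : EX m f = EX m g := by
  have key : ∀ (x : A) (F : ℂ → ℝ), (∀ z w : ℂ, F z - F w ≤ ‖z - w‖) → (∀ z, |F z| ≤ ‖z‖) →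
      m (fun i => F (f i x)) ≤ m (fun i => F (g i x)) := by
    intro x F hF hF2
    have hbf : Bdd (fun i => F (f i x)) := ⟨C * ‖x‖, fun i => (hF2 _).trans (R04_bdx hf x i)⟩
    have hbg : Bdd (fun i => F (g i x)) := ⟨C * ‖x‖, fun i => (hF2 _).trans (R04_bdx hg x i)⟩
    have hbd : Bdd (fun i => (K * ‖x‖) * δ i) := R04_bmul _ hδ
    have hb2 : Bdd (fun i => F (g i x) + (K * ‖x‖) * δ i) := by
      obtain ⟨c1, h1⟩ := hbg
      obtain ⟨c2, h2⟩ := hbd
      exact ⟨c1 + c2, fun i => (abs_add_le _ _).trans (add_le_add (h1 i) (h2 i))⟩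
    have h1 : m (fun i => F (f i x)) ≤ m (fun i => F (g i x) + (K * ‖x‖) * δ i) := by
      refine hm.mono _ _ hbf hb2 fun i => ?_
      have h2 := hF (f i x) (g i x)
      have h3 : ‖f i x - g i x‖ ≤ K * δ i * ‖x‖ := by
        have h4 : f i x - g i x = (f i - g i) x := by rw [_root_.sub_apply]
        rw [h4]
        exact ((f i - g i).le_opNorm x).trans (mul_le_mul_of_nonneg_right (hfg i) (norm_nonneg _))
      nlinarith
    rw [hm.add _ _ hbg hbd, hm.smul _ _ hδ, h0, mul_zero, add_zero] at h1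
    exact h1
  have key2 : ∀ (x : A) (F : ℂ → ℝ), (∀ z w : ℂ, F z - F w ≤ ‖z - w‖) → (∀ z, |F z| ≤ ‖z‖) →
      m (fun i => F (g i x)) ≤ m (fun i => F (f i x)) := by
    intro x F hF hF2
    have hbf : Bdd (fun i => F (f i x)) := ⟨C * ‖x‖, fun i => (hF2 _).trans (R04_bdx hf x i)⟩
    have hbg : Bdd (fun i => F (g i x)) := ⟨C * ‖x‖, fun i => (hF2 _).trans (R04_bdx hg x i)⟩
    have hbd : Bdd (fun i => (K * ‖x‖) * δ i) := R04_bmul _ hδ
    have hb2 : Bdd (fun i => F (f i x) + (K * ‖x‖) * δ i) := by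
      obtain ⟨c1, h1⟩ := hbf
      obtain ⟨c2, h2⟩ := hbd
      exact ⟨c1 + c2, fun i => (abs_add_le _ _).trans (add_le_add (h1 i) (h2 i))⟩
    have h1 : m (fun i => F (g i x)) ≤ m (fun i => F (f i x) + (K * ‖x‖) * δ i) := by
      refine hm.mono _ _ hbg hb2 fun i => ?_
      have h2 := hF (g i x) (f i x)
      have h3 : ‖g i x - f i x‖ ≤ K * δ i * ‖x‖ := by
        have h4 : g i x - f i x = -((f i - g i) x) := by rw [_root_.sub_apply]; ring
        rw [h4, norm_neg]
        exact ((f i - g i).le_opNorm x).trans (mul_le_mul_of_nonneg_right (hfg i) (norm_nonneg _))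
      nlinarith
    rw [hm.add _ _ hbf hbd, hm.smul _ _ hδ, h0, mul_zero, add_zero] at h1
    exact h1
  have r1 : ∀ z w : ℂ, z.re - w.re ≤ ‖z - w‖ := fun z w => by
    rw [← Complex.sub_re]; exact Complex.re_le_norm _
  have r2 : ∀ z w : ℂ, z.im - w.im ≤ ‖z - w‖ := fun z w => by
    rw [← Complex.sub_im]; exact Complex.im_le_norm _
  ext x
  obtain ⟨hf1, -⟩ := EX_spec hm f C hf
  obtain ⟨hg1, -⟩ := EX_spec hm g C hg
  apply Complex.ext
  · rw [(hf1 x).1, (hg1 x).1]
    exact le_antisymm (key x Complex.re r1 Complex.abs_re_le_norm) (key2 x Complex.re r1 Complex.abs_re_le_norm)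
  · rw [(hf1 x).2, (hg1 x).2]
    exact le_antisymm (key x Complex.im r2 Complex.abs_im_le_norm) (key2 x Complex.im r2 Complex.abs_im_le_norm)

/-- a unitary can be moved through the cut-down -/
theorem E_comm {m : (Ix A → ℝ) → ℝ} (hm : IsGM m) (f : Ix A → (A →L[ℂ] ℂ)) (C : ℝ)
    (hf : ∀ i, ‖f i‖ ≤ C) (u : unitary A) :
    EX m (fun i => ra (ra (f i) (u : A)) i.2.1) = ra (EX m (fun i => ra (f i) i.2.1)) (u : A) := by
  by_cases hI : Nonempty (Ix A)
  swap
  · exact absurd ⟨((1, 1), ⟨0, le_rfl, zero_le_one⟩)⟩ hI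
  obtain ⟨i0⟩ := hI
  have hC : 0 ≤ C := (norm_nonneg _).trans (hf i0)
  have hu : ‖(u : A)‖ ≤ 1 := R16_uni u
  have hb : ∀ i, ‖ra (f i) i.2.1‖ ≤ C := fun i => R17_ra_norm _ _ (E_norm i.2) hC (hf i)
  rw [← EX_ra hm.1 (u : A) _ ⟨C, hb⟩]
  refine E_eq hm.1 _ _ C
    (fun i => R17_ra_norm _ _ (E_norm i.2) hC (R17_ra_norm _ _ hu hC (hf i)))
    (fun i => R17_ra_norm _ _ hu hC (hb i)) (fun i => ‖(u : A) * i.2.1 - i.2.1 * (u : A)‖)
    ⟨2, fun i => ?_⟩ C (fun i => ?_) (hm.2 u)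
  · rw [abs_norm]
    have h1 := norm_sub_le ((u : A) * i.2.1) (i.2.1 * (u : A))
    have h2 := norm_mul_le (u : A) i.2.1
    have h3 := norm_mul_le i.2.1 (u : A)
    have h4 := E_norm i.2
    have h5 := norm_nonneg (u : A)
    have h6 := norm_nonneg (i.2.1 : A)
    nlinarith
  · have e1 : ra (ra (f i) (u : A)) i.2.1 - ra (ra (f i) i.2.1) (u : A) =
        ra (f i) ((u : A) * i.2.1 - i.2.1 * (u : A)) := by
      ext x
      show f i ((u : A) * (i.2.1 * x)) - f i (i.2.1 * ((u : A) * x)) =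
        f i (((u : A) * i.2.1 - i.2.1 * (u : A)) * x)
      rw [sub_mul, map_sub, mul_assoc, mul_assoc]
    rw [e1]
    exact (R16_ra_norm _ _).trans (mul_le_mul_of_nonneg_right (hf i) (norm_nonneg _))

theorem E_face {m : (Ix A → ℝ) → ℝ} (hm : IsGM m) (f : Ix A → (ℕ → A) → (A →L[ℂ] ℂ))
    (hf : ∀ a : ℕ → A, ∃ D : ℝ, ∀ i, ‖f i a‖ ≤ D) (n k : ℕ) (X : ℕ → A) (u : unitary A)
    (hX : X n = (u : A)) :
    EX m (fun p => ra (fX n k (f p) X) p.2.1) =
      fX n k (fun Y => EX m (fun p => ra (f p Y) p.2.1)) X := by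
  have hb : ∀ a : ℕ → A, ∃ D : ℝ, ∀ i, ‖ra (f i a) i.2.1‖ ≤ D := by
    intro a
    obtain ⟨D, hD⟩ := hf a
    have i0 : Ix A := ((1, 1), ⟨0, le_rfl, zero_le_one⟩)
    have hD0 : 0 ≤ D := (norm_nonneg _).trans (hD i0)
    exact ⟨D, fun i => R17_ra_norm _ _ (E_norm i.2) hD0 (hD i)⟩
  unfold fX
  by_cases h0 : k = 0
  · simp only [if_pos h0]
    rw [← EX_la hm.1 _ _ (hb _)]
    simp only [R12_ra_la]
  · by_cases h1 : k ≤ n
    · simp only [if_neg h0, if_pos h1]
    · simp only [if_neg h0, if_neg h1]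
      obtain ⟨D, hD⟩ := hf X
      rw [hX]
      exact E_comm hm (fun p => f p X) D hD u

theorem E_shift (x y : A) : shift (alt x y) = alt y x := by
  funext k
  unfold shift alt
  by_cases hk : Even k
  · rw [if_pos hk, if_neg (by rw [Nat.not_even_iff_odd]; exact hk.add_one)]
  · rw [if_neg hk, if_pos (by rw [Nat.not_even_iff_odd] at hk; exact hk.add_one)]

theorem E_pr : ∀ (n : ℕ) (x y : A), x * y = 1 → y * x = 1 →
    pr n (alt x y) = if Even n then 1 else x := by
  intro n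
  induction n with
  | zero => intro x y _ _; rw [if_pos (by decide)]; rfl
  | succ n ih =>
    intro x y hxy hyx
    show alt x y 0 * pr n (shift (alt x y)) = _
    rw [E_shift, ih y x hyx hxy]
    have h0 : alt x y 0 = x := by unfold alt; rw [if_pos (by decide)]
    rw [h0]
    by_cases hn : Even n
    · rw [if_pos hn, if_neg (by rw [Nat.not_even_iff_odd]; exact hn.add_one), mul_one]
    · rw [if_neg hn, if_pos (by rw [Nat.not_even_iff_odd] at hn; exact hn.add_one), hxy]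

theorem good_of (n : ℕ) (F : (ℕ → A) → (A →L[ℂ] ℂ)) (hF : IsB (n + 1) F)
    (hc : ∀ a, dX (n + 1) F a = 0)
    (hGM : ∀ (Z : unitary A → (A →L[ℂ] ℂ)) (C : ℝ), (∀ g, ‖Z g‖ ≤ C) →
      ∃ m : (Ix A → ℝ) → ℝ, IsGM m ∧ (∀ X, EX m (fun i => ra (F X) i.2.1) = F X) ∧
        ∃ ζ : A →L[ℂ] ℂ, ∀ g : unitary A,
          EX m (fun i => ra (cju i.1.1 (Z (i.1.1 * g * i.1.2))) i.2.1) = cju g⁻¹ ζ) :
    Good n F := by
  obtain ⟨C, hC, hb⟩ := hF.bd
  have hU : R16_U C (n + 1) F := ⟨hF, hb⟩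
  have h1 : ‖(1 : A)‖ ≤ 1 := R16_one
  have hu : ∀ u : unitary A, ‖(u : A)‖ ≤ 1 := fun u => R16_uni u
  have hu' : ∀ u : unitary A, ‖star (u : A)‖ ≤ 1 := fun u => by rw [norm_star]; exact hu u
  have hB := R17_bound n F C hC hb
  -- the auxiliary family
  obtain ⟨Z, hZ⟩ : ∃ Z : unitary A → (A →L[ℂ] ℂ), Z = fun g : unitary A =>
    if Even (n + 1) then F (al (g : A)) else ra (F (al (g : A))) (star (g : A)) := ⟨_, rfl⟩
  have hZb : ∀ g, ‖Z g‖ ≤ C := by
    intro g
    rw [hZ]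
    show ‖(if Even (n + 1) then F (al (g : A)) else ra (F (al (g : A))) (star (g : A)))‖ ≤ C
    split_ifs
    · exact hB g
    · exact R17_ra_norm _ _ (hu' g) hC (hB g)
  obtain ⟨m, hm, hmF, ζ, hζ⟩ := hGM Z C hZb
  obtain ⟨s, hs⟩ : ∃ s : Ix A → ℕ → A, s = fun p => alt (star (p.1.1 : A)) (p.1.2 : A) := ⟨_, rfl⟩
  obtain ⟨t, ht⟩ : ∃ t : Ix A → ℕ → A, t = fun p => alt (p.1.1 : A) (star (p.1.2 : A)) := ⟨_, rfl⟩
  have hs1 : ∀ p k, ‖s p k‖ ≤ 1 := fun p k => by rw [hs]; exact R16_alt (hu' _) (hu _) k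
  have ht1 : ∀ p k, ‖t p k‖ ≤ 1 := fun p k => by rw [ht]; exact R16_alt (hu _) (hu' _) k
  have hst : ∀ p k, s p k * t p k = 1 := by
    intro p k
    rw [hs, ht]
    simp only [alt]
    split_ifs
    · exact Unitary.coe_star_mul_self p.1.1
    · exact Unitary.coe_mul_star_self p.1.2
  have hcj : ∀ p, R16_U C (n + 1) (cjX (n + 1) (s p) (t p) F) := fun p =>
    R16_lr hC (R16_two hC hU (t p) (fun k => s p (k + 1)) (ht1 p) (fun k => hs1 p _)) _ _
      (hs1 p 0) (ht1 p (n + 1))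
  have hPr : ∀ i p, R16_U ((n + 1) * C) n (PrX (n + 1) (om i (s p)) (om i (t p)) F) := fun i p =>
    R16_Pr hC hU _ _ (fun k => R16_om (hs1 p) i k) (fun k => R16_om (ht1 p) i k) h1
  have hC' : 0 ≤ ((n : ℝ) + 1) * C := by positivity
  have hPre : ∀ i (p : Ix A), R16_U ((n + 1) * C) n
      (fun X => ra (PrX (n + 1) (om i (s p)) (om i (t p)) F X) p.2.1) := by
    intro i p
    have h2 := R16_lr hC' (hPr i p) 1 p.2.1 h1 (E_norm p.2)
    simp only [R16_la_one] at h2
    exact h2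
  have hP : ∀ i, IsB n (fun X => EX m (fun p : Ix A =>
      ra (PrX (n + 1) (om i (s p)) (om i (t p)) F X) p.2.1)) :=
    fun i => R16_avg hm.1 hC' (fun p : Ix A => fun X =>
      ra (PrX (n + 1) (om i (s p)) (om i (t p)) F X) p.2.1) (hPre i)
  obtain ⟨P, hPd⟩ : ∃ P : ℕ → (ℕ → A) → (A →L[ℂ] ℂ), P = fun i X => EX m (fun p : Ix A =>
      ra (PrX (n + 1) (om i (s p)) (om i (t p)) F X) p.2.1) := ⟨_, rfl⟩
  have hPB : ∀ i, IsB n (P i) := fun i => by rw [hPd]; exact hP i
  -- the averaged prism identity on `al g`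
  have main : ∀ g : unitary A, EX m (fun p : Ix A => ra (cjX (n + 1) (s p) (t p) F (al (g : A))) p.2.1) =
      F (al (g : A)) + ∑ i ∈ range (n + 2), ((-1 : ℂ) ^ i) • fX n i (P i) (al (g : A)) := by
    intro g
    obtain ⟨X, hX⟩ : ∃ X : ℕ → A, X = al (g : A) := ⟨_, rfl⟩
    obtain ⟨u, hXu⟩ : ∃ u : unitary A, X n = (u : A) := by
      rw [hX]
      unfold al alt
      by_cases hn : Even n
      · exact ⟨g, by rw [if_pos hn]⟩
      · exact ⟨star g, by rw [if_neg hn]; rfl⟩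
    rw [← hX]
    have hface : ∀ i, ∃ D : ℝ, ∀ p : Ix A,
        ‖ra (fX n i (PrX (n + 1) (om i (s p)) (om i (t p)) F) X) p.2.1‖ ≤ D := by
      intro i
      refine ⟨‖X 0‖ * (((n + 1) * C) * ∏ k ∈ range n, ‖shift X k‖) +
        ((n + 1) * C) * ∏ k ∈ range n, ‖mu (i - 1) X k‖ +
        (((n + 1) * C) * ∏ k ∈ range n, ‖X k‖) * ‖X n‖, fun p => ?_⟩
      have hfp : ‖fX n i (PrX (n + 1) (om i (s p)) (om i (t p)) F) X‖ ≤
        ‖X 0‖ * (((n + 1) * C) * ∏ k ∈ range n, ‖shift X k‖) +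
        ((n + 1) * C) * ∏ k ∈ range n, ‖mu (i - 1) X k‖ +
        (((n + 1) * C) * ∏ k ∈ range n, ‖X k‖) * ‖X n‖ := by
        refine (R16_face_bd _ n i X).trans ?_
        have b1 := (hPr i p).2 (shift X)
        have b2 := (hPr i p).2 (mu (i - 1) X)
        have b3 := (hPr i p).2 X
        have c1 := mul_le_mul_of_nonneg_left b1 (norm_nonneg (X 0))
        have c3 := mul_le_mul_of_nonneg_right b3 (norm_nonneg (X n))
        linarith
      exact R17_ra_norm _ _ (E_norm p.2) ((norm_nonneg _).trans hfp) hfp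
    have hpr : ∀ p : Ix A, ra (cjX (n + 1) (s p) (t p) F X) p.2.1 = ra (F X) p.2.1 +
        ∑ i ∈ range (n + 2), ((-1 : ℂ) ^ i) •
        ra (fX n i (PrX (n + 1) (om i (s p)) (om i (t p)) F) X) p.2.1 := by
      intro p
      have h := prism_X n (s p) (t p) (hst p) F hF.dep hc X
      have h2 : cjX (n + 1) (s p) (t p) F X = F X + ∑ i ∈ range (n + 2), ((-1 : ℂ) ^ i) •
          fX n i (PrX (n + 1) (om i (s p)) (om i (t p)) F) X := by
        rw [← h]; abel
      rw [h2, R16_ra_add, R12_ra_sum]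
    have e2 : (fun p : Ix A => ra (cjX (n + 1) (s p) (t p) F X) p.2.1) = fun p : Ix A => ra (F X) p.2.1 +
        ∑ i ∈ range (n + 2), ((-1 : ℂ) ^ i) •
        ra (fX n i (PrX (n + 1) (om i (s p)) (om i (t p)) F) X) p.2.1 := funext hpr
    have hsumb : ∀ i ∈ range (n + 2), ∃ D : ℝ, ∀ p : Ix A, ‖((-1 : ℂ) ^ i) •
        ra (fX n i (PrX (n + 1) (om i (s p)) (om i (t p)) F) X) p.2.1‖ ≤ D := by
      intro i _
      obtain ⟨D, hD⟩ := hface i
      refine ⟨D, fun p => ?_⟩
      rw [norm_smul, norm_pow, norm_neg, norm_one, one_pow, one_mul]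
      exact hD p
    rw [e2, EX_add hm.1 (fun p : Ix A => ra (F X) p.2.1) (fun p : Ix A => ∑ i ∈ range (n + 2), ((-1 : ℂ) ^ i) •
        ra (fX n i (PrX (n + 1) (om i (s p)) (om i (t p)) F) X) p.2.1)
        ⟨‖F X‖, fun p => R17_ra_norm _ _ (E_norm p.2) (norm_nonneg _) le_rfl⟩
        (R04_bdd_sum (range (n + 2)) (fun i (p : Ix A) => ((-1 : ℂ) ^ i) •
        ra (fX n i (PrX (n + 1) (om i (s p)) (om i (t p)) F) X) p.2.1) hsumb), hmF,
      EX_sum hm.1 (range (n + 2)) (fun i (p : Ix A) => ((-1 : ℂ) ^ i) •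
        ra (fX n i (PrX (n + 1) (om i (s p)) (om i (t p)) F) X) p.2.1) hsumb]
    congr 1
    refine Finset.sum_congr rfl fun i _ => ?_
    rw [EX_smul hm.1 _ _ (hface i), E_face hm
      (fun p => PrX (n + 1) (om i (s p)) (om i (t p)) F) (fun a => ⟨_, fun p => (hPr i p).2 a⟩) n i X u hXu,
      hPd]
  -- the conjugated term
  have hseq : ∀ (p : Ix A) (g : unitary A),
      (fun k => t p k * al (g : A) k * s p (k + 1)) = al ((p.1.1 * g * p.1.2 : unitary A) : A) := by
    intro p g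
    rw [hs, ht]
    exact sm_cochain_seq (p.1.1 : A) (g : A) (p.1.2 : A)
  have hs0 : ∀ p : Ix A, s p 0 = star (p.1.1 : A) := fun p => by
    rw [hs]; show alt _ _ 0 = _; unfold alt; rw [if_pos (by decide)]
  have hconj : ∀ g : unitary A, EX m (fun p : Ix A => ra (cjX (n + 1) (s p) (t p) F (al (g : A))) p.2.1) =
      fX n 0 (fun Y => ra ζ (pr n Y)) (al (g : A)) := by
    intro g
    have hinv : ((g⁻¹ : unitary A) : A) = star (g : A) := rfl
    have hshift : shift (al (g : A)) = alt (star (g : A)) (g : A) := E_shift _ _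
    have h0 : al (g : A) 0 = (g : A) := by unfold al alt; rw [if_pos (by decide)]
    have hR : fX n 0 (fun Y => ra ζ (pr n Y)) (al (g : A)) =
        la (g : A) (ra ζ (if Even n then 1 else star (g : A))) := by
      unfold fX
      rw [if_pos rfl, h0]
      show la (g : A) (ra ζ (pr n (shift (al (g : A))))) = _
      rw [hshift, E_pr n _ _ (Unitary.coe_star_mul_self g) (Unitary.coe_mul_star_self g)]
    rw [hR]
    by_cases he : Even (n + 1)
    · have hn : ¬ Even n := by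
        intro h
        exact (Nat.not_even_iff_odd.2 h.add_one) he
      have key : (fun p : Ix A => ra (cjX (n + 1) (s p) (t p) F (al (g : A))) p.2.1)
          = fun p => ra (cju p.1.1 (Z (p.1.1 * g * p.1.2))) p.2.1 := by
        funext p
        unfold cjX
        have ht0 : t p (n + 1) = (p.1.1 : A) := by
          rw [ht]; show alt _ _ (n + 1) = _; unfold alt; rw [if_pos he]
        rw [hseq p g, hs0 p, ht0, hZ]
        simp only [if_pos he]
        rfl
      rw [key, hζ g, if_neg hn]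
      ext x
      show ζ (((g⁻¹ : unitary A) : A) * x * star ((g⁻¹ : unitary A) : A)) = ζ (star (g : A) * (x * (g : A)))
      rw [hinv, star_star, mul_assoc]
    · have hn : Even n := by
        by_contra h
        rw [Nat.not_even_iff_odd] at h
        exact he h.add_one
      have key : ∀ p : Ix A, cjX (n + 1) (s p) (t p) F (al (g : A)) =
          ra (cju p.1.1 (Z (p.1.1 * g * p.1.2))) (g : A) := by
        intro p
        unfold cjX
        have ht0 : t p (n + 1) = star (p.1.2 : A) := by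
          rw [ht]; show alt _ _ (n + 1) = _; unfold alt; rw [if_neg he]
        rw [hseq p g, hs0 p, ht0, hZ]
        simp only [if_neg he]
        ext x
        show F (al ((p.1.1 * g * p.1.2 : unitary A) : A)) (star (p.1.2 : A) * x * star (p.1.1 : A)) =
          F (al ((p.1.1 * g * p.1.2 : unitary A) : A)) (star ((p.1.1 : A) * (g : A) * (p.1.2 : A)) *
            ((p.1.1 : A) * ((g : A) * x) * star (p.1.1 : A)))
        congr 1
        have a1 : star (p.1.1 : A) * (p.1.1 : A) = 1 := Unitary.coe_star_mul_self p.1.1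
        have a2 : star (g : A) * (g : A) = 1 := Unitary.coe_star_mul_self g
        calc star (p.1.2 : A) * x * star (p.1.1 : A)
            = star (p.1.2 : A) * (star (g : A) * (star (p.1.1 : A) * (p.1.1 : A)) * (g : A)) * x *
              star (p.1.1 : A) := by rw [a1, mul_one, a2, mul_one]
          _ = _ := by rw [star_mul, star_mul]; noncomm_ring
      have hcb : ∀ p : Ix A, ‖cju p.1.1 (Z (p.1.1 * g * p.1.2))‖ ≤ C := fun p =>
        R17_ra_norm _ _ (hu _) hC (R17_la_norm _ _ (hu' _) hC (hZb _))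
      have e1 : (fun p : Ix A => ra (cjX (n + 1) (s p) (t p) F (al (g : A))) p.2.1) =
          fun p => ra (ra (cju p.1.1 (Z (p.1.1 * g * p.1.2))) (g : A)) p.2.1 :=
        funext fun p => by rw [key p]
      rw [e1, E_comm hm (fun p => cju p.1.1 (Z (p.1.1 * g * p.1.2))) C hcb g, hζ g, if_pos hn]
      ext x
      show ζ (((g⁻¹ : unitary A) : A) * ((g : A) * x) * star ((g⁻¹ : unitary A) : A)) = ζ (1 * (x * (g : A)))
      rw [hinv, star_star, ← mul_assoc, Unitary.coe_star_mul_self, one_mul, one_mul]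
  -- assembly
  have hf0 : IsB n (fun Y : ℕ → A => ra ζ (pr n Y)) := R31_isB_pr ζ n
  refine ⟨fun i => if i = 0 then (fun X => P 0 X + (-1 : ℂ) • ra ζ (pr n X)) else P i, fun i => ?_, fun g => ?_⟩
  · by_cases hi : i = 0
    · simp only [if_pos hi]
      exact IsB_add (hPB 0) (IsB_smul (-1 : ℂ) hf0)
    · simp only [if_neg hi]
      exact hPB i
  · have h2 := main g
    rw [hconj g] at h2
    have h3 : F (al (g : A)) = fX n 0 (fun Y => ra ζ (pr n Y)) (al (g : A)) -
        ∑ i ∈ range (n + 2), ((-1 : ℂ) ^ i) • fX n i (P i) (al (g : A)) := by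
      rw [h2]; abel
    rw [h3, Finset.sum_range_succ', Finset.sum_range_succ' (fun i => ((-1 : ℂ) ^ i) • fX n i
      ((fun i => if i = 0 then (fun X => P 0 X + (-1 : ℂ) • ra ζ (pr n X)) else P i) i) (al (g : A)))]
    have h4 : ∀ i, fX n (i + 1) ((fun i => if i = 0 then (fun X => P 0 X + (-1 : ℂ) • ra ζ (pr n X))
        else P i) (i + 1)) (al (g : A)) = fX n (i + 1) (P (i + 1)) (al (g : A)) := fun i => by
      simp only [if_neg (Nat.succ_ne_zero i)]
    have h5 : fX n 0 ((fun i => if i = 0 then (fun X => P 0 X + (-1 : ℂ) • ra ζ (pr n X))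
        else P i) 0) (al (g : A)) = fX n 0 (P 0) (al (g : A)) -
        fX n 0 (fun Y => ra ζ (pr n Y)) (al (g : A)) := by
      simp only [if_true]
      unfold fX
      simp only [if_true]
      rw [R16_la_add, R16_la_smul]
      generalize la (al (g : A) 0) (P 0 (shift (al (g : A)))) = U
      generalize la (al (g : A) 0) (ra ζ (pr n (shift (al (g : A))))) = V
      ext x
      show U x + (-1 : ℂ) • V x = U x - V x
      rw [neg_one_smul]
      ring
    rw [h5]
    simp only [h4]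
    simp only [pow_zero, one_smul]
    abel

end H504S
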