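import Pool.Agent.H504S.Defs

/-! Task F: the pointwise Lebesgue decomposition (helper539). -/

set_option autoImplicit false

namespace H504S

open H730HC Finset
open scoped ComplexConjugate ComplexOrder

universe u v

attribute [local instance] CStarAlgebra.spectralOrder CStarAlgebra.spectralOrderedRing

variable {A : Type u} [CStarAlgebra A]

theorem F_re_nonneg (ρ : A →L[ℂ] ℂ) (hρ : IsPos ρ) (h : A) (hh : 0 ≤ h) : 0 ≤ (ρ h).re := by
  obtain ⟨b, rfl⟩ := CStarAlgebra.nonneg_iff_eq_star_mul_self.mp hh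
  exact (Complex.nonneg_iff.mp (hρ b)).1

theorem F_re_mono (ρ : A →L[ℂ] ℂ) (hρ : IsPos ρ) (h k : A) (hh : h ≤ k) : (ρ h).re ≤ (ρ k).re := by
  have := F_re_nonneg ρ hρ (k - h) (sub_nonneg.mpr hh)
  rw [map_sub, Complex.sub_re] at this
  linarith

theorem F_le_one (x : A) (hx : ‖x‖ ≤ 1) : x * star x ≤ 1 := by
  rw [← CStarAlgebra.norm_le_one_iff_of_nonneg _ (mul_star_self_nonneg x),
    CStarRing.norm_self_mul_star]
  nlinarith [norm_nonneg x]

theorem F_sq_le (D : A) (h0 : 0 ≤ D) (h1 : D ≤ 1) : D * D ≤ D := by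
  have hs : IsSelfAdjoint D := IsSelfAdjoint.of_nonneg h0
  have hs1 : IsSelfAdjoint (1 - D) := IsSelfAdjoint.of_nonneg (sub_nonneg.mpr h1)
  have e : D - D * D = star D * (1 - D) * D + star (1 - D) * D * (1 - D) := by
    rw [hs.star_eq, hs1.star_eq]; noncomm_ring
  have a1 : 0 ≤ star D * (1 - D) * D := star_left_conjugate_nonneg (sub_nonneg.mpr h1) D
  have a2 : 0 ≤ star (1 - D) * D * (1 - D) := star_left_conjugate_nonneg h0 (1 - D)
  rw [← sub_nonneg, e]
  exact add_nonneg a1 a2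

theorem F_norm (x w : A) (hx : ‖x‖ ≤ 1) (hw : ‖w‖ ≤ 1) (c1 c2 : ℝ) (hc : c1 ^ 2 + c2 ^ 2 = 1) :
    ‖c1 • x + c2 • ((1 - x * star x) * w)‖ ≤ 1 := by
  set D : A := 1 - x * star x with hD
  have hD1 : D ≤ 1 := by
    rw [hD, sub_le_self_iff]; exact mul_star_self_nonneg x
  have hD0 : 0 ≤ D := by
    rw [hD, sub_nonneg]; exact F_le_one x hx
  have hs : star D = D := (IsSelfAdjoint.of_nonneg hD0).star_eq
  set Z : A := c1 • x + c2 • (D * w) with hZ
  set X : A := c2 • x - c1 • (D * w) with hX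
  have hid : Z * star Z + X * star X = x * star x + (D * w) * star (D * w) := by
    generalize D * w = b at hZ hX ⊢
    rw [hZ, hX]
    simp only [star_add, star_sub, star_smul, star_trivial, mul_add, add_mul, mul_sub, sub_mul,
      smul_mul_assoc, mul_smul_comm, smul_smul, smul_add, smul_sub]
    linear_combination (norm := module) hc • (x * star x + b * star b)
  have h1 : Z * star Z ≤ x * star x + (D * w) * star (D * w) := by
    rw [← hid]; exact le_add_of_nonneg_right (mul_star_self_nonneg X)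
  have h2 : (D * w) * star (D * w) ≤ D := by
    have h3 : (D * w) * star (D * w) = D * (w * star w) * star D := by
      rw [star_mul]; noncomm_ring
    have h4 : D * (w * star w) * star D ≤ D * 1 * star D :=
      star_right_conjugate_le_conjugate (F_le_one w hw) D
    rw [h3]
    refine h4.trans ?_
    rw [hs, mul_one]
    exact F_sq_le D hD0 hD1
  have h5 : Z * star Z ≤ 1 := by
    refine h1.trans ?_
    calc x * star x + (D * w) * star (D * w) ≤ x * star x + D := by gcongr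
      _ = 1 := by rw [hD]; abel
  have h6 : ‖Z * star Z‖ ≤ 1 :=
    (CStarAlgebra.norm_le_one_iff_of_nonneg _ (mul_star_self_nonneg Z)).mpr h5
  rw [CStarRing.norm_self_mul_star] at h6
  nlinarith [norm_nonneg Z]

theorem F_nn (ρ : A →L[ℂ] ℂ) (hρ : IsPos ρ) (x : A) : 0 ≤ (ρ (x * star x)).re :=
  F_re_nonneg ρ hρ _ (mul_star_self_nonneg x)

theorem F_par (τ : A →L[ℂ] ℂ) (hτ : IsPos τ) (a b : A) :
    (τ ((a + b) * star (a + b))).re ≤ 2 * (τ (a * star a)).re + 2 * (τ (b * star b)).re := by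
  have e : (a + b) * star (a + b) + (a - b) * star (a - b) =
      (a * star a + a * star a) + (b * star b + b * star b) := by
    simp only [star_add, star_sub]; noncomm_ring
  have e1 := congrArg (fun t => (τ t).re) e
  simp only [map_add, Complex.add_re] at e1
  have := F_nn τ hτ (a - b)
  linarith

theorem F_cut (τ : A →L[ℂ] ℂ) (hτ : IsPT τ) (D : A) (h0 : 0 ≤ D) (h1 : D ≤ 1) (y : A) :
    (τ ((D * y) * star (D * y))).re ≤ (τ (y * star y)).re := by
  have hs : star D = D := (IsSelfAdjoint.of_nonneg h0).star_eq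
  rw [hτ.2 (D * y), hτ.2 y (star y)]
  have e : star (D * y) * (D * y) = star y * (D * D) * y := by
    rw [star_mul, hs]; noncomm_ring
  have h2 : star y * (D * D) * y ≤ star y * 1 * y :=
    star_left_conjugate_le_conjugate ((F_sq_le D h0 h1).trans h1) y
  rw [mul_one] at h2
  rw [e]
  exact F_re_mono τ hτ.1 _ _ h2

theorem F_smul (τ : A →L[ℂ] ℂ) (c : ℝ) (x : A) :
    (τ ((c • x) * star (c • x))).re = c ^ 2 * (τ (x * star x)).re := by
  have e : (c • x) * star (c • x) = (((c ^ 2 : ℝ) : ℂ)) • (x * star x) := by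
    rw [star_smul, star_trivial, smul_mul_assoc, mul_smul_comm, smul_smul, Complex.coe_smul, _root_.sq]
  rw [e, map_smul, smul_eq_mul, Complex.re_ofReal_mul]

theorem F_key (φ τ : A →L[ℂ] ℂ) (hτ : IsPT τ) (M0 : ℝ)
    (hM : ∀ z : A, ‖z‖ ≤ 1 → (φ z).re - (τ (z * star z)).re ≤ M0) (x : A) (hx : ‖x‖ ≤ 1)
    (y : A) (hy : ‖y‖ ≤ 1) :
    (φ x).re ^ 2 + ‖φ ((1 - x * star x) * y)‖ ^ 2 ≤
      (M0 + 2 * (τ (x * star x)).re + 2 * (τ (y * star y)).re) ^ 2 := by
  obtain ⟨θ, hθ, hθ2⟩ := RCLike.exists_norm_eq_mul_self (φ ((1 - x * star x) * y))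
  set a := (φ x).re with ha
  set b := ‖φ ((1 - x * star x) * y)‖ with hb
  set s := Real.sqrt (a ^ 2 + b ^ 2) with hs
  have hs2 : s ^ 2 = a ^ 2 + b ^ 2 := Real.sq_sqrt (by positivity)
  have hs0 : 0 ≤ s := Real.sqrt_nonneg _
  rw [← hs2]
  rcases hs0.eq_or_lt with h | hpos
  · rw [← h, zero_pow two_ne_zero]; exact sq_nonneg _
  set c1 := a / s with hc1
  set c2 := b / s with hc2
  have hc : c1 ^ 2 + c2 ^ 2 = 1 := by
    rw [hc1, hc2, div_pow, div_pow, ← add_div, ← hs2]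
    exact div_self (by positivity)
  have hw : ‖θ • y‖ ≤ 1 := by rw [norm_smul, hθ, one_mul]; exact hy
  have hz := F_norm x (θ • y) hx hw c1 c2 hc
  have hD1 : 1 - x * star x ≤ (1 : A) := by
    rw [sub_le_self_iff]; exact mul_star_self_nonneg x
  have hD0 : 0 ≤ 1 - x * star x := by
    rw [sub_nonneg]; exact F_le_one x hx
  have h1 := hM _ hz
  have h2 : (φ (c1 • x + c2 • ((1 - x * star x) * (θ • y)))).re = s := by
    rw [← Complex.coe_smul c1, ← Complex.coe_smul c2, map_add, map_smul, map_smul, mul_smul_comm,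
      map_smul, smul_eq_mul, smul_eq_mul, smul_eq_mul, ← hθ2]
    simp only [Complex.add_re, Complex.re_ofReal_mul]
    have : ((RCLike.ofReal b : ℂ)).re = b := by simp
    rw [this, ← ha, hc1, hc2]
    have hne : s ≠ 0 := hpos.ne'
    field_simp
    linarith
  have h3 := F_par τ hτ.1 (c1 • x) (c2 • ((1 - x * star x) * (θ • y)))
  rw [F_smul, F_smul] at h3
  have h4 := F_cut τ hτ (1 - x * star x) hD0 hD1 (θ • y)
  have h5 : τ ((θ • y) * star (θ • y)) = τ (y * star y) := by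
    rw [star_smul, smul_mul_assoc, mul_smul_comm, smul_smul]
    have : θ * star θ = 1 := by
      rw [Complex.star_def, Complex.mul_conj, Complex.normSq_eq_norm_sq, hθ]; simp
    rw [this, one_smul]
  rw [h5] at h4
  have h6 := F_nn τ hτ.1 x
  have h7 := F_nn τ hτ.1 ((1 - x * star x) * (θ • y))
  have h8 : c1 ^ 2 ≤ 1 := by nlinarith [sq_nonneg c2]
  have h9 : c2 ^ 2 ≤ 1 := by nlinarith [sq_nonneg c1]
  have h10 : c1 ^ 2 * (τ (x * star x)).re ≤ (τ (x * star x)).re := by nlinarith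
  have h11 : c2 ^ 2 * (τ ((1 - x * star x) * (θ • y) * star ((1 - x * star x) * (θ • y)))).re ≤
      (τ (y * star y)).re := by nlinarith [sq_nonneg c2]
  have h12 : s ≤ M0 + 2 * (τ (x * star x)).re + 2 * (τ (y * star y)).re := by
    rw [h2] at h1
    linarith
  exact pow_le_pow_left₀ hs0 h12 2

theorem F_real (C N a b s t e δ : ℝ) (hN0 : 0 ≤ N) (hNC : N ≤ C) (hb0 : 0 ≤ b) (hbC : b ≤ C)
    (ht : 0 ≤ t) (hs0 : 0 ≤ s) (hs1 : s ≤ 1) (hδ : 0 ≤ δ) (ha : N - δ ≤ a)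
    (hab : a ^ 2 + b ^ 2 ≤ (N + s + 2 * t) ^ 2) (he : 0 < e)
    (hse : (2 * C + 2) * s + 2 * C * δ ≤ e ^ 2) :
    b ≤ Real.sqrt ((4 * C + 4 + 2 * C ^ 2) * t) + e := by
  have hC : 0 ≤ C := hN0.trans hNC
  have hK : 0 ≤ (4 * C + 4 + 2 * C ^ 2) * t := by positivity
  have hr := Real.sq_sqrt hK
  have hr0 := Real.sqrt_nonneg ((4 * C + 4 + 2 * C ^ 2) * t)
  set R := Real.sqrt ((4 * C + 4 + 2 * C ^ 2) * t) with hR
  have key : b ^ 2 ≤ (4 * C + 4 + 2 * C ^ 2) * t + e ^ 2 := by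
    by_cases h : 2 * t ≤ 1
    · have h1 : N ^ 2 - 2 * C * δ ≤ a ^ 2 := by
        by_cases h2 : δ ≤ N
        · have : (N - δ) ^ 2 ≤ a ^ 2 := pow_le_pow_left₀ (by linarith) ha 2
          nlinarith [mul_nonneg (sub_nonneg.mpr hNC) hδ, sq_nonneg δ]
        · push Not at h2
          nlinarith [sq_nonneg a, mul_nonneg (sub_nonneg.mpr hNC) hδ, mul_nonneg hN0 (sub_nonneg.mpr h2.le)]
      have h3 : (N + s + 2 * t) ^ 2 - N ^ 2 ≤ (s + 2 * t) * (2 * C + 2) := by
        have : (N + s + 2 * t) ^ 2 - N ^ 2 = (s + 2 * t) * (2 * N + s + 2 * t) := by ring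
        rw [this]
        exact mul_le_mul_of_nonneg_left (by linarith) (by positivity)
      nlinarith [mul_nonneg (sq_nonneg C) ht]
    · push Not at h
      have h1 : b ^ 2 ≤ C ^ 2 := pow_le_pow_left₀ hb0 hbC 2
      nlinarith [mul_nonneg hC ht, sq_nonneg C, mul_nonneg (sq_nonneg C) (by linarith : 0 ≤ 2 * t - 1), sq_nonneg e]
  by_contra hcon
  push Not at hcon
  nlinarith [mul_nonneg hr0 he.le]

theorem dec_pt (φ : A →L[ℂ] ℂ) : ∃ σ : ℕ → (A →L[ℂ] ℂ), (∀ k, IsPT (σ k)) ∧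
    ∀ (τ : A →L[ℂ] ℂ), IsPT τ → ∀ (n : ℕ) (δ : ℝ), 0 < δ → ∃ x : A, ‖x‖ ≤ 1 ∧
      (τ (x * star x)).re ≤ δ ∧ ∀ k ≤ n, ∀ y : A,
        ‖φ ((1 - x * star x) * y)‖ ≤
          Real.sqrt ((σ k (y * star y)).re) + (1 / ((k : ℝ) + 1)) * ‖y‖ := by
  set C : ℝ := ‖φ‖ with hCdef
  have hC0 : 0 ≤ C := norm_nonneg _
  have hre : ∀ z : A, ‖z‖ ≤ 1 → (φ z).re ≤ C := fun z hz =>
    (Complex.re_le_norm _).trans ((φ.le_opNorm z).trans (mul_le_of_le_one_right hC0 hz))
  set S : Set ℝ := {r | ∃ τ : A →L[ℂ] ℂ, IsPT τ ∧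
    ∀ z : A, ‖z‖ ≤ 1 → (φ z).re - (τ (z * star z)).re ≤ r} with hS
  have hCS : C ∈ S := by
    refine ⟨0, ⟨fun x => ?_, fun x y => ?_⟩, fun z hz => ?_⟩
    · show (0 : ℂ) ≤ 0
      exact le_refl _
    · rfl
    · have : ((0 : A →L[ℂ] ℂ) (z * star z)).re = 0 := rfl
      rw [this, sub_zero]; exact hre z hz
  have hlb : ∀ r ∈ S, 0 ≤ r := by
    rintro r ⟨τ, hτ, h⟩
    have := h 0 (by simp)
    simpa using this
  set N : ℝ := sInf S with hN
  have hbdd : BddBelow S := ⟨0, hlb⟩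
  have hN0 : 0 ≤ N := le_csInf ⟨C, hCS⟩ hlb
  have hNC : N ≤ C := csInf_le hbdd hCS
  have hη : ∀ k : ℕ, 0 < 1 / (8 * (C + 1) * ((k : ℝ) + 1) ^ 2) := fun k => by positivity
  have hex : ∀ k : ℕ, ∃ τ : A →L[ℂ] ℂ, IsPT τ ∧
      ∀ z : A, ‖z‖ ≤ 1 → (φ z).re - (τ (z * star z)).re ≤ N + 1 / (8 * (C + 1) * ((k : ℝ) + 1) ^ 2) := by
    intro k
    obtain ⟨r, ⟨τ, hτ, h⟩, hr⟩ := exists_lt_of_csInf_lt ⟨C, hCS⟩ (lt_add_of_pos_right N (hη k))
    exact ⟨τ, hτ, fun z hz => (h z hz).trans hr.le⟩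
  choose τk hτk hτk2 using hex
  set K : ℝ := 4 * C + 4 + 2 * C ^ 2 with hK
  have hK0 : 0 ≤ K := by positivity
  have hKc : (0 : ℂ) ≤ (K : ℂ) := by exact_mod_cast hK0
  refine ⟨fun k => (K : ℂ) • τk k, fun k => ⟨fun x => ?_, fun x y => ?_⟩, ?_⟩
  · exact mul_nonneg hKc ((hτk k).1 x)
  · show (K : ℂ) * τk k (x * y) = (K : ℂ) * τk k (y * x)
    rw [(hτk k).2 x y]
  intro τ hτ n δ hδ
  set ε : ℝ := 1 / ((n : ℝ) + 1) ^ 2 with hε
  have hε0 : 0 < ε := by positivity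
  set q : ℝ := min δ (ε / (32 * (C + 1))) with hq
  have hq0 : 0 < q := lt_min hδ (by positivity)
  have hqδ : q ≤ δ := min_le_left _ _
  have hqε : q ≤ ε / (32 * (C + 1)) := min_le_right _ _
  set δ1 : ℝ := min 1 (ε / (8 * (C + 1))) with hδ1
  have hδ10 : 0 < δ1 := lt_min one_pos (by positivity)
  have hδ11 : δ1 ≤ 1 := min_le_left _ _
  have hδ1ε : δ1 ≤ ε / (8 * (C + 1)) := min_le_right _ _
  set L : ℝ := (C + 1) / q with hL
  have hL0 : 0 < L := by positivity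
  have hLc : (0 : ℂ) ≤ (L : ℂ) := by exact_mod_cast hL0.le
  set T0 : A →L[ℂ] ℂ := τ + ∑ k ∈ range (n + 1), τk k with hT0
  have hT0a : ∀ z, T0 z = τ z + ∑ k ∈ range (n + 1), τk k z := fun z => by
    rw [hT0, ContinuousLinearMap.add_apply, ContinuousLinearMap.sum_apply]
  have hT0P : IsPT T0 := by
    refine ⟨fun x => ?_, fun x y => ?_⟩
    · rw [hT0a]
      exact add_nonneg (hτ.1 x) (Finset.sum_nonneg fun k _ => (hτk k).1 x)
    · rw [hT0a, hT0a, hτ.2 x y]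
      congr 1
      exact Finset.sum_congr rfl fun k _ => (hτk k).2 x y
  set T : A →L[ℂ] ℂ := (L : ℂ) • T0 with hT
  have hTa : ∀ z, (T z).re = L * (T0 z).re := fun z => by
    have : T z = (L : ℂ) * T0 z := rfl
    rw [this, Complex.re_ofReal_mul]
  have hTP : IsPT T := by
    refine ⟨fun x => ?_, fun x y => ?_⟩
    · exact mul_nonneg hLc (hT0P.1 x)
    · show (L : ℂ) * T0 (x * y) = (L : ℂ) * T0 (y * x)
      rw [hT0P.2 x y]
  obtain ⟨x, hx, hxN⟩ : ∃ x : A, ‖x‖ ≤ 1 ∧ N - δ1 < (φ x).re - (T (x * star x)).re := by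
    by_contra hcon
    push Not at hcon
    have : N - δ1 ∈ S := ⟨T, hTP, hcon⟩
    have := csInf_le hbdd this
    linarith
  have hT0x : L * (T0 (x * star x)).re ≤ C + 1 := by
    rw [hTa] at hxN
    have := hre x hx
    linarith
  have hT0x2 : (T0 (x * star x)).re ≤ q := by
    rw [hL, div_mul_eq_mul_div, div_le_iff₀ hq0] at hT0x
    exact le_of_mul_le_mul_left hT0x (by positivity)
  have hT0re : (T0 (x * star x)).re = (τ (x * star x)).re + ∑ k ∈ range (n + 1), (τk k (x * star x)).re := by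
    rw [hT0a, Complex.add_re, Complex.re_sum]
  have hτx0 : 0 ≤ (τ (x * star x)).re := F_nn τ hτ.1 x
  have hsum0 : 0 ≤ ∑ k ∈ range (n + 1), (τk k (x * star x)).re :=
    Finset.sum_nonneg fun k _ => F_nn (τk k) (hτk k).1 x
  refine ⟨x, hx, by linarith, ?_⟩
  intro k hk y
  have hkx : (τk k (x * star x)).re ≤ q := by
    have : (τk k (x * star x)).re ≤ ∑ k ∈ range (n + 1), (τk k (x * star x)).re :=
      Finset.single_le_sum (f := fun k => (τk k (x * star x)).re)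
        (fun k _ => F_nn (τk k) (hτk k).1 x) (Finset.mem_range.mpr (by omega))
    linarith
  have hax : N - δ1 ≤ (φ x).re := by
    have := F_nn T hTP.1 x
    linarith
  have hD1 : 1 - x * star x ≤ (1 : A) := by
    rw [sub_le_self_iff]; exact mul_star_self_nonneg x
  have hD0 : 0 ≤ 1 - x * star x := by
    rw [sub_nonneg]; exact F_le_one x hx
  have hDn : ‖1 - x * star x‖ ≤ 1 := (CStarAlgebra.norm_le_one_iff_of_nonneg _ hD0).mpr hD1
  -- the unit ball case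
  have hball : ∀ y : A, ‖y‖ ≤ 1 → ‖φ ((1 - x * star x) * y)‖ ≤
      Real.sqrt (K * (τk k (y * star y)).re) + 1 / ((k : ℝ) + 1) := by
    intro y hy
    have h1 := F_key φ (τk k) (hτk k) _ (hτk2 k) x hx y hy
    have hek : ε ≤ 1 / ((k : ℝ) + 1) ^ 2 := by
      rw [hε]
      apply one_div_le_one_div_of_le (by positivity)
      have : (k : ℝ) ≤ n := by exact_mod_cast hk
      gcongr
    have hk1 : 1 / ((k : ℝ) + 1) ^ 2 ≤ 1 := by
      rw [div_le_one (by positivity)]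
      have : (0 : ℝ) ≤ k := Nat.cast_nonneg k
      nlinarith
    have hC1 : 0 < C + 1 := by positivity
    have e1 : (C + 1) * (1 / (8 * (C + 1) * ((k : ℝ) + 1) ^ 2)) = (1 / ((k : ℝ) + 1) ^ 2) / 8 := by
      field_simp
    have e2 : (C + 1) * q ≤ ε / 32 := by
      have : (C + 1) * q ≤ (C + 1) * (ε / (32 * (C + 1))) := mul_le_mul_of_nonneg_left hqε hC1.le
      have e : (C + 1) * (ε / (32 * (C + 1))) = ε / 32 := by field_simp
      linarith
    have e3 : (C + 1) * δ1 ≤ ε / 8 := by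
      have : (C + 1) * δ1 ≤ (C + 1) * (ε / (8 * (C + 1))) := mul_le_mul_of_nonneg_left hδ1ε hC1.le
      have e : (C + 1) * (ε / (8 * (C + 1))) = ε / 8 := by field_simp
      linarith
    have hηk := hη k
    set ηk : ℝ := 1 / (8 * (C + 1) * ((k : ℝ) + 1) ^ 2) with hηkd
    have hkx0 := F_nn (τk k) (hτk k).1 x
    have hs1 : ηk + 2 * (τk k (x * star x)).re ≤ 1 := by
      have a1 : ηk ≤ (C + 1) * ηk := by nlinarith
      have a2 : q ≤ (C + 1) * q := by nlinarith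
      linarith
    refine F_real C N (φ x).re _ (ηk + 2 * (τk k (x * star x)).re) _ (1 / ((k : ℝ) + 1)) δ1 hN0 hNC
      (norm_nonneg _) ?_ (F_nn (τk k) (hτk k).1 y) (by linarith) hs1 hδ10.le hax ?_ (by positivity) ?_
    · calc ‖φ ((1 - x * star x) * y)‖ ≤ C * ‖(1 - x * star x) * y‖ := φ.le_opNorm _
        _ ≤ C * 1 := by
            gcongr
            exact (norm_mul_le _ _).trans (mul_le_one₀ hDn (norm_nonneg _) hy)
        _ = C := mul_one C
    · refine h1.trans (le_of_eq ?_)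
      ring
    · have e4 : (1 / ((k : ℝ) + 1)) ^ 2 = 1 / ((k : ℝ) + 1) ^ 2 := by rw [div_pow, one_pow]
      rw [e4]
      have a3 : (C + 1) * (τk k (x * star x)).re ≤ (C + 1) * q := mul_le_mul_of_nonneg_left hkx hC1.le
      have a4 : C * δ1 ≤ (C + 1) * δ1 := by nlinarith
      have a5 : (2 * C + 2) * (ηk + 2 * (τk k (x * star x)).re) + 2 * C * δ1 =
        2 * ((C + 1) * ηk) + 4 * ((C + 1) * (τk k (x * star x)).re) + 2 * (C * δ1) := by ring
      rw [a5, e1]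
      linarith
  have hσ : ((((K : ℂ) • τk k) : A →L[ℂ] ℂ) (y * star y)).re = K * (τk k (y * star y)).re := by
    have : (((K : ℂ) • τk k) : A →L[ℂ] ℂ) (y * star y) = (K : ℂ) * τk k (y * star y) := rfl
    rw [this, Complex.re_ofReal_mul]
  show ‖φ ((1 - x * star x) * y)‖ ≤
    Real.sqrt (((((K : ℂ) • τk k) : A →L[ℂ] ℂ) (y * star y)).re) + (1 / ((k : ℝ) + 1)) * ‖y‖
  rw [hσ]
  rcases (norm_nonneg y).eq_or_lt with h0 | hpos
  · have hy0 : y = 0 := norm_eq_zero.mp h0.symm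
    rw [hy0]
    simp
  set r : ℝ := ‖y‖ with hr
  have hy' : ‖r⁻¹ • y‖ ≤ 1 := by
    rw [norm_smul, Real.norm_eq_abs, abs_of_pos (inv_pos.mpr hpos), ← hr,
      inv_mul_cancel₀ hpos.ne']
  have h2 := hball (r⁻¹ • y) hy'
  rw [F_smul] at h2
  have h3 : ‖φ ((1 - x * star x) * (r⁻¹ • y))‖ = r⁻¹ * ‖φ ((1 - x * star x) * y)‖ := by
    rw [mul_smul_comm, ← Complex.coe_smul, map_smul, norm_smul, Complex.norm_real,
      Real.norm_eq_abs, abs_of_pos (inv_pos.mpr hpos)]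
  have h4 : Real.sqrt (K * (r⁻¹ ^ 2 * (τk k (y * star y)).re)) =
      r⁻¹ * Real.sqrt (K * (τk k (y * star y)).re) := by
    have : K * (r⁻¹ ^ 2 * (τk k (y * star y)).re) = r⁻¹ ^ 2 * (K * (τk k (y * star y)).re) := by ring
    rw [this, Real.sqrt_mul (by positivity), Real.sqrt_sq (by positivity)]
  rw [h3, h4] at h2
  have h5 : r * (r⁻¹ * ‖φ ((1 - x * star x) * y)‖) ≤
      r * (r⁻¹ * Real.sqrt (K * (τk k (y * star y)).re) + 1 / ((k : ℝ) + 1)) :=
    mul_le_mul_of_nonneg_left h2 hpos.le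
  rw [← mul_assoc, mul_inv_cancel₀ hpos.ne', one_mul, mul_add, ← mul_assoc,
    mul_inv_cancel₀ hpos.ne', one_mul] at h5
  linarith

end H504S
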