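import Pool.Agent.H504S.Defs

/-! Task H: dominating positive functionals. -/

set_option autoImplicit false

namespace H504S

open H730HC Finset
open scoped ComplexConjugate ComplexOrder

universe u v

attribute [local instance] CStarAlgebra.spectralOrder CStarAlgebra.spectralOrderedRing

variable {A : Type u} [CStarAlgebra A]

theorem H_norm_le_one {z : A} (h : star z * z ≤ 1) : ‖z‖ ≤ 1 := by
  have h1 : ‖star z * z‖ ≤ 1 :=
    (CStarAlgebra.norm_le_one_iff_of_nonneg (star z * z) (star_mul_self_nonneg z)).2 h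
  rw [CStarRing.norm_star_mul_self] at h1
  nlinarith [norm_nonneg z]

theorem H_le_one {z : A} (h : ‖z‖ ≤ 1) : star z * z ≤ 1 := by
  refine (CStarAlgebra.norm_le_one_iff_of_nonneg (star z * z) (star_mul_self_nonneg z)).1 ?_
  rw [CStarRing.norm_star_mul_self]
  nlinarith [norm_nonneg z]

/-- a column times a row -/
theorem H_row (z d y : A) (hzd : star z * z + star d * d ≤ 1) (hy : ‖y‖ ≤ 1) (a b : ℂ) :
    ‖a • z + b • (y * d)‖ ^ 2 ≤ ‖a‖ ^ 2 + ‖b‖ ^ 2 := by
  have hy1 : star y * y ≤ 1 := H_le_one hy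
  set w : A := a • z + b • (y * d) with hw
  set w' : A := conj b • z - conj a • (y * d) with hw'
  have key : star w * w + star w' * w' =
      (((‖a‖ ^ 2 + ‖b‖ ^ 2 : ℝ) : ℂ)) • (star z * z + star (y * d) * (y * d)) := by
    have e1 : ((‖a‖ ^ 2 + ‖b‖ ^ 2 : ℝ) : ℂ) = conj a * a + conj b * b := by
      rw [Complex.conj_mul', Complex.conj_mul']; push_cast; ring
    rw [e1, hw, hw']
    simp only [star_add, star_sub, star_smul, add_mul, mul_add, sub_mul, mul_sub, smul_mul_smul_comm,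
      smul_add, RCLike.star_def, Complex.conj_conj]
    have c1 : conj b * a = a * conj b := mul_comm _ _
    have c2 : b * conj b = conj b * b := mul_comm _ _
    have c3 : a * conj a = conj a * a := mul_comm _ _
    have c4 : b * conj a = conj a * b := mul_comm _ _
    rw [c1, c2, c3, c4]
    module
  have h2 : star (y * d) * (y * d) ≤ star d * d := by
    have : star d * (star y * y) * d ≤ star d * 1 * d := star_left_conjugate_le_conjugate hy1 d
    rw [mul_one] at this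
    calc star (y * d) * (y * d) = star d * (star y * y) * d := by rw [star_mul]; noncomm_ring
      _ ≤ _ := this
  have h3 : star w * w ≤ (((‖a‖ ^ 2 + ‖b‖ ^ 2 : ℝ) : ℂ)) • (1 : A) := by
    have h4 : star w * w ≤ star w * w + star w' * w' := le_add_of_nonneg_right (star_mul_self_nonneg w')
    refine h4.trans ?_
    rw [key]
    have h5 : star z * z + star (y * d) * (y * d) ≤ 1 := (add_le_add le_rfl h2).trans hzd
    have h6 : (0 : ℝ) ≤ ‖a‖ ^ 2 + ‖b‖ ^ 2 := by positivity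
    have h7 : (‖a‖ ^ 2 + ‖b‖ ^ 2 : ℝ) • (star z * z + star (y * d) * (y * d)) ≤
        (‖a‖ ^ 2 + ‖b‖ ^ 2 : ℝ) • (1 : A) := smul_le_smul_of_nonneg_left h5 h6
    rw [Complex.coe_smul, Complex.coe_smul]
    exact h7
  have h8 : ‖star w * w‖ ≤ ‖a‖ ^ 2 + ‖b‖ ^ 2 := by
    have h9 := CStarAlgebra.norm_le_norm_of_nonneg_of_le (star_mul_self_nonneg w) h3
    refine h9.trans ?_
    rw [norm_smul]
    rcases subsingleton_or_nontrivial A with hs | hs
    · have : (1 : A) = 0 := Subsingleton.elim _ _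
      rw [this, norm_zero, mul_zero]; positivity
    · rw [CStarRing.norm_one, mul_one, Complex.norm_real, Real.norm_of_nonneg (by positivity)]
  rw [CStarRing.norm_star_mul_self] at h8
  nlinarith

theorem H_col (φ : A →L[ℂ] ℂ) (z d y : A) (hzd : star z * z + star d * d ≤ 1) (hy : ‖y‖ ≤ 1) :
    ‖φ z‖ ^ 2 + ‖φ (y * d)‖ ^ 2 ≤ ‖φ‖ ^ 2 := by
  set S : ℝ := ‖φ z‖ ^ 2 + ‖φ (y * d)‖ ^ 2 with hS
  have hS0 : 0 ≤ S := by positivity
  set w : A := conj (φ z) • z + conj (φ (y * d)) • (y * d) with hw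
  have h1 := H_row z d y hzd hy (conj (φ z)) (conj (φ (y * d)))
  rw [RCLike.norm_conj, RCLike.norm_conj, ← hS, ← hw] at h1
  have h2 : φ w = (S : ℂ) := by
    rw [hw, map_add, map_smul, map_smul, smul_eq_mul, smul_eq_mul, Complex.conj_mul', Complex.conj_mul', hS]
    push_cast; ring
  have h3 : S ≤ ‖φ‖ * ‖w‖ := by
    have := φ.le_opNorm w
    rw [h2, Complex.norm_real, Real.norm_of_nonneg hS0] at this
    exact this
  by_contra hcon
  push Not at hcon
  have h4 : 0 < S := lt_of_le_of_lt (sq_nonneg _) hcon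
  have h5 : S ^ 2 ≤ ‖φ‖ ^ 2 * S := by
    calc S ^ 2 ≤ (‖φ‖ * ‖w‖) ^ 2 := by gcongr
      _ = ‖φ‖ ^ 2 * ‖w‖ ^ 2 := by ring
      _ ≤ ‖φ‖ ^ 2 * S := by gcongr
  nlinarith

theorem H_col' (φ : A →L[ℂ] ℂ) (z d : A) (hzd : star z * z + star d * d ≤ 1) :
    ‖la d φ‖ ^ 2 ≤ ‖φ‖ ^ 2 - ‖φ z‖ ^ 2 := by
  have h0 : 0 ≤ ‖φ‖ ^ 2 - ‖φ z‖ ^ 2 := by
    have := H_col φ z d 0 hzd (by simp)
    nlinarith [sq_nonneg ‖φ (0 * d)‖]
  have h1 : ‖la d φ‖ ≤ Real.sqrt (‖φ‖ ^ 2 - ‖φ z‖ ^ 2) := by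
    refine ContinuousLinearMap.opNorm_le_bound' _ (Real.sqrt_nonneg _) fun y hy => ?_
    have hy0 : 0 < ‖y‖ := lt_of_le_of_ne (norm_nonneg _) (Ne.symm hy)
    have h2 := H_col φ z d (((‖y‖⁻¹ : ℝ) : ℂ) • y) hzd (by
      rw [norm_smul, Complex.norm_real, Real.norm_of_nonneg (by positivity)]
      rw [inv_mul_cancel₀ hy])
    have h3 : φ ((((‖y‖⁻¹ : ℝ) : ℂ) • y) * d) = ((‖y‖⁻¹ : ℝ) : ℂ) * la d φ y := by
      rw [smul_mul_assoc, map_smul, smul_eq_mul]; rfl
    rw [h3, norm_mul, Complex.norm_real, Real.norm_of_nonneg (by positivity)] at h2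
    have h4 : ‖y‖⁻¹ * ‖la d φ y‖ ≤ Real.sqrt (‖φ‖ ^ 2 - ‖φ z‖ ^ 2) :=
      Real.le_sqrt_of_sq_le (by linarith)
    calc ‖la d φ y‖ = ‖y‖⁻¹ * ‖la d φ y‖ * ‖y‖ := by field_simp
      _ ≤ _ := by gcongr
  calc ‖la d φ‖ ^ 2 ≤ Real.sqrt (‖φ‖ ^ 2 - ‖φ z‖ ^ 2) ^ 2 := by gcongr
    _ = _ := Real.sq_sqrt h0

/-- a functional attaining its norm at `1` is positive -/
theorem H_pos (ρ : A →L[ℂ] ℂ) (M : ℝ) (h1 : ρ 1 = (M : ℂ)) (hn : ‖ρ‖ ≤ M) : IsPos ρ := by
  rcases subsingleton_or_nontrivial A with hs | hs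
  · intro x
    have : star x * x = 0 := Subsingleton.elim _ _
    rw [this, map_zero]
  have hM : 0 ≤ M := (norm_nonneg _).trans hn
  -- real on self-adjoint elements
  have hre : ∀ h : A, IsSelfAdjoint h → (ρ h).im = 0 := by
    intro h hh
    have key : ∀ t : ℝ, 2 * t * M * (ρ h).im ≤ M ^ 2 * ‖h‖ ^ 2 := by
      intro t
      have e1 : ‖ρ (h + ((t : ℂ) * Complex.I) • (1 : A))‖ ≤ M * ‖h + ((t : ℂ) * Complex.I) • (1 : A)‖ :=
        (ρ.le_opNorm _).trans (by gcongr)
      have e2 : ‖h + ((t : ℂ) * Complex.I) • (1 : A)‖ ^ 2 ≤ ‖h‖ ^ 2 + t ^ 2 := by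
        rw [pow_two, ← CStarRing.norm_star_mul_self]
        have : star (h + ((t : ℂ) * Complex.I) • (1 : A)) * (h + ((t : ℂ) * Complex.I) • (1 : A)) =
            h * h + (((t ^ 2 : ℝ)) : ℂ) • (1 : A) := by
          rw [star_add, star_smul, star_one, hh.star_eq]
          simp only [add_mul, mul_add, smul_mul_assoc, mul_smul_comm, one_mul, mul_one, RCLike.star_def,
            map_mul, Complex.conj_I, Complex.conj_ofReal, smul_add, smul_smul]
          have e : (t : ℂ) * Complex.I * ((t : ℂ) * -Complex.I) = ((t ^ 2 : ℝ) : ℂ) := by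
            have : Complex.I * Complex.I = -1 := Complex.I_mul_I
            push_cast
            linear_combination (-(t:ℂ)^2) * this
          rw [e]
          module
        rw [this]
        calc ‖h * h + (((t ^ 2 : ℝ)) : ℂ) • (1 : A)‖ ≤ ‖h * h‖ + ‖(((t ^ 2 : ℝ)) : ℂ) • (1 : A)‖ := norm_add_le _ _
          _ ≤ ‖h‖ ^ 2 + t ^ 2 := by
            rw [norm_smul, CStarRing.norm_one, mul_one, Complex.norm_real, Real.norm_of_nonneg (by positivity)]
            have := norm_mul_le h h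
            nlinarith
      have e3 : ρ (h + ((t : ℂ) * Complex.I) • (1 : A)) = ρ h + (t * Complex.I) * M := by
        rw [map_add, map_smul, h1, smul_eq_mul]
      have e4 : ((ρ h).im + t * M) ^ 2 ≤ M ^ 2 * (‖h‖ ^ 2 + t ^ 2) := by
        have e5 : |(ρ (h + ((t : ℂ) * Complex.I) • (1 : A))).im| ≤ M * ‖h + ((t : ℂ) * Complex.I) • (1 : A)‖ :=
          (Complex.abs_im_le_norm _).trans e1
        have e6 : (ρ (h + ((t : ℂ) * Complex.I) • (1 : A))).im = (ρ h).im + t * M := by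
          rw [e3]; simp
        rw [e6] at e5
        calc ((ρ h).im + t * M) ^ 2 = |(ρ h).im + t * M| ^ 2 := (sq_abs _).symm
          _ ≤ (M * ‖h + ((t : ℂ) * Complex.I) • (1 : A)‖) ^ 2 := by gcongr
          _ = M ^ 2 * ‖h + ((t : ℂ) * Complex.I) • (1 : A)‖ ^ 2 := by ring
          _ ≤ _ := by gcongr
      nlinarith [sq_nonneg (ρ h).im]
    rcases hM.eq_or_lt with h0 | h0
    · have : ‖ρ h‖ ≤ 0 := by
        calc ‖ρ h‖ ≤ ‖ρ‖ * ‖h‖ := ρ.le_opNorm h
          _ ≤ M * ‖h‖ := by gcongr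
          _ = 0 := by rw [← h0, zero_mul]
      have : ρ h = 0 := norm_le_zero_iff.1 this
      rw [this]; rfl
    · by_contra hne
      have h2 := key ((M ^ 2 * ‖h‖ ^ 2 + 1) / (2 * M * (ρ h).im))
      have h3 : 2 * ((M ^ 2 * ‖h‖ ^ 2 + 1) / (2 * M * (ρ h).im)) * M * (ρ h).im = M ^ 2 * ‖h‖ ^ 2 + 1 := by
        field_simp
      linarith
  -- nonnegative on `[0,1]`
  have hpos1 : ∀ h : A, 0 ≤ h → h ≤ 1 → 0 ≤ (ρ h).re := by
    intro h h0 h2
    have e1 : ‖1 - h‖ ≤ 1 := (CStarAlgebra.norm_le_one_iff_of_nonneg (1 - h) (sub_nonneg.2 h2)).2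
      (sub_le_self _ h0)
    have e2 : (ρ (1 - h)).re ≤ M := by
      calc (ρ (1 - h)).re ≤ ‖ρ (1 - h)‖ := Complex.re_le_norm _
        _ ≤ ‖ρ‖ * ‖1 - h‖ := ρ.le_opNorm _
        _ ≤ M * 1 := by gcongr
        _ = M := mul_one M
    rw [map_sub, h1, Complex.sub_re, Complex.ofReal_re] at e2
    linarith
  intro x
  have hsa : IsSelfAdjoint (star x * x) := IsSelfAdjoint.star_mul_self x
  have him := hre _ hsa
  have hre2 : 0 ≤ (ρ (star x * x)).re := by
    set r : ℝ := (‖x‖ ^ 2 + 1)⁻¹ with hr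
    have hr0 : 0 < r := by positivity
    have e1 : r • (star x * x) ≤ 1 := by
      have : ‖r • (star x * x)‖ ≤ 1 := by
        rw [norm_smul, Real.norm_of_nonneg hr0.le, CStarRing.norm_star_mul_self, hr,
          inv_mul_le_iff₀ (by positivity)]
        nlinarith
      exact (CStarAlgebra.norm_le_one_iff_of_nonneg _ (smul_nonneg hr0.le (star_mul_self_nonneg x))).1 this
    have e2 := hpos1 _ (smul_nonneg hr0.le (star_mul_self_nonneg x)) e1
    have e3 : ρ (r • (star x * x)) = (r : ℂ) * ρ (star x * x) := by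
      rw [← Complex.coe_smul, map_smul, smul_eq_mul]
    rw [e3, Complex.re_ofReal_mul] at e2
    exact nonneg_of_mul_nonneg_right e2 hr0
  rw [Complex.le_def]
  exact ⟨hre2, by rw [him]; rfl⟩

theorem H_herm (ρ : A →L[ℂ] ℂ) (hρ : IsPos ρ) (a b : A) : ρ (star b * a) = conj (ρ (star a * b)) := by
  have h0 : ∀ x : A, (ρ (star x * x)).im = 0 := fun x => ((Complex.le_def.1 (hρ x)).2).symm
  have h1 := h0 (a + b)
  have h2 := h0 (a + Complex.I • b)
  have ha := h0 a
  have hb := h0 b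
  simp only [star_add, star_smul, add_mul, mul_add, map_add, smul_mul_assoc, mul_smul_comm, map_smul,
    smul_eq_mul, RCLike.star_def, Complex.conj_I, Complex.add_im, Complex.mul_im, Complex.I_re, Complex.I_im,
    Complex.neg_re, Complex.neg_im, Complex.mul_re] at h1 h2
  apply Complex.ext
  · simp only [Complex.conj_re]
    simp only [ha, hb] at h2
    linarith
  · simp only [Complex.conj_im]
    linarith

theorem H_cs (ρ : A →L[ℂ] ℂ) (hρ : IsPos ρ) (a b : A) :
    ‖ρ (star a * b)‖ ^ 2 ≤ (ρ (star a * a)).re * (ρ (star b * b)).re := by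
  obtain ⟨c, hc1, hc2⟩ := RCLike.exists_norm_eq_mul_self (ρ (star a * b))
  have hq : ∀ s : ℝ, 0 ≤ (ρ (star b * b)).re * (s * s) + (2 * ‖ρ (star a * b)‖) * s + (ρ (star a * a)).re := by
    intro s
    have h1 : 0 ≤ (ρ (star (a + ((s : ℂ) * c) • b) * (a + ((s : ℂ) * c) • b))).re := (Complex.le_def.1 (hρ _)).1
    have h2 := H_herm ρ hρ a b
    simp only [star_add, star_smul, add_mul, mul_add, map_add, smul_mul_assoc, mul_smul_comm, map_smul,
      smul_eq_mul, RCLike.star_def, map_mul, Complex.conj_ofReal, h2] at h1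
    have e1 : (s : ℂ) * c * ρ (star a * b) = ((s * ‖ρ (star a * b)‖ : ℝ) : ℂ) := by
      push_cast; rw [mul_assoc, ← hc2]; rfl
    have e2 : (s : ℂ) * conj c * conj (ρ (star a * b)) = ((s * ‖ρ (star a * b)‖ : ℝ) : ℂ) := by
      have := congrArg conj e1
      simp only [map_mul, Complex.conj_ofReal] at this
      exact this
    have e3 : (s : ℂ) * conj c * ((s : ℂ) * c * ρ (star b * b)) = ((s * s : ℝ) : ℂ) * ρ (star b * b) := by
      have : conj c * c = 1 := by rw [Complex.conj_mul', hc1]; simp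
      push_cast
      linear_combination ((s:ℂ) * s * ρ (star b * b)) * this
    have e4 : (s : ℂ) * c * ((s : ℂ) * conj c * ρ (star b * b)) = ((s * s : ℝ) : ℂ) * ρ (star b * b) := by
      rw [← e3]; ring
    simp only [Complex.add_re] at h1
    have e1' := congrArg Complex.re e1
    have e2' := congrArg Complex.re e2
    have e3' := congrArg Complex.re e3
    have e4' := congrArg Complex.re e4
    simp only [Complex.ofReal_re, Complex.re_ofReal_mul] at e1' e2' e3' e4'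
    linarith
  have hd := discrim_le_zero hq
  rw [discrim] at hd
  nlinarith

theorem dom (φ : A →L[ℂ] ℂ) : ∃ ρ : A →L[ℂ] ℂ, IsPos ρ ∧
    (∀ x, ‖φ x‖ ^ 2 ≤ ‖φ‖ * (ρ (x * star x)).re) ∧ (InfT φ → InfT ρ) := by
  -- almost norming sequence
  have hex : ∀ n : ℕ, ∃ x : A, ‖x‖ ≤ 1 ∧ ‖φ‖ - 1 / ((n : ℝ) + 1) ≤ (φ x).re := by
    intro n
    have hlt : ‖φ‖ - 1 / ((n : ℝ) + 1) < ‖φ‖ := by
      have : (0 : ℝ) < 1 / ((n : ℝ) + 1) := by positivity
      linarith
    obtain ⟨x, hx1, hx2⟩ := φ.exists_lt_apply_of_lt_opNorm hlt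
    obtain ⟨c, hc1, hc2⟩ := RCLike.exists_norm_eq_mul_self (φ x)
    refine ⟨c • x, ?_, ?_⟩
    · rw [norm_smul, hc1, one_mul]; exact hx1.le
    · rw [map_smul, smul_eq_mul, ← hc2]
      have : (((‖φ x‖ : ℝ) : ℂ)).re = ‖φ x‖ := Complex.ofReal_re _
      have h3 : ‖φ‖ - 1 / ((n : ℝ) + 1) ≤ (((‖φ x‖ : ℝ) : ℂ)).re := by rw [this]; exact hx2.le
      exact h3
  choose x hx1 hx2 using hex
  have hN0 : 0 ≤ ‖φ‖ := norm_nonneg _
  have hbd : ∀ (z : A) (δ : ℝ), ‖z‖ ≤ 1 → ‖φ‖ - δ ≤ (φ z).re → ‖φ‖ ^ 2 - ‖φ z‖ ^ 2 ≤ 2 * ‖φ‖ * δ := by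
    intro z δ hz hδ
    have h1 : ‖φ z‖ ≤ ‖φ‖ := (φ.le_opNorm z).trans (by nlinarith)
    have h2 : |(φ z).re| ≤ ‖φ z‖ := Complex.abs_re_le_norm _
    have h3 := abs_le.1 h2
    have h4 : (φ z).re ^ 2 ≤ ‖φ z‖ ^ 2 := sq_le_sq' h3.1 h3.2
    have h5 : (‖φ‖ - (φ z).re) * (‖φ‖ + (φ z).re) ≤ δ * (2 * ‖φ‖) := by
      have a1 : ‖φ‖ - (φ z).re ≤ δ := by linarith
      have a2 : 0 ≤ ‖φ‖ + (φ z).re := by linarith
      have a3 : ‖φ‖ + (φ z).re ≤ 2 * ‖φ‖ := by linarith
      have a4 : 0 ≤ ‖φ‖ - (φ z).re := by linarith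
      exact mul_le_mul a1 a3 a2 (a4.trans a1)
    nlinarith
  have hsub : ∀ (a b : A) (ψ : A →L[ℂ] ℂ), la (a - b) ψ = la a ψ - la b ψ := fun a b ψ => by
    ext y; simp [la, mul_sub]
  have hCau : ∀ n m N : ℕ, N ≤ n → N ≤ m →
      ‖la (x n) φ - la (x m) φ‖ ^ 2 ≤ 8 * ‖φ‖ * (1 / ((N : ℝ) + 1)) := by
    intro n m N hn hm
    set z : A := (1 / 2 : ℂ) • (x n + x m) with hz
    set d : A := (1 / 2 : ℂ) • (x n - x m) with hd
    have hsum : star z * z + star d * d ≤ 1 := by
      have e1 : star z * z + star d * d = (1 / 2 : ℝ) • (star (x n) * x n + star (x m) * x m) := by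
        rw [hz, hd, ← Complex.coe_smul]
        simp only [star_add, star_sub, star_smul, add_mul, mul_add, sub_mul, mul_sub, smul_mul_smul_comm,
          smul_add, RCLike.star_def, map_div₀, map_one, map_ofNat]
        push_cast
        module
      rw [e1]
      have e2 : star (x n) * x n + star (x m) * x m ≤ (2 : ℝ) • (1 : A) := by
        rw [two_smul]
        exact add_le_add (H_le_one (hx1 n)) (H_le_one (hx1 m))
      calc (1 / 2 : ℝ) • (star (x n) * x n + star (x m) * x m) ≤ (1 / 2 : ℝ) • ((2 : ℝ) • (1 : A)) :=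
            smul_le_smul_of_nonneg_left e2 (by norm_num)
        _ = 1 := by rw [smul_smul]; norm_num
    have h1 := H_col' φ z d hsum
    have hz1 : ‖z‖ ≤ 1 := by
      rw [hz, norm_smul]
      have : ‖x n + x m‖ ≤ 2 := (norm_add_le _ _).trans (by linarith [hx1 n, hx1 m])
      have e : ‖(1 / 2 : ℂ)‖ = 1 / 2 := by norm_num
      rw [e]; linarith
    have hz2 : ‖φ‖ - 1 / ((N : ℝ) + 1) ≤ (φ z).re := by
      have e1 : φ z = ((1 / 2 : ℝ) : ℂ) * (φ (x n) + φ (x m)) := by
        rw [hz, map_smul, map_add, smul_eq_mul]; push_cast; ring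
      rw [e1, Complex.re_ofReal_mul, Complex.add_re]
      have e2 : 1 / ((n : ℝ) + 1) ≤ 1 / ((N : ℝ) + 1) := by
        have : (N : ℝ) ≤ n := by exact_mod_cast hn
        gcongr
      have e3 : 1 / ((m : ℝ) + 1) ≤ 1 / ((N : ℝ) + 1) := by
        have : (N : ℝ) ≤ m := by exact_mod_cast hm
        gcongr
      linarith [hx2 n, hx2 m]
    have h2 := hbd z _ hz1 hz2
    have h3 : la (x n) φ - la (x m) φ = (2 : ℂ) • la d φ := by
      rw [← hsub]
      ext y
      simp only [la, hd, ContinuousLinearMap.comp_apply, ContinuousLinearMap.smul_apply, ContinuousLinearMap.flip_apply,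
        ContinuousLinearMap.mul_apply', mul_smul_comm, map_smul, smul_eq_mul]
      ring
    rw [h3, norm_smul]
    have e : ‖(2 : ℂ)‖ = 2 := by norm_num
    rw [e, mul_pow]
    nlinarith
  have hcauchy : CauchySeq (fun n => la (x n) φ) := by
    rw [Metric.cauchySeq_iff']
    intro ε hε
    obtain ⟨N, hN⟩ := exists_nat_gt (8 * ‖φ‖ / ε ^ 2)
    refine ⟨N, fun n hn => ?_⟩
    rw [dist_eq_norm]
    have h1 := hCau n N N hn le_rfl
    have h2 : 8 * ‖φ‖ * (1 / ((N : ℝ) + 1)) < ε ^ 2 := by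
      rw [mul_one_div, div_lt_iff₀ (by positivity)]
      rw [div_lt_iff₀ (by positivity)] at hN
      nlinarith [sq_pos_of_pos hε]
    have h3 : ‖la (x n) φ - la (x N) φ‖ ^ 2 < ε ^ 2 := lt_of_le_of_lt h1 h2
    exact lt_of_pow_lt_pow_left₀ 2 hε.le h3
  obtain ⟨ρ, hρ⟩ := cauchySeq_tendsto_of_complete hcauchy
  -- norm and value at 1
  have hρn : ‖ρ‖ ≤ ‖φ‖ := by
    refine le_of_tendsto hρ.norm (Filter.Eventually.of_forall fun n => ?_)
    refine (R14_la_norm _ _).trans ?_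
    calc ‖x n‖ * ‖φ‖ ≤ 1 * ‖φ‖ := by gcongr; exact hx1 n
      _ = ‖φ‖ := one_mul _
  have hev : ∀ y : A, Filter.Tendsto (fun n => la (x n) φ y) Filter.atTop (nhds (ρ y)) := fun y =>
    ((ContinuousLinearMap.apply ℂ ℂ y).continuous.tendsto ρ).comp hρ
  have htend : Filter.Tendsto (fun n : ℕ => 1 / ((n : ℝ) + 1)) Filter.atTop (nhds 0) :=
    tendsto_one_div_add_atTop_nhds_zero_nat
  have hρ1re : (ρ 1).re = ‖φ‖ := by
    have h1 : Filter.Tendsto (fun n => (la (x n) φ 1).re) Filter.atTop (nhds (ρ 1).re) :=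
      (Complex.continuous_re.tendsto _).comp (hev 1)
    refine le_antisymm ?_ ?_
    · calc (ρ 1).re ≤ ‖ρ 1‖ := Complex.re_le_norm _
        _ ≤ ‖ρ‖ * ‖(1 : A)‖ := ρ.le_opNorm _
        _ ≤ ‖φ‖ * 1 := by
          gcongr
          rcases subsingleton_or_nontrivial A with hs | hs
          · have : (1 : A) = 0 := Subsingleton.elim _ _
            rw [this, norm_zero]; norm_num
          · rw [CStarRing.norm_one]
        _ = ‖φ‖ := mul_one _
    · have h2 : Filter.Tendsto (fun n : ℕ => ‖φ‖ - 1 / ((n : ℝ) + 1)) Filter.atTop (nhds (‖φ‖ - 0)) :=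
        tendsto_const_nhds.sub htend
      rw [sub_zero] at h2
      refine le_of_tendsto_of_tendsto h2 h1 (Filter.Eventually.of_forall fun n => ?_)
      have : la (x n) φ 1 = φ (x n) := by rw [R14_la_apply, one_mul]
      simp only [this]
      exact hx2 n
  have hρ1 : ρ 1 = ((‖φ‖ : ℝ) : ℂ) := by
    have h1 : ‖ρ 1‖ ≤ ‖φ‖ := by
      calc ‖ρ 1‖ ≤ ‖ρ‖ * ‖(1 : A)‖ := ρ.le_opNorm _
        _ ≤ ‖φ‖ * 1 := by
          gcongr
          rcases subsingleton_or_nontrivial A with hs | hs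
          · have : (1 : A) = 0 := Subsingleton.elim _ _
            rw [this, norm_zero]; norm_num
          · rw [CStarRing.norm_one]
        _ = ‖φ‖ := mul_one _
    have h2 : ‖ρ 1‖ ^ 2 = (ρ 1).re ^ 2 + (ρ 1).im ^ 2 := by
      rw [← Complex.normSq_eq_norm_sq, Complex.normSq_apply]; ring
    have h3 : (ρ 1).im ^ 2 ≤ 0 := by
      have : ‖ρ 1‖ ^ 2 ≤ ‖φ‖ ^ 2 := by gcongr
      rw [h2, hρ1re] at this
      linarith
    have h4 : (ρ 1).im = 0 := by
      have := le_antisymm h3 (sq_nonneg _)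
      exact pow_eq_zero_iff (two_ne_zero) |>.1 this
    apply Complex.ext
    · rw [hρ1re, Complex.ofReal_re]
    · rw [h4, Complex.ofReal_im]
  have hpos : IsPos ρ := H_pos ρ ‖φ‖ hρ1 hρn
  have hnρ : Filter.Tendsto (fun n => ‖la (x n) φ - ρ‖) Filter.atTop (nhds 0) := by
    have := (tendsto_iff_norm_sub_tendsto_zero.1 hρ)
    exact this
  refine ⟨ρ, hpos, ?_, ?_⟩
  · intro a
    -- φ a = lim ρ (a * star (x n))
    have hlim : Filter.Tendsto (fun n => ρ (a * star (x n))) Filter.atTop (nhds (φ a)) := by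
      rw [tendsto_iff_norm_sub_tendsto_zero]
      have hb : ∀ n : ℕ, ‖ρ (a * star (x n)) - φ a‖ ≤
          ‖la (x n) φ - ρ‖ * ‖a‖ + Real.sqrt (2 * ‖φ‖ * (1 / ((n : ℝ) + 1))) * ‖a‖ := by
        intro n
        set d : A := 1 - star (x n) * x n with hd
        have hdsum : star (x n) * x n + star d * d ≤ 1 := by
          have hh : star (x n) * x n * (star (x n) * x n) ≤ star (x n) * x n := by
            have h1 : x n * star (x n) ≤ 1 := by
              have := H_le_one (z := star (x n)) (by rw [norm_star]; exact hx1 n)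
              rwa [star_star] at this
            have := star_left_conjugate_le_conjugate h1 (x n)
            calc star (x n) * x n * (star (x n) * x n) = star (x n) * (x n * star (x n)) * x n := by
                  noncomm_ring
              _ ≤ star (x n) * 1 * x n := this
              _ = star (x n) * x n := by rw [mul_one]
          have e1 : star (x n) * x n + star d * d =
              1 - (star (x n) * x n - star (x n) * x n * (star (x n) * x n)) := by
            rw [hd, star_sub, star_one, star_mul, star_star]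
            noncomm_ring
          rw [e1]
          exact sub_le_self _ (sub_nonneg.2 hh)
        have h1 := H_col' φ (x n) d hdsum
        have h2 := hbd (x n) _ (hx1 n) (hx2 n)
        have h3 : ‖la d φ‖ ≤ Real.sqrt (2 * ‖φ‖ * (1 / ((n : ℝ) + 1))) :=
          Real.le_sqrt_of_sq_le (h1.trans h2)
        have e1 : ρ (a * star (x n)) - φ a =
            -((la (x n) φ - ρ) (a * star (x n))) - la d φ a := by
          rw [ContinuousLinearMap.sub_apply, R14_la_apply, R14_la_apply, hd, mul_sub, map_sub, mul_one,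
            mul_assoc]
          ring
        rw [e1]
        refine (norm_sub_le _ _).trans ?_
        rw [norm_neg]
        have h4 : ‖(la (x n) φ - ρ) (a * star (x n))‖ ≤ ‖la (x n) φ - ρ‖ * ‖a‖ := by
          refine (ContinuousLinearMap.le_opNorm _ _).trans ?_
          have : ‖a * star (x n)‖ ≤ ‖a‖ := by
            refine (norm_mul_le _ _).trans ?_
            rw [norm_star]
            calc ‖a‖ * ‖x n‖ ≤ ‖a‖ * 1 := by gcongr; exact hx1 n
              _ = ‖a‖ := mul_one _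
          gcongr
        have h5 : ‖la d φ a‖ ≤ Real.sqrt (2 * ‖φ‖ * (1 / ((n : ℝ) + 1))) * ‖a‖ :=
          (ContinuousLinearMap.le_opNorm _ _).trans (by gcongr)
        linarith
      refine squeeze_zero (fun n => norm_nonneg _) hb ?_
      have h1 : Filter.Tendsto (fun n : ℕ => Real.sqrt (2 * ‖φ‖ * (1 / ((n : ℝ) + 1)))) Filter.atTop (nhds 0) := by
        have : Filter.Tendsto (fun n : ℕ => 2 * ‖φ‖ * (1 / ((n : ℝ) + 1))) Filter.atTop (nhds (2 * ‖φ‖ * 0)) :=
          htend.const_mul _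
        rw [mul_zero] at this
        have h2 := (Real.continuous_sqrt.tendsto 0).comp this
        rw [Real.sqrt_zero] at h2
        exact h2
      have h2 := (hnρ.mul_const ‖a‖).add (h1.mul_const ‖a‖)
      simpa using h2
    have hcs : ∀ n, ‖ρ (a * star (x n))‖ ^ 2 ≤ ‖φ‖ * (ρ (a * star a)).re := by
      intro n
      have h1 := H_cs ρ hpos (star a) (star (x n))
      rw [star_star, star_star] at h1
      have h2 : (ρ (x n * star (x n))).re ≤ ‖φ‖ := by
        calc (ρ (x n * star (x n))).re ≤ ‖ρ (x n * star (x n))‖ := Complex.re_le_norm _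
          _ ≤ ‖ρ‖ * ‖x n * star (x n)‖ := ρ.le_opNorm _
          _ ≤ ‖φ‖ * 1 := by
            have : ‖x n * star (x n)‖ ≤ 1 := by
              refine (norm_mul_le _ _).trans ?_
              rw [norm_star]
              have := hx1 n
              nlinarith [norm_nonneg (x n)]
            gcongr
          _ = ‖φ‖ := mul_one _
      have h3 : 0 ≤ (ρ (a * star a)).re := by
        have := (Complex.le_def.1 (hpos (star a))).1
        rwa [star_star] at this
      calc ‖ρ (a * star (x n))‖ ^ 2 ≤ (ρ (a * star a)).re * (ρ (x n * star (x n))).re := h1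
        _ ≤ (ρ (a * star a)).re * ‖φ‖ := by gcongr
        _ = _ := mul_comm _ _
    exact le_of_tendsto (hlim.norm.pow 2) (Filter.Eventually.of_forall hcs)
  · intro hinf τ hτ ε hε
    have h1 : ∀ᶠ n in Filter.atTop, ‖la (x n) φ - ρ‖ < ε / 2 :=
      (tendsto_order.1 hnρ).2 _ (by linarith)
    obtain ⟨n, hn⟩ := h1.exists
    obtain ⟨D, hD0, hD1, hD2, hD3⟩ := hinf τ hτ (ε / 2) (by linarith)
    refine ⟨D, hD0, hD1, by linarith, fun y => ?_⟩
    have hDn : ‖D‖ ≤ 1 := (CStarAlgebra.norm_le_one_iff_of_nonneg D hD0).2 hD1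
    have e1 : ρ (D * y) = φ (D * (y * x n)) - (la (x n) φ - ρ) (D * y) := by
      rw [ContinuousLinearMap.sub_apply, R14_la_apply, mul_assoc]; ring
    rw [e1]
    refine (norm_sub_le _ _).trans ?_
    have h2 : ‖φ (D * (y * x n))‖ ≤ ε / 2 * ‖y‖ := by
      refine (hD3 _).trans ?_
      have : ‖y * x n‖ ≤ ‖y‖ := (norm_mul_le _ _).trans (by nlinarith [norm_nonneg y, hx1 n])
      gcongr
    have h3 : ‖(la (x n) φ - ρ) (D * y)‖ ≤ ε / 2 * ‖y‖ := by
      refine (ContinuousLinearMap.le_opNorm _ _).trans ?_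
      have : ‖D * y‖ ≤ ‖y‖ := (norm_mul_le _ _).trans (by nlinarith [norm_nonneg y])
      gcongr
    linarith

end H504S
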