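import Pool.Agent.H504S.Defs

set_option autoImplicit false

namespace H504S

open H730HC Finset
open scoped ComplexConjugate ComplexOrder

universe u v

attribute [local instance] CStarAlgebra.spectralOrder CStarAlgebra.spectralOrderedRing

variable {A : Type u} [CStarAlgebra A]

/-- a positive functional as a Mathlib positive linear map -/
noncomputable def K_plm (ρ : A →L[ℂ] ℂ) (h : IsPos ρ) : A →ₚ[ℂ] ℂ :=
  PositiveLinearMap.mk₀ (ρ : A →ₗ[ℂ] ℂ) (fun a ha => by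
    obtain ⟨x, rfl⟩ := CStarAlgebra.nonneg_iff_eq_star_mul_self.1 ha
    exact h x)

theorem K_plm_apply (ρ : A →L[ℂ] ℂ) (h : IsPos ρ) (x : A) : K_plm ρ h x = ρ x := rfl

/-- Cauchy-Schwarz for positive functionals -/
theorem K_cs (ρ : A →L[ℂ] ℂ) (h : IsPos ρ) (x y : A) :
    ‖ρ (star x * y)‖ ≤ Real.sqrt ((ρ (star x * x)).re) * Real.sqrt ((ρ (star y * y)).re) := by
  have h1 := norm_inner_le_norm (𝕜 := ℂ) ((K_plm ρ h).toPreGNS x) ((K_plm ρ h).toPreGNS y)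
  rw [PositiveLinearMap.preGNS_inner_def, PositiveLinearMap.preGNS_norm_def,
    PositiveLinearMap.preGNS_norm_def] at h1
  exact h1

theorem K_nonneg (ρ : A →L[ℂ] ℂ) (h : IsPos ρ) {x : A} (hx : 0 ≤ x) : 0 ≤ ρ x := by
  obtain ⟨z, rfl⟩ := CStarAlgebra.nonneg_iff_eq_star_mul_self.1 hx
  exact h z

theorem K_mono (ρ : A →L[ℂ] ℂ) (h : IsPos ρ) {x y : A} (hx : x ≤ y) : (ρ x).re ≤ (ρ y).re := by
  have h1 := K_nonneg ρ h (sub_nonneg.2 hx)
  rw [map_sub] at h1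
  have h2 := (Complex.le_def.1 h1).1
  simp at h2
  linarith

theorem K_sq_le (ρ : A →L[ℂ] ℂ) (h : IsPos ρ) (x : A) :
    (ρ (star x * x)).re ≤ ‖x‖ ^ 2 * (ρ 1).re := by
  have h1 : star x * x ≤ algebraMap ℝ A (‖x‖ ^ 2) := by
    have h2 := CStarAlgebra.star_mul_le_algebraMap_norm_sq (a := x)
    exact h2
  have h3 := K_mono ρ h h1
  have h4 : ρ (algebraMap ℝ A (‖x‖ ^ 2)) = ((‖x‖ ^ 2 : ℝ) : ℂ) * ρ 1 := by
    rw [Algebra.algebraMap_eq_smul_one]
    have h5 : ((‖x‖ ^ 2 : ℝ)) • (1 : A) = (((‖x‖ ^ 2 : ℝ) : ℂ)) • (1 : A) := by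
      exact (Complex.coe_smul _ _).symm
    rw [h5, map_smul, smul_eq_mul]
  rw [h4, Complex.re_ofReal_mul] at h3
  exact h3

/-- norm of a positive functional -/
theorem K_norm (ρ : A →L[ℂ] ℂ) (h : IsPos ρ) : ‖ρ‖ ≤ (ρ 1).re := by
  have h0 : 0 ≤ (ρ 1).re := by
    have := K_nonneg ρ h (zero_le_one' A)
    exact (Complex.le_def.1 this).1
  refine ContinuousLinearMap.opNorm_le_bound _ h0 fun x => ?_
  have h1 := K_cs ρ h 1 x
  rw [star_one, one_mul, one_mul] at h1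
  have h2 := K_sq_le ρ h x
  calc ‖ρ x‖ ≤ Real.sqrt ((ρ 1).re) * Real.sqrt ((ρ (star x * x)).re) := h1
    _ ≤ Real.sqrt ((ρ 1).re) * Real.sqrt (‖x‖ ^ 2 * (ρ 1).re) := by
        gcongr
    _ = (ρ 1).re * ‖x‖ := by
        rw [Real.sqrt_mul (by positivity), Real.sqrt_sq (norm_nonneg x)]
        have := Real.mul_self_sqrt h0
        calc _ = ‖x‖ * (Real.sqrt ((ρ 1).re) * Real.sqrt ((ρ 1).re)) := by ring
          _ = _ := by rw [this]; ring

/-- weak* limits along ultrafilters -/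
theorem K_lim {κ : Type v} (U : Ultrafilter κ) (f : κ → (A →L[ℂ] ℂ)) (C : ℝ) (hf : ∀ k, ‖f k‖ ≤ C) :
    ∃ ψ : A →L[ℂ] ℂ, ‖ψ‖ ≤ C ∧ ∀ x, Filter.Tendsto (fun k => f k x) (U : Filter κ) (nhds (ψ x)) := by
  have hm : IsMean (fun g : κ → ℝ => ulim U (fun k => g k)) :=
    ultra_isMean U (fun k g => g k) (fun k => T08_mean_point k)
  have hs := EX_spec hm f C hf
  refine ⟨EX (fun g : κ → ℝ => ulim U (fun k => g k)) f, hs.2, fun x => ?_⟩
  have hb : ∀ k, ‖f k x‖ ≤ C * ‖x‖ := fun k => R04_bdx hf x k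
  have hre := ultra_tendsto U (fun k (g : κ → ℝ) => g k) (fun k => T08_mean_point k)
    (fun k => (f k x).re) ⟨_, fun k => (Complex.abs_re_le_norm _).trans (hb k)⟩
  have him := ultra_tendsto U (fun k (g : κ → ℝ) => g k) (fun k => T08_mean_point k)
    (fun k => (f k x).im) ⟨_, fun k => (Complex.abs_im_le_norm _).trans (hb k)⟩
  have h1 := (hs.1 x).1
  have h2 := (hs.1 x).2
  rw [← h1] at hre
  rw [← h2] at him
  have h3 := (Complex.continuous_ofReal.tendsto _).comp hre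
  have h4 := (Complex.continuous_ofReal.tendsto _).comp him
  have h5 := h3.add (h4.mul_const Complex.I)
  simpa [Function.comp_def, Complex.re_add_im] using h5

/-- TASK K with the conclusion of `V1` as a hypothesis -/
theorem V2_of (ρ R : A →L[ℂ] ℂ) (c : ℝ)
    (hV1 : ∃ Rs : ℕ → (A →L[ℂ] ℂ), (∀ i, Cone R (Rs i)) ∧ ∀ (n : ℕ) (F : Finset (unitary A)),
      ∃ ρ1 : A →L[ℂ] ℂ, IsPos ρ1 ∧ c / 2 ≤ (ρ1 1).re ∧ (ρ1 1).re ≤ (ρ 1).re ∧
        ∀ i ≤ n, ∀ u ∈ F, ∀ h : A, 0 ≤ h → h ≤ 1 →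
          (ρ1 (star (u : A) * h * (u : A))).re ≤ (Rs i h).re + 2 / ((i : ℝ) + 1)) :
    ∃ Rs : ℕ → (A →L[ℂ] ℂ), (∀ i, Cone R (Rs i)) ∧ ∃ ψ : A →L[ℂ] ℂ, IsPos ψ ∧ c / 2 ≤ (ψ 1).re ∧
      ∀ (i : ℕ) (u : unitary A) (h : A), 0 ≤ h → h ≤ 1 →
        (ψ (star (u : A) * h * (u : A))).re ≤ (Rs i h).re + 2 / ((i : ℝ) + 1) := by
  obtain ⟨Rs, hRs, hV⟩ := hV1
  refine ⟨Rs, hRs, ?_⟩
  classical
  choose f hf using fun κ : ℕ × Finset (unitary A) => hV κ.1 κ.2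
  let U : Ultrafilter (ℕ × Finset (unitary A)) := Ultrafilter.of Filter.atTop
  have hU : (U : Filter (ℕ × Finset (unitary A))) ≤ Filter.atTop := Ultrafilter.of_le _
  obtain ⟨ψ, _, hψ⟩ := K_lim U f ((ρ 1).re) (fun k => (K_norm _ (hf k).1).trans (hf k).2.2.1)
  have hψre : ∀ x, Filter.Tendsto (fun k => (f k x).re) (U : Filter _) (nhds ((ψ x).re)) :=
    fun x => (Complex.continuous_re.tendsto _).comp (hψ x)
  have hψim : ∀ x, Filter.Tendsto (fun k => (f k x).im) (U : Filter _) (nhds ((ψ x).im)) :=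
    fun x => (Complex.continuous_im.tendsto _).comp (hψ x)
  refine ⟨ψ, fun x => ?_, ?_, fun i u h h0 h1 => ?_⟩
  · rw [Complex.le_def]
    constructor
    · exact ge_of_tendsto' (hψre _) fun k => (Complex.le_def.1 ((hf k).1 x)).1
    · have h3 : (fun k => (f k (star x * x)).im) = fun _ => (0 : ℝ) :=
        funext fun k => ((Complex.le_def.1 ((hf k).1 x)).2).symm
      have h4 := hψim (star x * x)
      rw [h3] at h4
      exact tendsto_nhds_unique tendsto_const_nhds h4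
  · exact ge_of_tendsto' (hψre _) fun k => (hf k).2.1
  · refine le_of_tendsto (hψre _) ?_
    apply hU
    filter_upwards [Filter.eventually_ge_atTop ((i, ({u} : Finset (unitary A))))] with κ hκ
    exact (hf κ).2.2.2 i hκ.1 u (hκ.2 (Finset.mem_singleton_self u)) h h0 h1

end H504S
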