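import Pool.Agent.H504S.Defs
import Pool.Agent.H504S.TaskK

set_option autoImplicit false

namespace H504S

open H730HC Finset
open scoped ComplexConjugate ComplexOrder

universe u v

attribute [local instance] CStarAlgebra.spectralOrder CStarAlgebra.spectralOrderedRing

variable {A : Type u} [CStarAlgebra A]

/-- cut-down `(1 + l h)⁻¹` -/
theorem I_cut (h : A) (hh : 0 ≤ h) (l : ℝ) (hl : 0 < l) : ∃ e : A, 0 ≤ e ∧ e ≤ 1 ∧ 1 - e ≤ l • h ∧
    ∀ z : A, star z * z ≤ h → ‖z * e‖ ^ 2 ≤ 1 / l := by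
  have hsa : IsSelfAdjoint h := IsSelfAdjoint.of_nonneg hh
  have hsp : ∀ x ∈ spectrum ℝ h, 0 ≤ x := fun x hx => spectrum_nonneg_of_nonneg hh hx
  have hc1 : ContinuousOn (fun x : ℝ => (1 + l * x)⁻¹) (spectrum ℝ h) := by
    apply ContinuousOn.inv₀ (by fun_prop)
    intro x hx
    have := mul_nonneg hl.le (hsp x hx)
    positivity
  refine ⟨cfc (fun x : ℝ => (1 + l * x)⁻¹) h, ?_, ?_, ?_, ?_⟩
  · apply cfc_nonneg
    intro x hx
    have := mul_nonneg hl.le (hsp x hx)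
    positivity
  · apply cfc_le_one
    intro x hx
    have := mul_nonneg hl.le (hsp x hx)
    exact inv_le_one_of_one_le₀ (by linarith)
  · have h1 : (1 : A) - cfc (fun x : ℝ => (1 + l * x)⁻¹) h = cfc (fun x : ℝ => 1 - (1 + l * x)⁻¹) h := by
      rw [cfc_sub (fun _ : ℝ => (1:ℝ)) (fun x : ℝ => (1 + l * x)⁻¹) h (by fun_prop) hc1, cfc_const_one ℝ h]
    have h2 : l • h = cfc (fun x : ℝ => l * x) h := by
      rw [cfc_const_mul l (fun x => x) h, cfc_id' ℝ h]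
    rw [h1, h2]
    refine cfc_mono (f := fun x : ℝ => 1 - (1 + l * x)⁻¹) (g := fun x : ℝ => l * x) (a := h) ?_
      (continuousOn_const.sub hc1) (continuousOn_const.mul continuousOn_id)
    intro x hx
    have h3 := mul_nonneg hl.le (hsp x hx)
    have h4 : (1 + l * x)⁻¹ * (1 + l * x) = 1 := inv_mul_cancel₀ (by positivity)
    have h5 : 0 ≤ (1 + l * x)⁻¹ := by positivity
    show 1 - (1 + l * x)⁻¹ ≤ l * x
    nlinarith
  · intro z hz
    set e := cfc (fun x : ℝ => (1 + l * x)⁻¹) h with he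
    have hesa : IsSelfAdjoint e := cfc_predicate _ _
    have h1 : e * h * e = cfc (fun x : ℝ => (1 + l * x)⁻¹ * x * (1 + l * x)⁻¹) h := by
      rw [cfc_mul (fun x : ℝ => (1 + l * x)⁻¹ * x) (fun x : ℝ => (1 + l * x)⁻¹) h
        (hc1.mul continuousOn_id) hc1,
        cfc_mul (fun x : ℝ => (1 + l * x)⁻¹) (fun x : ℝ => x) h hc1 continuousOn_id, cfc_id' ℝ h]
    have h2 : ‖e * h * e‖ ≤ 1 / l := by
      rw [h1]
      apply norm_cfc_le (by positivity)
      intro x hx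
      have h3 := mul_nonneg hl.le (hsp x hx)
      have h4 : (1 + l * x)⁻¹ * (1 + l * x) = 1 := inv_mul_cancel₀ (by positivity)
      have h5 : 0 ≤ (1 + l * x)⁻¹ := by positivity
      have h6 : (1 + l * x)⁻¹ ≤ 1 := inv_le_one_of_one_le₀ (by linarith)
      rw [Real.norm_eq_abs, abs_of_nonneg (by have := hsp x hx; positivity), le_div_iff₀ hl]
      have h7 : (1 + l * x)⁻¹ * (l * x) ≤ 1 := by nlinarith
      calc (1 + l * x)⁻¹ * x * (1 + l * x)⁻¹ * l = ((1 + l * x)⁻¹ * (l * x)) * (1 + l * x)⁻¹ := by ring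
        _ ≤ 1 * 1 := by
            apply mul_le_mul h7 h6 h5 (by norm_num)
        _ = 1 := by norm_num
    have h3 : star (z * e) * (z * e) ≤ e * h * e := by
      have h4 := star_left_conjugate_le_conjugate hz e
      rw [hesa.star_eq] at h4
      rw [star_mul, hesa.star_eq]
      calc e * star z * (z * e) = e * (star z * z) * e := by noncomm_ring
        _ ≤ _ := h4
    calc ‖z * e‖ ^ 2 = ‖star (z * e) * (z * e)‖ := by rw [CStarRing.norm_star_mul_self]; ring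
      _ ≤ ‖e * h * e‖ := CStarAlgebra.norm_le_norm_of_nonneg_of_le (star_mul_self_nonneg _) h3
      _ ≤ _ := h2

theorem InfT_zero : InfT (0 : A →L[ℂ] ℂ) := by
  intro τ hτ ε hε
  refine ⟨1, zero_le_one' A, le_rfl, ?_, fun y => ?_⟩
  · simp [hε.le]
  · simp only [zero_apply, norm_zero]
    positivity

theorem I_conj_bounds (u : unitary A) (D : A) (h0 : 0 ≤ D) (h1 : D ≤ 1) :
    0 ≤ star (u : A) * D * (u : A) ∧ star (u : A) * D * (u : A) ≤ 1 := by
  refine ⟨star_left_conjugate_nonneg h0 _, ?_⟩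
  have := star_left_conjugate_le_conjugate h1 (u : A)
  rwa [mul_one, Unitary.star_mul_self_of_mem u.2] at this

theorem InfT_cju (u : unitary A) (φ : A →L[ℂ] ℂ) (hφ : InfT φ) : InfT (cju u φ) := by
  intro τ hτ ε hε
  obtain ⟨D, h0, h1, h2, h3⟩ := hφ τ hτ ε hε
  refine ⟨star (u : A) * D * (u : A), (I_conj_bounds u D h0 h1).1, (I_conj_bounds u D h0 h1).2, ?_, ?_⟩
  · have h4 : (1 : A) - star (u : A) * D * (u : A) = star (u : A) * ((1 - D) * (u : A)) := by
      have := Unitary.star_mul_self_of_mem u.2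
      calc _ = star (u : A) * (u : A) - star (u : A) * D * (u : A) := by rw [this]
        _ = _ := by noncomm_ring
    rw [h4, hτ.2, mul_assoc, Unitary.mul_star_self_of_mem u.2, mul_one]
    exact h2
  · intro y
    rw [cju_apply]
    have h4 : (u : A) * (star (u : A) * D * (u : A) * y) * star (u : A) =
        D * ((u : A) * y * star (u : A)) := by
      have := Unitary.mul_star_self_of_mem u.2
      calc _ = ((u : A) * star (u : A)) * (D * ((u : A) * y * star (u : A))) := by noncomm_ring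
        _ = _ := by rw [this, one_mul]
    rw [h4]
    refine (h3 _).trans ?_
    have h5 : ‖(u : A) * y * star (u : A)‖ ≤ ‖y‖ := R06_norm_conj u y
    exact mul_le_mul_of_nonneg_left h5 hε.le

theorem InfT_smul (c : ℂ) (φ : A →L[ℂ] ℂ) (hφ : InfT φ) : InfT (c • φ) := by
  intro τ hτ ε hε
  obtain ⟨D, h0, h1, h2, h3⟩ := hφ τ hτ (ε / (1 + ‖c‖)) (by positivity)
  have hle : ε / (1 + ‖c‖) ≤ ε := div_le_self hε.le (by linarith [norm_nonneg c])
  refine ⟨D, h0, h1, h2.trans hle, fun y => ?_⟩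
  rw [smul_apply, norm_smul]
  have hc : ‖c‖ * (ε / (1 + ‖c‖)) ≤ ε := by
    rw [mul_div_assoc', div_le_iff₀ (by positivity)]
    nlinarith [norm_nonneg c]
  calc ‖c‖ * ‖φ (D * y)‖ ≤ ‖c‖ * (ε / (1 + ‖c‖) * ‖y‖) :=
        mul_le_mul_of_nonneg_left (h3 y) (norm_nonneg _)
    _ = ‖c‖ * (ε / (1 + ‖c‖)) * ‖y‖ := by ring
    _ ≤ ε * ‖y‖ := mul_le_mul_of_nonneg_right hc (norm_nonneg _)

theorem I_sq_le (a : A) (h0 : 0 ≤ a) (h1 : a ≤ 1) : star a * a ≤ a := by
  rw [(IsSelfAdjoint.of_nonneg h0).star_eq]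
  have h2 := CStarAlgebra.pow_antitone h0 h1 (show 1 ≤ 2 by norm_num)
  simpa [pow_two] using h2

theorem InfT_add (φ ψ : A →L[ℂ] ℂ) (hφ : InfT φ) (hψ : InfT ψ) : InfT (φ + ψ) := by
  intro τ hτ ε hε
  obtain ⟨M, hM⟩ : ∃ M : ℝ, M = ‖φ‖ + ‖ψ‖ + 1 := ⟨_, rfl⟩
  have hM1 : 1 ≤ M := by rw [hM]; linarith [norm_nonneg φ, norm_nonneg ψ]
  obtain ⟨l, hl⟩ : ∃ l : ℝ, l = (4 * M / ε) ^ 2 := ⟨_, rfl⟩
  have hl0 : 0 < l := by rw [hl]; positivity
  have hs : Real.sqrt (1 / l) = ε / (4 * M) := by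
    rw [show 1 / l = (ε / (4 * M)) ^ 2 by rw [hl]; field_simp, Real.sqrt_sq (by positivity)]
  obtain ⟨δ, hδ⟩ : ∃ δ : ℝ, δ = min (ε / 4) (ε / (2 * l)) := ⟨_, rfl⟩
  have hδ0 : 0 < δ := by rw [hδ]; positivity
  have hδ1 : δ ≤ ε / 4 := by rw [hδ]; exact min_le_left _ _
  have hδ2 : l * (2 * δ) ≤ ε := by
    have : δ ≤ ε / (2 * l) := by rw [hδ]; exact min_le_right _ _
    rw [le_div_iff₀ (by positivity)] at this
    linarith
  obtain ⟨D, h0, h1, h2, h3⟩ := hφ τ hτ δ hδ0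
  obtain ⟨E, g0, g1, g2, g3⟩ := hψ τ hτ δ hδ0
  have a0 : 0 ≤ 1 - D := sub_nonneg.2 h1
  have a1 : 1 - D ≤ 1 := sub_le_self _ h0
  have b0 : 0 ≤ 1 - E := sub_nonneg.2 g1
  have b1 : 1 - E ≤ 1 := sub_le_self _ g0
  have hh : 0 ≤ (1 - D) + (1 - E) := add_nonneg a0 b0
  obtain ⟨e, e0, e1, e2, e3⟩ := I_cut _ hh l hl0
  have hz1 := e3 (1 - D) ((I_sq_le _ a0 a1).trans (le_add_of_nonneg_right b0))
  have hz2 := e3 (1 - E) ((I_sq_le _ b0 b1).trans (le_add_of_nonneg_left a0))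
  have hz1' : ‖(1 - D) * e‖ ≤ ε / (4 * M) := by
    rw [← hs]; exact Real.le_sqrt_of_sq_le hz1
  have hz2' : ‖(1 - E) * e‖ ≤ ε / (4 * M) := by
    rw [← hs]; exact Real.le_sqrt_of_sq_le hz2
  have hen : ‖e‖ ≤ 1 := by
    have := CStarAlgebra.norm_le_norm_of_nonneg_of_le e0 e1
    exact this.trans R16_one
  refine ⟨e, e0, e1, ?_, fun y => ?_⟩
  · have h4 := K_mono τ hτ.1 e2
    have h5 : (τ (l • ((1 - D) + (1 - E)))).re = l * ((τ (1 - D)).re + (τ (1 - E)).re) := by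
      rw [← Complex.coe_smul, map_smul, smul_eq_mul, Complex.re_ofReal_mul, map_add, Complex.add_re]
    rw [h5] at h4
    refine h4.trans (le_trans ?_ hδ2)
    apply mul_le_mul_of_nonneg_left _ hl0.le
    linarith
  · have key : ∀ (χ : A →L[ℂ] ℂ) (D' : A), ‖χ‖ ≤ M → (∀ y, ‖χ (D' * y)‖ ≤ δ * ‖y‖) →
        ‖(1 - D') * e‖ ≤ ε / (4 * M) → ‖χ (e * y)‖ ≤ ε / 2 * ‖y‖ := by
      intro χ D' hχ h6 h7
      have h8 : e * y = D' * (e * y) + (1 - D') * e * y := by noncomm_ring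
      rw [h8, map_add]
      have h9 : ‖χ (D' * (e * y))‖ ≤ ε / 4 * ‖y‖ := by
        refine (h6 _).trans ?_
        have : ‖e * y‖ ≤ ‖y‖ := (norm_mul_le _ _).trans (by nlinarith [norm_nonneg y])
        calc δ * ‖e * y‖ ≤ δ * ‖y‖ := mul_le_mul_of_nonneg_left this hδ0.le
          _ ≤ _ := mul_le_mul_of_nonneg_right hδ1 (norm_nonneg _)
      have h10 : ‖χ ((1 - D') * e * y)‖ ≤ ε / 4 * ‖y‖ := by
        calc ‖χ ((1 - D') * e * y)‖ ≤ ‖χ‖ * ‖(1 - D') * e * y‖ := χ.le_opNorm _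
          _ ≤ M * (ε / (4 * M) * ‖y‖) := by
              apply mul_le_mul hχ _ (norm_nonneg _) (by linarith)
              exact (norm_mul_le _ _).trans (mul_le_mul_of_nonneg_right h7 (norm_nonneg _))
          _ = ε / 4 * ‖y‖ := by field_simp
      calc _ ≤ ‖χ (D' * (e * y))‖ + ‖χ ((1 - D') * e * y)‖ := norm_add_le _ _
        _ ≤ _ := by linarith
    have k1 := key φ D (by rw [hM]; linarith [norm_nonneg ψ]) h3 hz1'
    have k2 := key ψ E (by rw [hM]; linarith [norm_nonneg φ]) g3 hz2'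
    rw [add_apply]
    calc _ ≤ ‖φ (e * y)‖ + ‖ψ (e * y)‖ := norm_add_le _ _
      _ ≤ _ := by linarith

theorem InfT_sum {ι : Type v} (S : Finset ι) (f : ι → (A →L[ℂ] ℂ)) (h : ∀ i ∈ S, InfT (f i)) :
    InfT (∑ i ∈ S, f i) := by
  classical
  induction S using Finset.induction_on with
  | empty => simpa using InfT_zero
  | insert j s hj ih =>
    rw [Finset.sum_insert hj]
    exact InfT_add _ _ (h j (Finset.mem_insert_self j s)) (ih fun i hi => h i (Finset.mem_insert_of_mem hi))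

theorem InfT_Cone (R R' : A →L[ℂ] ℂ) (h : InfT R) (hc : Cone R R') : InfT R' := by
  obtain ⟨S, k, _, rfl⟩ := hc
  exact InfT_sum S _ fun u _ => InfT_smul _ _ (InfT_cju u R h)

theorem I_pos_cju (u : unitary A) (R : A →L[ℂ] ℂ) (h : IsPos R) : IsPos (cju u R) := by
  intro x
  rw [cju_apply]
  have : (u : A) * (star x * x) * star (u : A) = star (x * star (u : A)) * (x * star (u : A)) := by
    rw [star_mul, star_star]
    noncomm_ring
  rw [this]
  exact h _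

theorem IsPos_Cone (R R' : A →L[ℂ] ℂ) (h : IsPos R) (hc : Cone R R') : IsPos R' := by
  obtain ⟨S, k, hk, rfl⟩ := hc
  intro x
  rw [_root_.sum_apply]
  apply Finset.sum_nonneg
  intro u _
  rw [smul_apply, smul_eq_mul]
  exact mul_nonneg (by exact_mod_cast hk u) (I_pos_cju u R h x)

end H504S
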