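import Pool.Agent.H504S.Defs

/-! TASK J: extraction of a uniformly dominated part -/

set_option autoImplicit false

namespace H504S

open H730HC Finset
open scoped ComplexConjugate ComplexOrder

universe u v

attribute [local instance] CStarAlgebra.spectralOrder CStarAlgebra.spectralOrderedRing

variable {A : Type u} [CStarAlgebra A]

theorem J_nonneg {ρ : A →L[ℂ] ℂ} (hρ : IsPos ρ) {a : A} (ha : 0 ≤ a) : 0 ≤ (ρ a).re := by
  obtain ⟨b, hb⟩ := CStarAlgebra.nonneg_iff_eq_star_mul_self.mp ha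
  rw [hb]
  have := hρ b
  rw [Complex.nonneg_iff] at this
  exact this.1

theorem J_mono {ρ : A →L[ℂ] ℂ} (hρ : IsPos ρ) {a b : A} (hab : a ≤ b) : (ρ a).re ≤ (ρ b).re := by
  have h := J_nonneg hρ (sub_nonneg.mpr hab)
  rw [map_sub, Complex.sub_re] at h
  linarith

theorem J_conj_nonneg {a : A} (ha : 0 ≤ a) (b : A) : 0 ≤ star b * a * b :=
  star_left_conjugate_nonneg ha b

theorem J_conj_nonneg' {a : A} (ha : 0 ≤ a) (b : A) : 0 ≤ b * a * star b :=
  star_right_conjugate_nonneg ha b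

theorem J_unit_mul (u : unitary A) : star (u : A) * (u : A) = 1 := Unitary.coe_star_mul_self u

theorem J_mul_unit (u : unitary A) : (u : A) * star (u : A) = 1 := Unitary.coe_mul_star_self u

theorem J_cju_pos {R : A →L[ℂ] ℂ} (hR : IsPos R) (w : unitary A) : IsPos (cju w R) := by
  intro x
  rw [cju_apply]
  have h := hR (x * star (w : A))
  have e : star (x * star (w : A)) * (x * star (w : A)) = (w : A) * (star x * x) * star (w : A) := by
    rw [star_mul, star_star]; simp only [mul_assoc]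
  rwa [e] at h

theorem J_IsPos_Cone (R R' : A →L[ℂ] ℂ) (h : IsPos R) (hc : Cone R R') : IsPos R' := by
  obtain ⟨S, k, hk, rfl⟩ := hc
  intro x
  rw [_root_.sum_apply]
  apply Finset.sum_nonneg
  intro w _
  rw [_root_.smul_apply, smul_eq_mul]
  apply mul_nonneg
  · exact_mod_cast hk w
  · exact J_cju_pos h w x

theorem J_Cone_self (R : A →L[ℂ] ℂ) : Cone R R := by
  refine ⟨{1}, fun _ => 1, fun _ => zero_le_one, ?_⟩
  rw [Finset.sum_singleton]
  ext x
  rw [_root_.smul_apply, cju_apply]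
  simp

theorem J_Cone_zero (R : A →L[ℂ] ℂ) : Cone R 0 :=
  ⟨∅, fun _ => 0, fun _ => le_refl _, by simp⟩

theorem J_Cone_add {R R1 R2 : A →L[ℂ] ℂ} (h1 : Cone R R1) (h2 : Cone R R2) : Cone R (R1 + R2) := by
  classical
  obtain ⟨S1, k1, hk1, rfl⟩ := h1
  obtain ⟨S2, k2, hk2, rfl⟩ := h2
  refine ⟨S1 ∪ S2, fun w => (if w ∈ S1 then k1 w else 0) + (if w ∈ S2 then k2 w else 0), ?_, ?_⟩
  · intro w
    have := hk1 w
    have := hk2 w
    positivity
  · have e : ∀ w : unitary A, ((((if w ∈ S1 then k1 w else 0) + (if w ∈ S2 then k2 w else 0) : ℝ) : ℂ)) • cju w R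
        = (if w ∈ S1 then ((k1 w : ℝ) : ℂ) • cju w R else 0) + (if w ∈ S2 then ((k2 w : ℝ) : ℂ) • cju w R else 0) := by
      intro w
      have hadd : ∀ a b : ℂ, (a + b) • cju w R = a • cju w R + b • cju w R :=
        fun a b => by
          ext x
          rw [_root_.add_apply, _root_.smul_apply, _root_.smul_apply, _root_.smul_apply,
            smul_eq_mul, smul_eq_mul, smul_eq_mul, add_mul]
      have hz : (0 : ℂ) • cju w R = 0 := by
        ext x
        rw [_root_.smul_apply, smul_eq_mul, zero_mul, _root_.zero_apply]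
      rw [Complex.ofReal_add]
      refine (hadd _ _).trans ?_
      congr 1
      · split_ifs
        · rfl
        · rw [Complex.ofReal_zero]; exact hz
      · split_ifs
        · rfl
        · rw [Complex.ofReal_zero]; exact hz
    simp only [e]
    rw [Finset.sum_add_distrib, Finset.sum_ite_mem, Finset.sum_ite_mem]
    congr 1
    · congr 1
      ext w; simp
    · congr 1
      ext w; simp

theorem J_Cone_smul {R R1 : A →L[ℂ] ℂ} (h1 : Cone R R1) (c : ℝ) (hc : 0 ≤ c) :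
    Cone R ((c : ℂ) • R1) := by
  obtain ⟨S1, k1, hk1, rfl⟩ := h1
  refine ⟨S1, fun w => c * k1 w, fun w => mul_nonneg hc (hk1 w), ?_⟩
  rw [Finset.smul_sum]
  apply Finset.sum_congr rfl
  intro w _
  rw [smul_smul]
  push_cast
  rfl

theorem J_Cone_sum {ι : Type v} {R : A →L[ℂ] ℂ} (S : Finset ι) (f : ι → (A →L[ℂ] ℂ))
    (h : ∀ i ∈ S, Cone R (f i)) : Cone R (∑ i ∈ S, f i) := by
  classical
  induction S using Finset.induction_on with
  | empty => simpa using J_Cone_zero R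
  | insert a s ha ih =>
    rw [Finset.sum_insert ha]
    exact J_Cone_add (h a (Finset.mem_insert_self a s))
      (ih (fun i hi => h i (Finset.mem_insert_of_mem hi)))

theorem J_cju_cju (w u : unitary A) (φ : A →L[ℂ] ℂ) : cju w (cju u φ) = cju (u * w) φ := by
  ext x
  rw [cju_apply, cju_apply, cju_apply]
  congr 1
  simp [mul_assoc]

theorem J_Cone_cju {R R1 : A →L[ℂ] ℂ} (h1 : Cone R R1) (w : unitary A) : Cone R (cju w R1) := by
  classical
  obtain ⟨S1, k1, hk1, rfl⟩ := h1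
  have e : cju w (∑ u ∈ S1, ((k1 u : ℝ) : ℂ) • cju u R) = ∑ u ∈ S1, ((k1 u : ℝ) : ℂ) • cju (u * w) R := by
    ext x
    rw [cju_apply, _root_.sum_apply, _root_.sum_apply]
    apply Finset.sum_congr rfl
    intro u _
    rw [_root_.smul_apply, _root_.smul_apply, ← J_cju_cju, cju_apply w]
  rw [e]
  apply J_Cone_sum
  intro u _
  exact J_Cone_smul ⟨{u * w}, fun _ => 1, fun _ => zero_le_one, by simp⟩ _ (hk1 u)

/-- the basic estimate -/
theorem J_est (S : A →L[ℂ] ℂ) (hS : IsPos S) (h0 g : A) (hh0 : 0 ≤ h0) (hh1 : h0 ≤ 1) (hg0 : 0 ≤ g)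
    (hg1 : g ≤ 1) (t : ℝ) (ht : 0 < t) :
    (S ((1 - h0) * g * (1 - h0))).re ≤ (S g).re + t * (S 1).re + (1 + t⁻¹) * (S h0).re := by
  have hsa : star h0 = h0 := (IsSelfAdjoint.of_nonneg hh0).star_eq
  have key : 0 ≤ star ((t : ℂ) • (1 : A) + h0) * g * ((t : ℂ) • (1 : A) + h0) := J_conj_nonneg hg0 _
  have e1 : star ((t : ℂ) • (1 : A) + h0) * g * ((t : ℂ) • (1 : A) + h0)
      = ((t : ℂ) * (t : ℂ)) • g + (t : ℂ) • (h0 * g + g * h0) + h0 * g * h0 := by
    rw [star_add, hsa, star_smul, star_one]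
    have : star (t : ℂ) = (t : ℂ) := by simp
    rw [this]
    simp only [add_mul, mul_add, smul_mul_assoc, mul_smul_comm, one_mul, mul_one, smul_smul, smul_add]
    abel
  rw [e1] at key
  have k1 := J_nonneg hS key
  have e2 : (1 - h0) * g * (1 - h0) = g - (h0 * g + g * h0) + h0 * g * h0 := by
    noncomm_ring
  rw [e2]
  simp only [map_add, map_sub, map_smul, smul_eq_mul, Complex.add_re, Complex.sub_re] at k1 ⊢
  rw [← Complex.ofReal_mul, Complex.re_ofReal_mul, Complex.re_ofReal_mul, Complex.add_re] at k1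
  have h2 : (S (h0 * g * h0)).re ≤ (S h0).re := by
    apply J_mono hS
    have q1 : h0 * g * h0 ≤ h0 * h0 := by
      have := J_conj_nonneg (sub_nonneg.mpr hg1) h0
      rw [hsa] at this
      have e3 : h0 * (1 - g) * h0 = h0 * h0 - h0 * g * h0 := by noncomm_ring
      rw [e3] at this
      exact sub_nonneg.mp this
    have q2 : h0 * h0 ≤ h0 := by
      have hc : Commute h0 (1 - h0) := by
        rw [commute_iff_eq]; noncomm_ring
      have := hc.mul_nonneg hh0 (sub_nonneg.mpr hh1)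
      rw [mul_sub, mul_one] at this
      exact sub_nonneg.mp this
    exact q1.trans q2
  have h3 : (S g).re ≤ (S 1).re := J_mono hS hg1
  have h4 : 0 ≤ (S (h0 * g * h0)).re := by
    apply J_nonneg hS
    have := J_conj_nonneg hg0 h0
    rwa [hsa] at this
  have hti : t⁻¹ * t = 1 := inv_mul_cancel₀ ht.ne'
  have k2 : 0 ≤ t⁻¹ * (t * t * (S g).re + t * ((S (h0 * g)).re + (S (g * h0)).re) + (S (h0 * g * h0)).re) :=
    mul_nonneg (inv_nonneg.mpr ht.le) k1
  have k3 : t⁻¹ * (t * t * (S g).re + t * ((S (h0 * g)).re + (S (g * h0)).re) + (S (h0 * g * h0)).re)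
      = t * (S g).re + ((S (h0 * g)).re + (S (g * h0)).re) + t⁻¹ * (S (h0 * g * h0)).re := by
    field_simp
  rw [k3] at k2
  have k4 : t * (S g).re ≤ t * (S 1).re := mul_le_mul_of_nonneg_left h3 ht.le
  have k5 : t⁻¹ * (S (h0 * g * h0)).re ≤ t⁻¹ * (S h0).re :=
    mul_le_mul_of_nonneg_left h2 (inv_nonneg.mpr ht.le)
  nlinarith

/-- `x ↦ ρ (v* q x q v)` -/
noncomputable def Jρ (ρ : A →L[ℂ] ℂ) (b : A) : A →L[ℂ] ℂ := ra (la b ρ) (star b)

theorem Jρ_apply (ρ : A →L[ℂ] ℂ) (b x : A) : Jρ ρ b x = ρ (star b * x * b) := rfl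

theorem Jρ_pos {ρ : A →L[ℂ] ℂ} (hρ : IsPos ρ) (b : A) : IsPos (Jρ ρ b) := by
  intro x
  rw [Jρ_apply]
  have h := hρ (x * b)
  have e : star (x * b) * (x * b) = star b * (star x * x) * b := by
    rw [star_mul]; simp only [mul_assoc]
  rwa [e] at h

theorem V1 (ρ R : A →L[ℂ] ℂ) (hρ : IsPos ρ) (hR : IsPos R) (c : ℝ) (hc : 0 < c)
    (hcc : ∀ (v : unitary A) (h : A), 0 ≤ h → h ≤ 1 →
      c ≤ (ρ (star (v : A) * (1 - h) * (v : A))).re + (R h).re) :
    ∃ Rs : ℕ → (A →L[ℂ] ℂ), (∀ i, Cone R (Rs i)) ∧ ∀ (n : ℕ) (F : Finset (unitary A)),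
      ∃ ρ1 : A →L[ℂ] ℂ, IsPos ρ1 ∧ c / 2 ≤ (ρ1 1).re ∧ (ρ1 1).re ≤ (ρ 1).re ∧
        ∀ i ≤ n, ∀ u ∈ F, ∀ h : A, 0 ≤ h → h ≤ 1 →
          (ρ1 (star (u : A) * h * (u : A))).re ≤ (Rs i h).re + 2 / ((i : ℝ) + 1) := by
  classical
  set T : Set ℝ := {s | ∃ R' : A →L[ℂ] ℂ, Cone R R' ∧ ∀ (v : unitary A) (h : A), 0 ≤ h → h ≤ 1 →
      s ≤ (ρ (star (v : A) * (1 - h) * (v : A))).re + (R' h).re} with hT
  have hcT : c ∈ T := ⟨R, J_Cone_self R, hcc⟩
  have hbdd : BddAbove T := by
    refine ⟨(ρ 1).re, ?_⟩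
    rintro s ⟨R', _, h'⟩
    have := h' 1 0 le_rfl zero_le_one
    simpa using this
  have hne : T.Nonempty := ⟨c, hcT⟩
  set M : ℝ := sSup T with hM
  have hcM : c ≤ M := le_csSup hbdd hcT
  have hMpos : 0 < M := lt_of_lt_of_le hc hcM
  have hex : ∀ i : ℕ, ∃ R' : A →L[ℂ] ℂ, Cone R R' ∧ ∀ (v : unitary A) (h : A), 0 ≤ h → h ≤ 1 →
      M - 1 / ((i : ℝ) + 1) ≤ (ρ (star (v : A) * (1 - h) * (v : A))).re + (R' h).re := by
    intro i
    have hi : M - 1 / ((i : ℝ) + 1) < sSup T := by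
      have : 0 < 1 / ((i : ℝ) + 1) := by positivity
      linarith
    obtain ⟨s, ⟨R', h1, h2⟩, hs⟩ := exists_lt_of_lt_csSup hne hi
    exact ⟨R', h1, fun v h hh0 hh1 => hs.le.trans (h2 v h hh0 hh1)⟩
  choose Rs hRs1 hRs2 using hex
  refine ⟨Rs, hRs1, ?_⟩
  intro n F
  have hRspos : ∀ i, IsPos (Rs i) := fun i => J_IsPos_Cone R _ hR (hRs1 i)
  -- constants
  set ε : ℝ := 1 / ((n : ℝ) + 1) with hε
  have hεpos : 0 < ε := by positivity
  set B : ℝ := ∑ i ∈ range (n + 1), (Rs i 1).re with hB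
  have hBi : ∀ i ≤ n, (Rs i 1).re ≤ B := by
    intro i hi
    apply Finset.single_le_sum (f := fun i => (Rs i 1).re)
    · intro j _
      exact J_nonneg (hRspos j) zero_le_one
    · exact Finset.mem_range.mpr (by omega)
  have hB0 : 0 ≤ B := Finset.sum_nonneg (fun j _ => J_nonneg (hRspos j) zero_le_one)
  set t : ℝ := ε / (4 * (B + 1)) with ht
  have htpos : 0 < t := by positivity
  set Q : ℝ := M + ε / 4 with hQ
  have hQpos : 0 < Q := by positivity
  obtain ⟨Λ, hΛpos, hΛ1, hΛ2⟩ : ∃ Λ : ℝ, 0 < Λ ∧ Q / Λ * (3 + t⁻¹) ≤ ε / 4 ∧ Q / Λ * (3 + t⁻¹) ≤ c / 2 := by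
    refine ⟨Q * (3 + t⁻¹) * (4 / ε + 2 / c), by positivity, ?_, ?_⟩
    · have h1 : Q / (Q * (3 + t⁻¹) * (4 / ε + 2 / c)) * (3 + t⁻¹) = 1 / (4 / ε + 2 / c) := by
        have : (3 + t⁻¹) ≠ 0 := by positivity
        have : (4 / ε + 2 / c) ≠ 0 := by positivity
        field_simp
      rw [h1]
      have h2 : ε / 4 = 1 / (4 / ε) := by field_simp
      rw [h2]
      apply one_div_le_one_div_of_le (by positivity)
      have : 0 < 2 / c := by positivity
      linarith
    · have h1 : Q / (Q * (3 + t⁻¹) * (4 / ε + 2 / c)) * (3 + t⁻¹) = 1 / (4 / ε + 2 / c) := by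
        have : (3 + t⁻¹) ≠ 0 := by positivity
        have : (4 / ε + 2 / c) ≠ 0 := by positivity
        field_simp
      rw [h1]
      have h2 : c / 2 = 1 / (2 / c) := by field_simp
      rw [h2]
      apply one_div_le_one_div_of_le (by positivity)
      have : 0 < 4 / ε := by positivity
      linarith
  set R1 : A →L[ℂ] ℂ := R + ∑ i ∈ range (n + 1), ∑ u ∈ F, cju u (Rs i) with hR1
  set R2 : A →L[ℂ] ℂ := (Λ : ℂ) • R1 with hR2
  have hR2c : Cone R R2 := by
    apply J_Cone_smul _ _ hΛpos.le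
    apply J_Cone_add (J_Cone_self R)
    apply J_Cone_sum
    intro i _
    apply J_Cone_sum
    intro u _
    exact J_Cone_cju (hRs1 i) u
  have hnot : Q ∉ T := by
    intro hQT
    have := le_csSup hbdd hQT
    have : 0 < ε / 4 := by positivity
    linarith
  obtain ⟨v0, h0, hh0, hh1, hlt⟩ : ∃ (v : unitary A) (h : A), 0 ≤ h ∧ h ≤ 1 ∧
      (ρ (star (v : A) * (1 - h) * (v : A))).re + (R2 h).re < Q := by
    by_contra hcon
    push Not at hcon
    exact hnot ⟨R2, hR2c, hcon⟩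
  have hsa : star h0 = h0 := (IsSelfAdjoint.of_nonneg hh0).star_eq
  have hq0 : 0 ≤ 1 - h0 := sub_nonneg.mpr hh1
  have hsq : star (1 - h0) = 1 - h0 := by rw [star_sub, star_one, hsa]
  -- values
  have hR2h : (R2 h0).re = Λ * (R1 h0).re := by
    rw [hR2, _root_.smul_apply, smul_eq_mul, Complex.re_ofReal_mul]
  have hR1h : (R1 h0).re = (R h0).re + ∑ i ∈ range (n + 1), ∑ u ∈ F, (cju u (Rs i) h0).re := by
    rw [hR1, _root_.add_apply, Complex.add_re, _root_.sum_apply,
      Complex.re_sum]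
    congr 1
    apply Finset.sum_congr rfl
    intro i _
    rw [_root_.sum_apply, Complex.re_sum]
  have hnn : ∀ i, ∀ u : unitary A, 0 ≤ (cju u (Rs i) h0).re := fun i u =>
    J_nonneg (J_cju_pos (hRspos i) u) hh0
  have hRh0 : 0 ≤ (R h0).re := J_nonneg hR hh0
  have hρ00 : 0 ≤ (ρ (star (v0 : A) * (1 - h0) * (v0 : A))).re :=
    J_nonneg hρ (J_conj_nonneg hq0 _)
  have hR1b : (R1 h0).re ≤ Q / Λ := by
    rw [le_div_iff₀ hΛpos]
    nlinarith
  have hR1nn : 0 ≤ (R1 h0).re := by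
    rw [hR1h]
    exact add_nonneg hRh0 (Finset.sum_nonneg fun i _ => Finset.sum_nonneg fun u _ => hnn i u)
  have hRb : (R h0).re ≤ Q / Λ := by
    have : 0 ≤ ∑ i ∈ range (n + 1), ∑ u ∈ F, (cju u (Rs i) h0).re :=
      Finset.sum_nonneg fun i _ => Finset.sum_nonneg fun u _ => hnn i u
    linarith
  have hRib : ∀ i ≤ n, ∀ u ∈ F, (cju u (Rs i) h0).re ≤ Q / Λ := by
    intro i hi u hu
    have s1 : (cju u (Rs i) h0).re ≤ ∑ u ∈ F, (cju u (Rs i) h0).re :=
      Finset.single_le_sum (f := fun u => (cju u (Rs i) h0).re) (fun u _ => hnn i u) hu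
    have s2 : ∑ u ∈ F, (cju u (Rs i) h0).re ≤ ∑ i ∈ range (n + 1), ∑ u ∈ F, (cju u (Rs i) h0).re :=
      Finset.single_le_sum (f := fun i => ∑ u ∈ F, (cju u (Rs i) h0).re)
        (fun i _ => Finset.sum_nonneg fun u _ => hnn i u) (Finset.mem_range.mpr (by omega))
    linarith
  have hρq : (ρ (star (v0 : A) * (1 - h0) * (v0 : A))).re ≤ Q := by
    have : 0 ≤ (R2 h0).re := by rw [hR2h]; positivity
    linarith
  -- `(1-h0)^2 ≤ 1-h0` and `1 - (1-h0)^2 ≤ 2 h0`
  have hqq : (1 - h0) * (1 - h0) ≤ 1 - h0 := by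
    have hcm : Commute (1 - h0) h0 := by
      rw [commute_iff_eq]; noncomm_ring
    have := hcm.mul_nonneg hq0 hh0
    have e : (1 - h0) * h0 = (1 - h0) - (1 - h0) * (1 - h0) := by noncomm_ring
    rw [e] at this
    exact sub_nonneg.mp this
  have hq1 : 1 - h0 ≤ 1 := by
    rw [sub_le_self_iff]; exact hh0
  have hqqnn : 0 ≤ (1 - h0) * (1 - h0) := by
    have := star_mul_self_nonneg (1 - h0)
    rwa [hsq] at this
  have h2h0 : 1 - (1 - h0) * (1 - h0) ≤ h0 + h0 := by
    have h' : 0 ≤ h0 * h0 := by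
      have := star_mul_self_nonneg h0
      rwa [hsa] at this
    have e : h0 + h0 - (1 - (1 - h0) * (1 - h0)) = h0 * h0 := by noncomm_ring
    rw [← sub_nonneg, e]; exact h'
  -- the functional
  refine ⟨Jρ ρ ((1 - h0) * (v0 : A)), Jρ_pos hρ _, ?_, ?_, ?_⟩
  · rw [Jρ_apply]
    have e : star ((1 - h0) * (v0 : A)) * 1 * ((1 - h0) * (v0 : A))
        = star (v0 : A) * (1 - (1 - (1 - h0) * (1 - h0))) * (v0 : A) := by
      rw [star_mul, hsq]; noncomm_ring
    rw [e]
    have h1 := hcc v0 (1 - (1 - h0) * (1 - h0)) (sub_nonneg.mpr (hqq.trans hq1))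
      (by rw [sub_le_self_iff]; exact hqqnn)
    have h2 := J_mono hR h2h0
    rw [map_add, Complex.add_re] at h2
    have h3 : Q / Λ * 2 ≤ Q / Λ * (3 + t⁻¹) := by
      apply mul_le_mul_of_nonneg_left _ (by positivity)
      have : 0 < t⁻¹ := by positivity
      linarith
    linarith
  · rw [Jρ_apply]
    apply J_mono hρ
    have e : star ((1 - h0) * (v0 : A)) * 1 * ((1 - h0) * (v0 : A))
        = star (v0 : A) * ((1 - h0) * (1 - h0)) * (v0 : A) := by
      rw [star_mul, hsq]; noncomm_ring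
    rw [e]
    have := J_conj_nonneg (sub_nonneg.mpr (hqq.trans hq1)) (v0 : A)
    have e2 : star (v0 : A) * (1 - (1 - h0) * (1 - h0)) * (v0 : A)
        = 1 - star (v0 : A) * ((1 - h0) * (1 - h0)) * (v0 : A) := by
      rw [mul_sub, sub_mul, mul_one, J_unit_mul]
    rw [e2] at this
    exact sub_nonneg.mp this
  · intro i hi u hu h hnn0 hnn1
    set g : A := star (u : A) * h * (u : A) with hg
    have hg0 : 0 ≤ g := J_conj_nonneg hnn0 _
    have hg1 : g ≤ 1 := by
      have := J_conj_nonneg (sub_nonneg.mpr hnn1) (u : A)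
      rw [mul_sub, sub_mul, mul_one, J_unit_mul] at this
      exact sub_nonneg.mp this
    have hgh : (u : A) * g * star (u : A) = h := by
      rw [hg]
      calc (u : A) * (star (u : A) * h * (u : A)) * star (u : A)
          = ((u : A) * star (u : A)) * h * ((u : A) * star (u : A)) := by noncomm_ring
        _ = h := by rw [J_mul_unit]; simp
    -- the test element
    set k : A := 1 - (1 - h0) * (1 - g) * (1 - h0) with hk
    have hmid0 : 0 ≤ (1 - h0) * (1 - g) * (1 - h0) := by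
      have := J_conj_nonneg (sub_nonneg.mpr hg1) (1 - h0)
      rwa [hsq] at this
    have hmid1 : (1 - h0) * (1 - g) * (1 - h0) ≤ 1 := by
      have h1 := J_conj_nonneg hg0 (1 - h0)
      rw [hsq] at h1
      have e : (1 - h0) * g * (1 - h0) = (1 - h0) * (1 - h0) - (1 - h0) * (1 - g) * (1 - h0) := by
        noncomm_ring
      rw [e] at h1
      exact (sub_nonneg.mp h1).trans (hqq.trans hq1)
    have hk0 : 0 ≤ k := sub_nonneg.mpr hmid1
    have hk1 : k ≤ 1 := by rw [hk, sub_le_self_iff]; exact hmid0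
    have hk2 : 0 ≤ (u : A) * k * star (u : A) := J_conj_nonneg' hk0 _
    have hk3 : (u : A) * k * star (u : A) ≤ 1 := by
      have := J_conj_nonneg' (sub_nonneg.mpr hk1) (u : A)
      rw [mul_sub, sub_mul, mul_one, J_mul_unit] at this
      exact sub_nonneg.mp this
    have h1 := hRs2 i (u * v0) ((u : A) * k * star (u : A)) hk2 hk3
    have e1 : star ((u * v0 : unitary A) : A) * (1 - (u : A) * k * star (u : A)) * ((u * v0 : unitary A) : A)
        = star (v0 : A) * ((1 - h0) * (1 - h0)) * (v0 : A)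
          - star ((1 - h0) * (v0 : A)) * g * ((1 - h0) * (v0 : A)) := by
      have e0 : ((u * v0 : unitary A) : A) = (u : A) * (v0 : A) := rfl
      rw [e0, star_mul, star_mul, hsq]
      calc star (v0 : A) * star (u : A) * (1 - (u : A) * k * star (u : A)) * ((u : A) * (v0 : A))
          = star (v0 : A) * (star (u : A) * (u : A)) * (v0 : A)
            - star (v0 : A) * (star (u : A) * (u : A)) * k * (star (u : A) * (u : A)) * (v0 : A) := by
              noncomm_ring
        _ = star (v0 : A) * (1 - k) * (v0 : A) := by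
              rw [J_unit_mul]; noncomm_ring
        _ = _ := by
              rw [hk]; noncomm_ring
    rw [e1] at h1
    have e2 : (Rs i ((u : A) * k * star (u : A))) = cju u (Rs i) k := (cju_apply u (Rs i) k).symm
    rw [e2] at h1
    have e3 : k = (1 - (1 - h0) * (1 - h0)) + (1 - h0) * g * (1 - h0) := by
      rw [hk]; noncomm_ring
    have h2 : (cju u (Rs i) k).re = (cju u (Rs i) (1 - (1 - h0) * (1 - h0))).re
        + (cju u (Rs i) ((1 - h0) * g * (1 - h0))).re := by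
      rw [e3, map_add, Complex.add_re]
    have hS := J_cju_pos (hRspos i) u
    have h3 := J_mono hS h2h0
    rw [map_add, Complex.add_re] at h3
    have h4 := J_est (cju u (Rs i)) hS h0 g hh0 hh1 hg0 hg1 t htpos
    have h5 : (cju u (Rs i) g).re = (Rs i h).re := by rw [cju_apply, hgh]
    have h6 : (cju u (Rs i) 1).re = (Rs i 1).re := by
      rw [cju_apply, mul_one, J_mul_unit]
    have h7 := hRib i hi u hu
    have h8 := hBi i hi
    rw [map_sub, Complex.sub_re] at h1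
    have h9 : (ρ (star (v0 : A) * ((1 - h0) * (1 - h0)) * (v0 : A))).re ≤ Q := by
      refine le_trans (J_mono hρ ?_) hρq
      have := J_conj_nonneg (sub_nonneg.mpr hqq) (v0 : A)
      rw [mul_sub, sub_mul] at this
      exact sub_nonneg.mp this
    rw [Jρ_apply]
    rw [h5, h6] at h4
    have h10 : t * (Rs i 1).re ≤ ε / 4 := by
      have a1 : t * (Rs i 1).re ≤ t * (B + 1) :=
        mul_le_mul_of_nonneg_left (by linarith) htpos.le
      have a2 : t * (B + 1) = ε / 4 := by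
        rw [ht]; field_simp
      linarith
    have h11 : (3 + t⁻¹) * (cju u (Rs i) h0).re ≤ ε / 4 := by
      have a1 : (3 + t⁻¹) * (cju u (Rs i) h0).re ≤ (3 + t⁻¹) * (Q / Λ) :=
        mul_le_mul_of_nonneg_left h7 (by positivity)
      linarith [hΛ1, mul_comm (3 + t⁻¹) (Q / Λ)]
    have h12 : ε ≤ 1 / ((i : ℝ) + 1) := by
      rw [hε]
      apply one_div_le_one_div_of_le (by positivity)
      have : (i : ℝ) ≤ (n : ℝ) := by exact_mod_cast hi
      linarith
    have h13 : 2 / ((i : ℝ) + 1) = 1 / ((i : ℝ) + 1) + 1 / ((i : ℝ) + 1) := by ring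
    rw [h13]
    rw [hQ] at h9
    nlinarith

end H504S
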