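import Pool.Agent.H504S.Defs

set_option autoImplicit false

namespace H504S

open H730HC Finset
open scoped ComplexConjugate ComplexOrder

universe u v

attribute [local instance] CStarAlgebra.spectralOrder CStarAlgebra.spectralOrderedRing

variable {A : Type u} [CStarAlgebra A]

/-- positive functionals as positive linear maps -/
noncomputable def L_plm (ρ : A →L[ℂ] ℂ) (hρ : IsPos ρ) : A →ₚ[ℂ] ℂ :=
  PositiveLinearMap.mk₀ (ρ : A →ₗ[ℂ] ℂ) (fun x hx => by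
    obtain ⟨y, rfl⟩ := CStarAlgebra.nonneg_iff_eq_star_mul_self.mp hx
    exact hρ y)

theorem L_cs (ρ : A →L[ℂ] ℂ) (hρ : IsPos ρ) (a b : A) :
    ‖ρ (star a * b)‖ ≤ Real.sqrt ((ρ (star a * a)).re) * Real.sqrt ((ρ (star b * b)).re) := by
  have h := norm_inner_le_norm (𝕜 := ℂ) ((L_plm ρ hρ).toPreGNS a) ((L_plm ρ hρ).toPreGNS b)
  rw [PositiveLinearMap.preGNS_inner_def, PositiveLinearMap.preGNS_norm_def,
    PositiveLinearMap.preGNS_norm_def] at h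
  exact h

theorem L_norm_conj (v : unitary A) (x : A) : ‖(v : A) * x * star (v : A)‖ ≤ ‖x‖ := R06_norm_conj v x

theorem L_norm_cju (v : unitary A) (φ : A →L[ℂ] ℂ) : ‖cju v φ‖ ≤ ‖φ‖ := R06_norm φ v

theorem L_pos_cju (v : unitary A) (φ : A →L[ℂ] ℂ) (h : IsPos φ) : IsPos (cju v φ) := by
  intro x
  rw [cju_apply]
  have h1 : (v : A) * (star x * x) * star (v : A) =
      star (x * star (v : A)) * (x * star (v : A)) := by
    simp only [star_mul, star_star, mul_assoc]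
  rw [h1]
  exact h _

theorem L_cju_cju (v w : unitary A) (φ : A →L[ℂ] ℂ) : cju v (cju w φ) = cju (w * v) φ := by
  ext x
  simp only [cju_apply, Submonoid.coe_mul, star_mul, mul_assoc]

theorem L_cju_one (φ : A →L[ℂ] ℂ) : cju 1 φ = φ := by
  ext x
  simp [cju_apply]

theorem L_cju_lin (v : unitary A) (a b : ℝ) (φ ψ : A →L[ℂ] ℂ) :
    cju v (a • φ + b • ψ) = a • cju v φ + b • cju v ψ := by
  ext x
  simp [cju_apply]

/-- the constraints -/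
def L_Q (ψ : A →L[ℂ] ℂ) (Rs : ℕ → (A →L[ℂ] ℂ)) : Set (A →L[ℂ] ℂ) :=
  {φ | IsPos φ ∧ φ 1 = ψ 1 ∧ ‖φ‖ ≤ ‖ψ‖ ∧ ∀ (i : ℕ) (h : A), 0 ≤ h → h ≤ 1 →
    (φ h).re ≤ (Rs i h).re + 2 / ((i : ℝ) + 1)}

theorem L_Q_convex (ψ : A →L[ℂ] ℂ) (Rs : ℕ → (A →L[ℂ] ℂ)) : Convex ℝ (L_Q ψ Rs) := by
  rintro φ ⟨h1, h2, h3, h4⟩ φ' ⟨g1, g2, g3, g4⟩ a b ha hb hab
  refine ⟨fun x => ?_, ?_, ?_, fun i h hh0 hh1 => ?_⟩
  · have e : (a • φ + b • φ') (star x * x) = (a : ℂ) * φ (star x * x) + (b : ℂ) * φ' (star x * x) := by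
      simp
    rw [e]
    exact add_nonneg (mul_nonneg (by exact_mod_cast ha) (h1 x))
      (mul_nonneg (by exact_mod_cast hb) (g1 x))
  · have e : (a • φ + b • φ') 1 = (a : ℂ) * φ 1 + (b : ℂ) * φ' 1 := by simp
    rw [e, h2, g2, ← add_mul]
    have : (a : ℂ) + b = 1 := by exact_mod_cast hab
    rw [this, one_mul]
  · calc ‖a • φ + b • φ'‖ ≤ ‖a • φ‖ + ‖b • φ'‖ := norm_add_le _ _
      _ = a * ‖φ‖ + b * ‖φ'‖ := by
        rw [norm_smul, norm_smul, Real.norm_of_nonneg ha, Real.norm_of_nonneg hb]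
      _ ≤ a * ‖ψ‖ + b * ‖ψ‖ := by gcongr
      _ = ‖ψ‖ := by rw [← add_mul, hab, one_mul]
  · have e : ((a • φ + b • φ') h).re = a * (φ h).re + b * (φ' h).re := by simp
    rw [e]
    have k1 := mul_le_mul_of_nonneg_left (h4 i h hh0 hh1) ha
    have k2 := mul_le_mul_of_nonneg_left (g4 i h hh0 hh1) hb
    have : a * ((Rs i h).re + 2 / ((i : ℝ) + 1)) + b * ((Rs i h).re + 2 / ((i : ℝ) + 1)) =
        (Rs i h).re + 2 / ((i : ℝ) + 1) := by rw [← add_mul, hab, one_mul]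
    linarith

/-- the orbit hull -/
def L_co (ψ : A →L[ℂ] ℂ) : Set (A →L[ℂ] ℂ) := convexHull ℝ (Set.range fun w : unitary A => cju w ψ)

theorem L_co_convex (ψ : A →L[ℂ] ℂ) : Convex ℝ (L_co ψ) := convex_convexHull ℝ _

theorem L_mem_co (ψ : A →L[ℂ] ℂ) : ψ ∈ L_co ψ :=
  subset_convexHull ℝ _ ⟨1, L_cju_one ψ⟩

theorem L_co_cju (ψ φ : A →L[ℂ] ℂ) (h : φ ∈ L_co ψ) (v : unitary A) : cju v φ ∈ L_co ψ := by
  have h1 : L_co ψ ⊆ {φ | cju v φ ∈ L_co ψ} := by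
    apply convexHull_min
    · rintro _ ⟨w, rfl⟩
      show cju v (cju w ψ) ∈ L_co ψ
      rw [L_cju_cju]
      exact subset_convexHull ℝ _ ⟨w * v, rfl⟩
    · intro x hx y hy a b ha hb hab
      show cju v (a • x + b • y) ∈ L_co ψ
      rw [L_cju_lin]
      exact L_co_convex ψ hx hy ha hb hab
  exact h1 h

theorem L_co_Q (ψ : A →L[ℂ] ℂ) (hψ : IsPos ψ) (Rs : ℕ → (A →L[ℂ] ℂ))
    (hd : ∀ (i : ℕ) (u : unitary A) (h : A), 0 ≤ h → h ≤ 1 →
        (ψ (star (u : A) * h * (u : A))).re ≤ (Rs i h).re + 2 / ((i : ℝ) + 1)) :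
    L_co ψ ⊆ L_Q ψ Rs := by
  apply convexHull_min _ (L_Q_convex ψ Rs)
  rintro _ ⟨w, rfl⟩
  refine ⟨L_pos_cju w ψ hψ, ?_, L_norm_cju w ψ, fun i h h0 h1 => ?_⟩
  · show cju w ψ 1 = ψ 1
    rw [cju_apply, mul_one, Unitary.mul_star_self_of_mem w.2]
  · have := hd i (star w) h h0 h1
    rw [Unitary.coe_star, star_star] at this
    exact this

/-- statement of `close` -/
def L_close (A : Type u) [CStarAlgebra A] : Prop :=
  ∀ (N : ℕ) (B ε : ℝ) (_ : 0 < ε), ∃ δ : ℝ, 0 < δ ∧ δ ≤ 1 ∧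
    ∀ (ρ : A →L[ℂ] ℂ), IsPos ρ → (ρ 1).re ≤ B → ∀ (κ : ℝ), 0 ≤ κ → κ ≤ B →
    ∀ (W : Finset (unitary A)), W.card ≤ N → W.Nonempty → ∀ (ζ : unitary A → (A →L[ℂ] ℂ)),
    (∀ i ∈ W, ∀ x : A, ‖x‖ ≤ 1 → (ζ i x).re - (ρ (x * star x)).re ≤ κ + δ) →
    ∀ x0 : A, ‖x0‖ ≤ 1 →
    κ - δ ≤ (∑ i ∈ W, (ζ i x0).re) / (W.card : ℝ) - (ρ (x0 * star x0)).re →
    ∀ i ∈ W, ∀ j ∈ W, ∀ y : A,
      ‖ζ i ((1 - x0 * star x0) * y) - ζ j ((1 - x0 * star x0) * y)‖ ≤ ε * ‖y‖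

theorem L_nn (ρ : A →L[ℂ] ℂ) (hρ : IsPos ρ) (x : A) : 0 ≤ (ρ (x * star x)).re := by
  have := hρ (star x)
  rw [star_star] at this
  exact (Complex.nonneg_iff.mp this).1

theorem L_mul_star_nonneg (x : A) : 0 ≤ x * star x := by
  have := star_mul_self_nonneg (star x)
  rwa [star_star] at this

theorem L_mul_star_le (x : A) (hx : ‖x‖ ≤ 1) : x * star x ≤ 1 := by
  rw [← CStarAlgebra.norm_le_one_iff_of_nonneg _ (L_mul_star_nonneg x), CStarRing.norm_self_mul_star]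
  nlinarith [norm_nonneg x]

/-- bound for the small part -/
theorem L_small (ζ : A →L[ℂ] ℂ) (hζ : IsPos ζ) (M η : ℝ) (hM : ‖ζ‖ ≤ M) (x0 : A) (hx0 : ‖x0‖ ≤ 1)
    (hη : (ζ (x0 * star x0)).re ≤ η) (y : A) :
    ‖ζ (x0 * star x0 * y)‖ ≤ Real.sqrt (η * M) * ‖y‖ := by
  have h1 := L_cs ζ hζ (star x0) (star x0 * y)
  rw [star_star] at h1
  have hM0 : 0 ≤ M := (norm_nonneg _).trans hM
  have hη0 : 0 ≤ η := (L_nn ζ hζ x0).trans hη
  have h2 : ‖star x0 * y‖ ≤ ‖y‖ := by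
    calc ‖star x0 * y‖ ≤ ‖star x0‖ * ‖y‖ := norm_mul_le _ _
      _ ≤ 1 * ‖y‖ := by
        apply mul_le_mul_of_nonneg_right _ (norm_nonneg _)
        rw [norm_star]; exact hx0
      _ = ‖y‖ := one_mul _
  have h3 : (ζ (star (star x0 * y) * (star x0 * y))).re ≤ M * ‖y‖ ^ 2 := by
    calc (ζ (star (star x0 * y) * (star x0 * y))).re ≤ ‖ζ (star (star x0 * y) * (star x0 * y))‖ :=
          Complex.re_le_norm _
      _ ≤ ‖ζ‖ * ‖star (star x0 * y) * (star x0 * y)‖ := ζ.le_opNorm _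
      _ = ‖ζ‖ * (‖star x0 * y‖ * ‖star x0 * y‖) := by rw [CStarRing.norm_star_mul_self]
      _ ≤ M * (‖y‖ * ‖y‖) := by gcongr
      _ = M * ‖y‖ ^ 2 := by ring
  calc ‖ζ (x0 * star x0 * y)‖ = ‖ζ (x0 * (star x0 * y))‖ := by rw [mul_assoc]
    _ ≤ _ := h1
    _ ≤ Real.sqrt η * Real.sqrt (M * ‖y‖ ^ 2) := by
      apply mul_le_mul (Real.sqrt_le_sqrt hη) (Real.sqrt_le_sqrt h3) (Real.sqrt_nonneg _)
        (Real.sqrt_nonneg _)
    _ = Real.sqrt (η * M) * ‖y‖ := by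
      rw [Real.sqrt_mul hM0, Real.sqrt_sq (norm_nonneg _), ← mul_assoc, ← Real.sqrt_mul hη0]

/-- one approximation step -/
theorem L_step1 (hclose : L_close A) (ψ : A →L[ℂ] ℂ) (hψ : IsPos ψ) (Rs : ℕ → (A →L[ℂ] ℂ))
    (hRs : ∀ i, IsPos (Rs i))
    (hd : ∀ (i : ℕ) (u : unitary A) (h : A), 0 ≤ h → h ≤ 1 →
        (ψ (star (u : A) * h * (u : A))).re ≤ (Rs i h).re + 2 / ((i : ℝ) + 1))
    (W : Finset (unitary A)) (hW : W.Nonempty) (i : ℕ) (t ε : ℝ) (ht : 0 < t) (hε : 0 < ε) :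
    ∃ φ ∈ L_co ψ, ∀ w ∈ W, ∀ w' ∈ W, ∀ y : A,
      ‖cju w φ y - cju w' φ y‖ ≤
        (ε + 2 * Real.sqrt (((‖ψ‖ + 1) / t + 2 / ((i : ℝ) + 1)) * ‖ψ‖)) * ‖y‖ := by
  classical
  set ρ : A →L[ℂ] ℂ := (t : ℂ) • Rs i with hρdef
  have hρa : ∀ x, ρ x = (t : ℂ) * Rs i x := fun x => by simp [hρdef]
  have hρr : ∀ x, (ρ x).re = t * (Rs i x).re := fun x => by rw [hρa]; simp
  have hρ : IsPos ρ := fun x => by
    rw [hρa]
    exact mul_nonneg (by exact_mod_cast ht.le) (hRs i x)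
  obtain ⟨δ, hδ, hδ1, hcl⟩ := hclose W.card (‖ψ‖ + (ρ 1).re) ε hε
  have hρ1 : 0 ≤ (ρ 1).re := by
    have := L_nn ρ hρ 1
    simpa using this
  set S : Set ℝ := {κ | 0 ≤ κ ∧ ∃ φ ∈ L_co ψ, ∀ (u : unitary A) (x : A), ‖x‖ ≤ 1 →
    (cju u φ x).re - (ρ (x * star x)).re ≤ κ} with hS
  have hSne : ‖ψ‖ ∈ S := by
    refine ⟨norm_nonneg _, ψ, L_mem_co ψ, fun u x hx => ?_⟩
    have h1 : (cju u ψ x).re ≤ ‖ψ‖ := by
      calc (cju u ψ x).re ≤ ‖cju u ψ x‖ := Complex.re_le_norm _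
        _ ≤ ‖cju u ψ‖ * ‖x‖ := (cju u ψ).le_opNorm x
        _ ≤ ‖ψ‖ * 1 := by
          apply mul_le_mul (L_norm_cju u ψ) hx (norm_nonneg _) (norm_nonneg _)
        _ = ‖ψ‖ := mul_one _
    have h2 := L_nn ρ hρ x
    linarith
  have hSbd : BddBelow S := ⟨0, fun κ hκ => hκ.1⟩
  set κ := sInf S with hκdef
  have hκ0 : 0 ≤ κ := le_csInf ⟨_, hSne⟩ fun κ hκ => hκ.1
  have hκ1 : κ ≤ ‖ψ‖ := csInf_le hSbd hSne
  obtain ⟨κ', hκ'S, hκ'⟩ := exists_lt_of_csInf_lt ⟨_, hSne⟩ (show sInf S < κ + δ by linarith)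
  obtain ⟨-, φ, hφ, hφb⟩ := hκ'S
  have hcard : (0 : ℝ) < W.card := by exact_mod_cast hW.card_pos
  -- the average
  set χ : A →L[ℂ] ℂ := ∑ w ∈ W, ((W.card : ℝ)⁻¹) • cju w φ with hχ
  have hχco : χ ∈ L_co ψ := by
    apply (L_co_convex ψ).sum_mem
    · intro i _; positivity
    · rw [Finset.sum_const, nsmul_eq_mul]; field_simp
    · intro w _; exact L_co_cju ψ φ hφ w
  have hex : ∃ (u0 : unitary A) (x0 : A), ‖x0‖ ≤ 1 ∧
      κ - δ ≤ (cju u0 χ x0).re - (ρ (x0 * star x0)).re := by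
    by_contra hcon
    push Not at hcon
    have h0 := hcon 1 0 (by simp)
    simp only [map_zero, Complex.zero_re, zero_mul, sub_zero] at h0
    have hin : κ - δ ∈ S := ⟨h0.le, χ, hχco, fun u x hx => (hcon u x hx).le⟩
    have := csInf_le hSbd hin
    linarith
  obtain ⟨u0, x0, hx0, hval⟩ := hex
  have hco : ∀ w : unitary A, cju (w * u0) φ ∈ L_co ψ := fun w => L_co_cju ψ φ hφ _
  have hsum : ∀ x, (cju u0 χ x).re = (∑ w ∈ W, (cju (w * u0) φ x).re) / (W.card : ℝ) := by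
    intro x
    rw [cju_apply, hχ]
    simp only [_root_.sum_apply, smul_apply, Complex.re_sum,
      Complex.smul_re, smul_eq_mul]
    rw [← Finset.mul_sum, div_eq_inv_mul]
    congr 1
    apply Finset.sum_congr rfl
    intro w _
    rw [← L_cju_cju, cju_apply u0]
  have hmain := hcl ρ hρ (by linarith [norm_nonneg ψ]) κ hκ0 (by linarith) W le_rfl hW
    (fun w => cju (w * u0) φ)
    (fun w _ x hx => ((hφb (w * u0) x hx).trans hκ'.le)) x0 hx0 (by rw [← hsum]; exact hval)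
  have hQ := L_co_Q ψ hψ Rs hd
  -- the small part
  have hRx : (Rs i (x0 * star x0)).re ≤ (‖ψ‖ + 1) / t := by
    have h1 : (cju u0 χ x0).re ≤ ‖ψ‖ := by
      calc (cju u0 χ x0).re ≤ ‖cju u0 χ x0‖ := Complex.re_le_norm _
        _ ≤ ‖cju u0 χ‖ * ‖x0‖ := (cju u0 χ).le_opNorm x0
        _ ≤ ‖ψ‖ * 1 := by
          apply mul_le_mul ((L_norm_cju u0 χ).trans (hQ hχco).2.2.1) hx0 (norm_nonneg _)
            (norm_nonneg _)
        _ = ‖ψ‖ := mul_one _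
    have h2 := hρr (x0 * star x0)
    rw [le_div_iff₀ ht]
    linarith
  have hsm : ∀ w : unitary A, ∀ y, ‖cju (w * u0) φ (x0 * star x0 * y)‖ ≤
      Real.sqrt (((‖ψ‖ + 1) / t + 2 / ((i : ℝ) + 1)) * ‖ψ‖) * ‖y‖ := by
    intro w y
    have hq := hQ (hco w)
    refine L_small _ hq.1 _ _ hq.2.2.1 x0 hx0 ?_ y
    have := hq.2.2.2 i (x0 * star x0) (L_mul_star_nonneg x0) (L_mul_star_le x0 hx0)
    linarith
  refine ⟨φ, hφ, fun w hw w' hw' y => ?_⟩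
  set y' : A := star (u0 : A) * y * (u0 : A) with hy'
  have hy'n : ‖y'‖ ≤ ‖y‖ := by
    have := L_norm_conj (star u0) y
    rw [Unitary.coe_star, star_star] at this
    exact this
  have hconj : ∀ v : unitary A, cju (v * u0) φ y' = cju v φ y := by
    intro v
    rw [← L_cju_cju, cju_apply, hy']
    congr 1
    have h1 : (u0 : A) * star (u0 : A) = 1 := Unitary.mul_star_self_of_mem u0.2
    calc (u0 : A) * (star (u0 : A) * y * (u0 : A)) * star (u0 : A)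
        = ((u0 : A) * star (u0 : A)) * y * ((u0 : A) * star (u0 : A)) := by simp only [mul_assoc]
      _ = y := by rw [h1, one_mul, mul_one]
  have hsplit : ∀ v : unitary A, cju (v * u0) φ y' =
      cju (v * u0) φ ((1 - x0 * star x0) * y') + cju (v * u0) φ (x0 * star x0 * y') := by
    intro v
    rw [← map_add, ← add_mul, sub_add_cancel, one_mul]
  rw [← hconj w, ← hconj w', hsplit w, hsplit w']
  set s := Real.sqrt (((‖ψ‖ + 1) / t + 2 / ((i : ℝ) + 1)) * ‖ψ‖) with hs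
  have hs0 : 0 ≤ s := Real.sqrt_nonneg _
  have e : cju (w * u0) φ ((1 - x0 * star x0) * y') + cju (w * u0) φ (x0 * star x0 * y') -
      (cju (w' * u0) φ ((1 - x0 * star x0) * y') + cju (w' * u0) φ (x0 * star x0 * y')) =
      (cju (w * u0) φ ((1 - x0 * star x0) * y') - cju (w' * u0) φ ((1 - x0 * star x0) * y')) +
      (cju (w * u0) φ (x0 * star x0 * y') - cju (w' * u0) φ (x0 * star x0 * y')) := by ring
  rw [e]
  calc _ ≤ ‖cju (w * u0) φ ((1 - x0 * star x0) * y') - cju (w' * u0) φ ((1 - x0 * star x0) * y')‖ +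
        ‖cju (w * u0) φ (x0 * star x0 * y') - cju (w' * u0) φ (x0 * star x0 * y')‖ :=
        norm_add_le _ _
    _ ≤ ε * ‖y'‖ + (s * ‖y'‖ + s * ‖y'‖) := by
        apply add_le_add (hmain w hw w' hw' y')
        exact (norm_sub_le _ _).trans (add_le_add (hsm w y') (hsm w' y'))
    _ = (ε + 2 * s) * ‖y'‖ := by ring
    _ ≤ (ε + 2 * s) * ‖y‖ := mul_le_mul_of_nonneg_left hy'n (by positivity)

/-- almost invariant elements of the orbit hull -/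
theorem L_step2 (hclose : L_close A) (ψ : A →L[ℂ] ℂ) (hψ : IsPos ψ) (Rs : ℕ → (A →L[ℂ] ℂ))
    (hRs : ∀ i, IsPos (Rs i))
    (hd : ∀ (i : ℕ) (u : unitary A) (h : A), 0 ≤ h → h ≤ 1 →
        (ψ (star (u : A) * h * (u : A))).re ≤ (Rs i h).re + 2 / ((i : ℝ) + 1))
    (W : Finset (unitary A)) (ε : ℝ) (hε : 0 < ε) :
    ∃ φ ∈ L_co ψ, ∀ w ∈ W, ∀ y : A, ‖cju w φ y - φ y‖ ≤ ε * ‖y‖ := by
  classical
  obtain ⟨i, hi⟩ := exists_nat_gt (64 * ‖ψ‖ / ε ^ 2)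
  set t : ℝ := 32 * (‖ψ‖ + 1) ^ 2 / ε ^ 2 with ht
  have hψ0 := norm_nonneg ψ
  have ht0 : 0 < t := by positivity
  obtain ⟨φ, hφ, hφ2⟩ := L_step1 hclose ψ hψ Rs hRs hd (insert 1 W) (Finset.insert_nonempty _ _) i t
    (ε / 2) ht0 (by positivity)
  refine ⟨φ, hφ, fun w hw y => ?_⟩
  have h1 := hφ2 w (Finset.mem_insert_of_mem hw) 1 (Finset.mem_insert_self _ _) y
  rw [L_cju_one] at h1
  refine h1.trans (mul_le_mul_of_nonneg_right ?_ (norm_nonneg _))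
  have h2 : ((‖ψ‖ + 1) / t + 2 / ((i : ℝ) + 1)) * ‖ψ‖ ≤ (ε / 4) ^ 2 := by
    have h3 : (‖ψ‖ + 1) / t = ε ^ 2 / (32 * (‖ψ‖ + 1)) := by
      rw [ht]; field_simp
    have h4 : ε ^ 2 / (32 * (‖ψ‖ + 1)) * ‖ψ‖ ≤ ε ^ 2 / 32 := by
      rw [div_mul_eq_mul_div, div_le_div_iff₀ (by positivity) (by norm_num)]
      nlinarith [sq_nonneg ε]
    have h5 : 2 / ((i : ℝ) + 1) * ‖ψ‖ ≤ ε ^ 2 / 32 := by
      rw [div_mul_eq_mul_div, div_le_div_iff₀ (by positivity) (by norm_num)]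
      rw [div_lt_iff₀ (by positivity)] at hi
      nlinarith [sq_nonneg ε]
    rw [h3, add_mul]
    nlinarith
  have h6 : Real.sqrt (((‖ψ‖ + 1) / t + 2 / ((i : ℝ) + 1)) * ‖ψ‖) ≤ ε / 4 := by
    calc _ ≤ Real.sqrt ((ε / 4) ^ 2) := Real.sqrt_le_sqrt h2
      _ = ε / 4 := Real.sqrt_sq (by positivity)
  linarith

/-- the closed sets for the compactness argument -/
def L_T (ψ : A →L[ℂ] ℂ) (Rs : ℕ → (A →L[ℂ] ℂ)) (p : unitary A × ℕ) : Set (WeakDual ℂ A) :=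
  {f | (∀ x : A, 0 ≤ (f (star x * x)).re) ∧ (∀ x : A, (f (star x * x)).im = 0) ∧ f 1 = ψ 1 ∧
    (∀ (i : ℕ) (h : A), 0 ≤ h ∧ h ≤ 1 → (f h).re ≤ (Rs i h).re + 2 / ((i : ℝ) + 1)) ∧
    ∀ y : A, ‖f ((p.1 : A) * y * star (p.1 : A)) - f y‖ ≤ 1 / ((p.2 : ℝ) + 1) * ‖y‖}

theorem L_T_closed (ψ : A →L[ℂ] ℂ) (Rs : ℕ → (A →L[ℂ] ℂ)) (p : unitary A × ℕ) :
    IsClosed (L_T ψ Rs p) := by
  have hev : ∀ x : A, Continuous fun f : WeakDual ℂ A => f x := fun x => WeakDual.eval_continuous x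
  unfold L_T
  simp only [Set.ofPred_and, Set.ofPred_forall]
  refine IsClosed.inter ?_ (IsClosed.inter ?_ (IsClosed.inter ?_ (IsClosed.inter ?_ ?_)))
  · exact isClosed_iInter fun x => isClosed_le continuous_const (Complex.continuous_re.comp (hev _))
  · exact isClosed_iInter fun x => isClosed_eq (Complex.continuous_im.comp (hev _)) continuous_const
  · exact isClosed_eq (hev _) continuous_const
  · exact isClosed_iInter fun i => isClosed_iInter fun h => isClosed_iInter fun _ =>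
      isClosed_le (Complex.continuous_re.comp (hev _)) continuous_const
  · exact isClosed_iInter fun y => isClosed_le ((hev _).sub (hev _)).norm continuous_const

/-- TASK L, with the statement of `close` as a hypothesis -/
theorem V3_of_close (hclose : L_close A) (ψ : A →L[ℂ] ℂ) (hψ : IsPos ψ) (Rs : ℕ → (A →L[ℂ] ℂ))
    (hRs : ∀ i, IsPos (Rs i))
    (hd : ∀ (i : ℕ) (u : unitary A) (h : A), 0 ≤ h → h ≤ 1 →
        (ψ (star (u : A) * h * (u : A))).re ≤ (Rs i h).re + 2 / ((i : ℝ) + 1)) :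
    ∃ τ : A →L[ℂ] ℂ, IsPT τ ∧ (τ 1).re = (ψ 1).re ∧ ∀ (i : ℕ) (h : A), 0 ≤ h → h ≤ 1 →
      (τ h).re ≤ (Rs i h).re + 2 / ((i : ℝ) + 1) := by
  classical
  have hQ := L_co_Q ψ hψ Rs hd
  have hne : ((WeakDual.toStrongDual ⁻¹' Metric.closedBall (0 : StrongDual ℂ A) ‖ψ‖) ∩
      ⋂ p, L_T ψ Rs p).Nonempty := by
    apply (WeakDual.isCompact_closedBall (𝕜 := ℂ) (E := A) 0 ‖ψ‖).inter_iInter_nonempty _
      (L_T_closed ψ Rs)
    intro F
    set n := F.sup Prod.snd with hn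
    obtain ⟨φ, hφ, hφ2⟩ := L_step2 hclose ψ hψ Rs hRs hd (F.image Prod.fst) (1 / ((n : ℝ) + 1))
      (by positivity)
    have hq := hQ hφ
    refine ⟨StrongDual.toWeakDual φ, ?_, ?_⟩
    · show φ ∈ Metric.closedBall (0 : StrongDual ℂ A) ‖ψ‖
      rw [mem_closedBall_zero_iff]
      exact hq.2.2.1
    · simp only [Set.mem_iInter]
      intro p hp
      refine ⟨fun x => (Complex.nonneg_iff.mp (hq.1 x)).1,
        fun x => (Complex.nonneg_iff.mp (hq.1 x)).2.symm, hq.2.1,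
        fun i h hh => hq.2.2.2 i h hh.1 hh.2, fun y => ?_⟩
      have h1 := hφ2 p.1 (Finset.mem_image_of_mem _ hp) y
      refine (show ‖φ ((p.1 : A) * y * star (p.1 : A)) - φ y‖ ≤ _ from h1).trans ?_
      apply mul_le_mul_of_nonneg_right _ (norm_nonneg _)
      apply one_div_le_one_div_of_le (by positivity)
      have : p.2 ≤ n := Finset.le_sup (f := Prod.snd) hp
      have : (p.2 : ℝ) ≤ n := by exact_mod_cast this
      linarith
  obtain ⟨f, -, hf⟩ := hne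
  rw [Set.mem_iInter] at hf
  set τ : A →L[ℂ] ℂ := WeakDual.toStrongDual f with hτ
  have hτf : ∀ x, τ x = f x := fun x => rfl
  have h0 := hf (1, 0)
  have hinv : ∀ (u : unitary A) (y : A), τ ((u : A) * y * star (u : A)) = τ y := by
    intro u y
    rw [← sub_eq_zero, ← norm_le_zero_iff]
    apply le_of_forall_pos_le_add
    intro ε hε
    obtain ⟨n, hn⟩ := exists_nat_gt (‖y‖ / ε)
    have h1 := (hf (u, n)).2.2.2.2 y
    rw [zero_add]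
    refine h1.trans ?_
    rw [div_lt_iff₀ hε] at hn
    show 1 / ((n : ℝ) + 1) * ‖y‖ ≤ ε
    rw [div_mul_eq_mul_div, one_mul, div_le_iff₀ (by positivity)]
    nlinarith
  refine ⟨τ, ⟨fun x => ?_, IsTr_of_unitary τ hinv⟩, ?_, ?_⟩
  · rw [Complex.nonneg_iff]
    exact ⟨h0.1 x, (h0.2.1 x).symm⟩
  · show (f 1).re = _
    rw [h0.2.2.1]
  · intro i h hh0 hh1
    exact h0.2.2.2.1 i h ⟨hh0, hh1⟩

end H504S
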