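import Pool.Agent.H504S.Wire

set_option autoImplicit false

namespace H504S

open H730HC Finset
open scoped ComplexConjugate ComplexOrder

universe u v

attribute [local instance] CStarAlgebra.spectralOrder CStarAlgebra.spectralOrderedRing

variable {A : Type u} [CStarAlgebra A]

theorem vmove (ρ R : A →L[ℂ] ℂ) (hρ : IsPos ρ) (hR : IsPos R) (hRi : InfT R) (δ : ℝ) (hδ : 0 < δ) :
    ∃ (v : unitary A) (h : A), 0 ≤ h ∧ h ≤ 1 ∧
      (ρ (star (v : A) * (1 - h) * (v : A))).re + (R h).re ≤ δ := by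
  by_contra hcon
  push Not at hcon
  obtain ⟨Rs, hC, ψ, hψ, hmass, hd⟩ := V2 ρ R hρ hR δ hδ fun v h h0 h1 => (hcon v h h0 h1).le
  obtain ⟨τ, hτ, hτ1, hτd⟩ := V3 ψ hψ Rs (fun i => IsPos_Cone R (Rs i) hR (hC i)) hd
  obtain ⟨i, hi⟩ := exists_nat_gt (16 / δ)
  have hi0 : (0 : ℝ) < (i : ℝ) + 1 := by positivity
  have hi2 : 2 / ((i : ℝ) + 1) ≤ δ / 8 := by
    rw [div_le_iff₀ hi0]
    have : 16 < δ * i := by
      rw [div_lt_iff₀ hδ] at hi
      linarith
    nlinarith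
  obtain ⟨D, hD0, hD1, hDτ, hDR⟩ := InfT_Cone R (Rs i) hRi (hC i) τ hτ (δ / 16) (by positivity)
  have h1 := hτd i D hD0 hD1
  have h2 : (Rs i D).re ≤ δ / 16 := by
    have h3 := hDR 1
    rw [mul_one] at h3
    have h4 : ‖(1 : A)‖ ≤ 1 := R16_one
    have h5 : (Rs i D).re ≤ ‖Rs i D‖ := Complex.re_le_norm _
    nlinarith
  have h6 : (τ 1).re = (τ (1 - D)).re + (τ D).re := by
    rw [map_sub, Complex.sub_re]
    ring
  rw [hτ1] at h6
  linarith

end H504S
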