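import Pool.Agent.H504S.Defs

set_option autoImplicit false

namespace H504S

open H730HC Finset
open scoped ComplexConjugate ComplexOrder

universe u v

attribute [local instance] CStarAlgebra.spectralOrder CStarAlgebra.spectralOrderedRing

variable {A : Type u} [CStarAlgebra A]

theorem N_nonneg {ρ : A →L[ℂ] ℂ} (hρ : IsPos ρ) {a : A} (ha : 0 ≤ a) : 0 ≤ ρ a := by
  obtain ⟨b, rfl⟩ := CStarAlgebra.nonneg_iff_eq_star_mul_self.mp ha
  exact hρ b

theorem N_mono {ρ : A →L[ℂ] ℂ} (hρ : IsPos ρ) {a b : A} (h : a ≤ b) : (ρ a).re ≤ (ρ b).re := by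
  have h1 := N_nonneg hρ (sub_nonneg.mpr h)
  rw [map_sub] at h1
  have h2 := (Complex.le_def.mp h1).1
  simpa using h2

/-- row times column -/
theorem N_row (r : ℕ) (X z : ℕ → A) (hX : ∑ k ∈ range r, X k * star (X k) ≤ 1) :
    star (∑ k ∈ range r, X k * z k) * (∑ k ∈ range r, X k * z k) ≤
      ∑ k ∈ range r, star (z k) * z k := by
  set b := ∑ k ∈ range r, X k * z k with hb
  have h1 : 0 ≤ ∑ k ∈ range r, star (z k - star (X k) * b) * (z k - star (X k) * b) :=
    Finset.sum_nonneg (fun k _ => star_mul_self_nonneg _)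
  have h2 : 0 ≤ star b * (1 - ∑ k ∈ range r, X k * star (X k)) * b :=
    star_left_conjugate_nonneg (sub_nonneg.mpr hX) b
  have h3 : ∑ k ∈ range r, star (z k - star (X k) * b) * (z k - star (X k) * b) =
      ∑ k ∈ range r, star (z k) * z k - star b * b - star b * b +
        star b * (∑ k ∈ range r, X k * star (X k)) * b := by
    have e : ∀ k ∈ range r, star (z k - star (X k) * b) * (z k - star (X k) * b) =
        star (z k) * z k - star (X k * z k) * b - star b * (X k * z k) +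
          star b * (X k * star (X k)) * b := by
      intro k _
      simp only [star_sub, star_mul, star_star]
      noncomm_ring
    rw [Finset.sum_congr rfl e, Finset.sum_add_distrib, Finset.sum_sub_distrib,
      Finset.sum_sub_distrib, ← Finset.sum_mul, ← Finset.mul_sum, ← Finset.sum_mul,
      ← Finset.mul_sum, ← star_sum, ← hb]
  rw [h3] at h1
  have h4 : star b * (1 - ∑ k ∈ range r, X k * star (X k)) * b =
      star b * b - star b * (∑ k ∈ range r, X k * star (X k)) * b := by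
    noncomm_ring
  rw [h4] at h2
  have h5 := add_nonneg h1 h2
  have h6 : ∑ k ∈ range r, star (z k) * z k - star b * b - star b * b +
        star b * (∑ k ∈ range r, X k * star (X k)) * b +
        (star b * b - star b * (∑ k ∈ range r, X k * star (X k)) * b) =
      ∑ k ∈ range r, star (z k) * z k - star b * b := by abel
  rw [h6] at h5
  exact sub_nonneg.mp h5

theorem N_norm_row (r : ℕ) (X y : ℕ → A) (c : ℕ → ℂ) (hX : ∑ k ∈ range r, X k * star (X k) ≤ 1)
    (hy : ∀ k, ‖y k‖ ≤ 1) :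
    ‖∑ k ∈ range r, X k * (c k • y k)‖ ^ 2 ≤ ∑ k ∈ range r, ‖c k‖ ^ 2 := by
  set b := ∑ k ∈ range r, X k * (c k • y k) with hb
  have h1 : star b * b ≤ ∑ k ∈ range r, star (c k • y k) * (c k • y k) := N_row r X _ hX
  have h2 : ‖star b * b‖ ≤ ‖∑ k ∈ range r, star (c k • y k) * (c k • y k)‖ :=
    CStarAlgebra.norm_le_norm_of_nonneg_of_le (star_mul_self_nonneg b) h1
  rw [CStarRing.norm_star_mul_self] at h2
  calc ‖b‖ ^ 2 = ‖b‖ * ‖b‖ := by ring
    _ ≤ ‖∑ k ∈ range r, star (c k • y k) * (c k • y k)‖ := h2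
    _ ≤ ∑ k ∈ range r, ‖star (c k • y k) * (c k • y k)‖ := norm_sum_le _ _
    _ ≤ ∑ k ∈ range r, ‖c k‖ ^ 2 := by
        refine Finset.sum_le_sum (fun k _ => ?_)
        rw [CStarRing.norm_star_mul_self, norm_smul]
        have := hy k
        nlinarith [norm_nonneg (c k), norm_nonneg (y k), mul_le_of_le_one_right (norm_nonneg (c k)) this,
          mul_nonneg (norm_nonneg (c k)) (norm_nonneg (y k))]

theorem N_orth_pt (ψ : A →L[ℂ] ℂ) (r : ℕ) (X y : ℕ → A)
    (hX : ∑ k ∈ range r, X k * star (X k) ≤ 1) (hy : ∀ k, ‖y k‖ ≤ 1) :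
    ∑ k ∈ range r, ‖ψ (X k * y k)‖ ^ 2 ≤ ‖ψ‖ ^ 2 := by
  set c : ℕ → ℂ := fun k => conj (ψ (X k * y k)) with hc
  set S := ∑ k ∈ range r, ‖ψ (X k * y k)‖ ^ 2 with hS
  have hS0 : 0 ≤ S := Finset.sum_nonneg (fun k _ => by positivity)
  have h1 : ‖∑ k ∈ range r, X k * (c k • y k)‖ ^ 2 ≤ S := by
    refine (N_norm_row r X y c hX hy).trans (le_of_eq ?_)
    refine Finset.sum_congr rfl (fun k _ => ?_)
    simp [hc]
  have h2 : ψ (∑ k ∈ range r, X k * (c k • y k)) = (S : ℂ) := by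
    rw [map_sum, hS, Complex.ofReal_sum]
    refine Finset.sum_congr rfl (fun k _ => ?_)
    rw [mul_smul_comm, map_smul, smul_eq_mul, hc]
    simp only
    rw [mul_comm, Complex.mul_conj, Complex.normSq_eq_norm_sq]
  have h3 : S ≤ ‖ψ‖ * ‖∑ k ∈ range r, X k * (c k • y k)‖ := by
    have := ψ.le_opNorm (∑ k ∈ range r, X k * (c k • y k))
    rw [h2, Complex.norm_real, Real.norm_of_nonneg hS0] at this
    exact this
  set B := ‖∑ k ∈ range r, X k * (c k • y k)‖ with hB
  have hB0 : 0 ≤ B := norm_nonneg _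
  have hψ : 0 ≤ ‖ψ‖ := norm_nonneg _
  by_contra hcon
  push Not at hcon
  have h4 : S ^ 2 ≤ ‖ψ‖ ^ 2 * S := by
    calc S ^ 2 ≤ (‖ψ‖ * B) ^ 2 := by gcongr
      _ = ‖ψ‖ ^ 2 * B ^ 2 := by ring
      _ ≤ ‖ψ‖ ^ 2 * S := by gcongr
  have h5 : 0 < S := lt_of_le_of_lt (by positivity) hcon
  nlinarith

theorem orth (ψ : A →L[ℂ] ℂ) (r : ℕ) (X : ℕ → A) (hX : ∑ k ∈ range r, X k * star (X k) ≤ 1) :
    ∑ k ∈ range r, ‖ra ψ (X k)‖ ^ 2 ≤ ‖ψ‖ ^ 2 := by
  have key : ∀ t : ℝ, 0 < t → t < 1 → t ^ 2 * ∑ k ∈ range r, ‖ra ψ (X k)‖ ^ 2 ≤ ‖ψ‖ ^ 2 := by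
    intro t ht0 ht
    have hex : ∀ k, ∃ y : A, ‖y‖ ≤ 1 ∧ t * ‖ra ψ (X k)‖ ≤ ‖ψ (X k * y)‖ := by
      intro k
      by_cases h0 : ‖ra ψ (X k)‖ = 0
      · exact ⟨0, by simp, by rw [h0]; simp⟩
      · have hpos : 0 < ‖ra ψ (X k)‖ := lt_of_le_of_ne (norm_nonneg _) (Ne.symm h0)
        have hlt : t * ‖ra ψ (X k)‖ < ‖ra ψ (X k)‖ := by nlinarith
        obtain ⟨y, hy1, hy2⟩ := (ra ψ (X k)).exists_lt_apply_of_lt_opNorm hlt
        exact ⟨y, hy1.le, hy2.le⟩
    choose y hy1 hy2 using hex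
    calc t ^ 2 * ∑ k ∈ range r, ‖ra ψ (X k)‖ ^ 2 = ∑ k ∈ range r, (t * ‖ra ψ (X k)‖) ^ 2 := by
          rw [Finset.mul_sum]
          exact Finset.sum_congr rfl (fun k _ => by ring)
      _ ≤ ∑ k ∈ range r, ‖ψ (X k * y k)‖ ^ 2 := by
          refine Finset.sum_le_sum (fun k _ => ?_)
          have := hy2 k
          gcongr
      _ ≤ ‖ψ‖ ^ 2 := N_orth_pt ψ r X y hX hy1
  by_contra hcon
  push Not at hcon
  set S := ∑ k ∈ range r, ‖ra ψ (X k)‖ ^ 2 with hS
  have hSpos : 0 < S := lt_of_le_of_lt (by positivity) hcon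
  -- choose t with t ^ 2 * S > ‖ψ‖ ^ 2
  have hq : ‖ψ‖ ^ 2 / S < 1 := by rw [div_lt_one hSpos]; exact hcon
  set q := ‖ψ‖ ^ 2 / S with hqdef
  have hq0 : 0 ≤ q := by positivity
  have h1 := key ((1 + q) / 2) (by linarith) (by linarith)
  have h2 : ‖ψ‖ ^ 2 = q * S := by rw [hqdef]; field_simp
  rw [h2] at h1
  have h3 : ((1 + q) / 2) ^ 2 ≤ q := le_of_mul_le_mul_right h1 hSpos
  nlinarith [sq_nonneg (1 - q), sq_pos_of_pos (sub_pos.mpr hq)]

/-- the elements `(1-H_{r-1}) ⋯ (1-H_{k+1}) H_k` -/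
noncomputable def XX (H : ℕ → A) (k : ℕ) : ℕ → A
  | 0 => 0
  | r + 1 => if k = r then H r else if k < r then (1 - H r) * XX H k r else 0

theorem N_sq_le {h : A} (h0 : 0 ≤ h) (h1 : h ≤ 1) : h * h ≤ h := by
  have hsa : IsSelfAdjoint h := IsSelfAdjoint.of_nonneg h0
  have e : h - h * h = (1 - h) * h * (1 - h) + h * (1 - h) * h := by noncomm_ring
  have hsa' : IsSelfAdjoint (1 - h) := (IsSelfAdjoint.one A).sub hsa
  have a1 : 0 ≤ (1 - h) * h * (1 - h) := by
    have := star_left_conjugate_nonneg h0 (1 - h)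
    rwa [hsa'.star_eq] at this
  have a2 : 0 ≤ h * (1 - h) * h := by
    have := star_left_conjugate_nonneg (sub_nonneg.mpr h1) h
    rwa [hsa.star_eq] at this
  have := add_nonneg a1 a2
  rw [← e] at this
  exact sub_nonneg.mp this

theorem N_norm_le_one {h : A} (h0 : 0 ≤ h) (h1 : h ≤ 1) : ‖h‖ ≤ 1 := by
  have := CStarAlgebra.norm_le_norm_of_nonneg_of_le h0 h1
  refine this.trans ?_
  rcases subsingleton_or_nontrivial A with hs | hn
  · rw [Subsingleton.elim (1 : A) 0, norm_zero]; exact zero_le_one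
  · exact (CStarRing.norm_one (E := A)).le

theorem XX_row (H : ℕ → A) (hH : ∀ k, 0 ≤ H k ∧ H k ≤ 1) (r : ℕ) :
    ∑ k ∈ range r, XX H k r * star (XX H k r) ≤ 1 := by
  induction r with
  | zero => simp
  | succ r ih =>
    rw [Finset.sum_range_succ]
    have hsa : IsSelfAdjoint (H r) := IsSelfAdjoint.of_nonneg (hH r).1
    have hsa' : IsSelfAdjoint (1 - H r) := (IsSelfAdjoint.one A).sub hsa
    have e1 : ∑ k ∈ range r, XX H k (r + 1) * star (XX H k (r + 1)) =
        (1 - H r) * (∑ k ∈ range r, XX H k r * star (XX H k r)) * (1 - H r) := by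
      rw [Finset.mul_sum, Finset.sum_mul]
      refine Finset.sum_congr rfl (fun k hk => ?_)
      have hk' := Finset.mem_range.mp hk
      have : XX H k (r + 1) = (1 - H r) * XX H k r := by
        rw [XX, if_neg hk'.ne, if_pos hk']
      rw [this, star_mul, hsa'.star_eq]
      noncomm_ring
    have e2 : XX H r (r + 1) = H r := by rw [XX, if_pos rfl]
    rw [e1, e2, hsa.star_eq]
    have h1 : (1 - H r) * (∑ k ∈ range r, XX H k r * star (XX H k r)) * (1 - H r) ≤
        (1 - H r) * 1 * (1 - H r) := by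
      have := star_left_conjugate_le_conjugate ih (1 - H r)
      rwa [hsa'.star_eq] at this
    have h2 : (1 - H r) * 1 * (1 - H r) ≤ 1 - H r := by
      rw [mul_one]
      exact N_sq_le (sub_nonneg.mpr (hH r).2) (by simpa using (hH r).1)
    have h3 := N_sq_le (hH r).1 (hH r).2
    calc _ ≤ (1 - H r) + H r := add_le_add (h1.trans h2) h3
      _ = 1 := by abel

theorem XX_norm (H : ℕ → A) (hH : ∀ k, 0 ≤ H k ∧ H k ≤ 1) (k r : ℕ) : ‖XX H k r‖ ≤ 1 := by
  induction r with
  | zero => simp [XX]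
  | succ r ih =>
    rw [XX]
    split_ifs with h1 h2
    · exact N_norm_le_one (hH r).1 (hH r).2
    · refine (norm_mul_le _ _).trans ?_
      have := N_norm_le_one (sub_nonneg.mpr (hH r).2) (by simpa using (hH r).1 : 1 - H r ≤ 1)
      nlinarith [norm_nonneg (1 - H r), norm_nonneg (XX H k r)]
    · simp

theorem N_near_aux (H : ℕ → A) (hH : ∀ k, 0 ≤ H k ∧ H k ≤ 1) (ρ : A →L[ℂ] ℂ) (hρ : IsPos ρ) (k : ℕ)
    (δ : ℝ) (h1 : (ρ (1 - H k)).re ≤ δ) (m : ℕ)
    (h2 : ∀ j, k < j → j < k + 1 + m → (ρ (H j)).re ≤ δ) :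
    (ρ (star (1 - XX H k (k + 1 + m)) * (1 - XX H k (k + 1 + m)))).re ≤ ((m : ℝ) + 1) ^ 2 * δ := by
  induction m with
  | zero =>
    have e : XX H k (k + 1 + 0) = H k := by rw [add_zero, XX, if_pos rfl]
    have hsa' : IsSelfAdjoint (1 - H k) :=
      (IsSelfAdjoint.one A).sub (IsSelfAdjoint.of_nonneg (hH k).1)
    rw [e, hsa'.star_eq]
    have := N_mono hρ (N_sq_le (sub_nonneg.mpr (hH k).2) (by simpa using (hH k).1 : 1 - H k ≤ 1))
    simp only [Nat.cast_zero, zero_add, one_pow, one_mul]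
    exact this.trans h1
  | succ m ih =>
    have ih' := ih (fun j hj hj' => h2 j hj (by omega))
    set j := k + 1 + m with hj
    set Y := XX H k j with hY
    have e : XX H k (k + 1 + (m + 1)) = (1 - H j) * Y := by
      have : k + 1 + (m + 1) = j + 1 := by omega
      rw [this, XX, if_neg (by omega), if_pos (by omega)]
    have hj2 : (ρ (H j)).re ≤ δ := h2 j (by omega) (by omega)
    have hsa : IsSelfAdjoint (H j) := IsSelfAdjoint.of_nonneg (hH j).1
    have hsa' : IsSelfAdjoint (1 - H j) := (IsSelfAdjoint.one A).sub hsa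
    set b := (1 - H j) * (1 - Y) with hb
    have e2 : 1 - XX H k (k + 1 + (m + 1)) = H j + b := by
      rw [e, hb]; noncomm_ring
    rw [e2]
    -- M = m + 1
    set M : ℝ := (m : ℝ) + 1 with hM
    have hM0 : 0 < M := by positivity
    have hbb : (ρ (star b * b)).re ≤ M ^ 2 * δ := by
      have h3 : star b * b ≤ star (1 - Y) * (1 - Y) := by
        have e3 : star b * b = star (1 - Y) * ((1 - H j) * (1 - H j)) * (1 - Y) := by
          rw [hb, star_mul, hsa'.star_eq]; noncomm_ring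
        have h4 : (1 - H j) * (1 - H j) ≤ 1 :=
          (N_sq_le (sub_nonneg.mpr (hH j).2) (by simpa using (hH j).1)).trans
            (by simpa using (hH j).1)
        have h5 := star_left_conjugate_le_conjugate h4 (1 - Y)
        rw [mul_one] at h5
        rw [e3]; exact h5
      exact (N_mono hρ h3).trans ih'
    have haa : (ρ (H j * H j)).re ≤ δ := (N_mono hρ (N_sq_le (hH j).1 (hH j).2)).trans hj2
    -- cross terms
    have hcross : 0 ≤ (ρ (star (((M : ℝ) : ℂ) • H j - b) * (((M : ℝ) : ℂ) • H j - b))).re :=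
      (Complex.le_def.mp (hρ _)).1
    have ex : star (((M : ℝ) : ℂ) • H j - b) * (((M : ℝ) : ℂ) • H j - b) =
        ((M : ℂ) * M) • (H j * H j) - (M : ℂ) • (H j * b + star b * H j) + star b * b := by
      rw [star_sub, star_smul, hsa.star_eq, Complex.star_def, Complex.conj_ofReal]
      simp only [sub_mul, mul_sub, smul_mul_assoc, mul_smul_comm, smul_add, smul_sub, smul_smul]
      abel
    rw [ex, map_add, map_sub, map_smul, map_smul] at hcross
    have ey : star (H j + b) * (H j + b) = H j * H j + (H j * b + star b * H j) + star b * b := by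
      rw [star_add, hsa.star_eq]; noncomm_ring
    rw [ey, map_add, map_add]
    set p := (ρ (H j * H j)).re with hp
    set q := (ρ (H j * b + star b * H j)).re with hq
    set s := (ρ (star b * b)).re with hs
    have hc2 : 0 ≤ M * M * p - M * q + s := by
      have e5 : ((((M : ℂ) * M) • ρ (H j * H j) - (M : ℂ) • ρ (H j * b + star b * H j)
          + ρ (star b * b))).re = M * M * p - M * q + s := by
        simp only [Complex.add_re, Complex.sub_re, smul_eq_mul, ← Complex.ofReal_mul,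
          Complex.re_ofReal_mul]
        rw [hp, hq, hs]
      rw [← e5]; exact hcross
    have goal : (ρ (H j * H j) + ρ (H j * b + star b * H j) + ρ (star b * b)).re = p + q + s := by
      simp only [Complex.add_re, hp, hq, hs]
    rw [goal]
    have hMq : M * q ≤ M * M * p + s := by linarith
    have hq2 : q ≤ M * p + s / M := by
      have : q = (M * q) / M := by field_simp
      rw [this]
      calc (M * q) / M ≤ (M * M * p + s) / M := by gcongr
        _ = M * p + s / M := by field_simp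
    have hsM : s / M ≤ M * δ := by
      rw [div_le_iff₀ hM0]; nlinarith
    push_cast
    rw [← hM]
    nlinarith

theorem XX_near (H : ℕ → A) (hH : ∀ k, 0 ≤ H k ∧ H k ≤ 1) (ρ : A →L[ℂ] ℂ) (hρ : IsPos ρ) (k r : ℕ)
    (hk : k < r) (δ : ℝ) (h1 : (ρ (1 - H k)).re ≤ δ) (h2 : ∀ j, k < j → j < r → (ρ (H j)).re ≤ δ) :
    (ρ (star (1 - XX H k r) * (1 - XX H k r))).re ≤ (r : ℝ) ^ 2 * δ := by
  obtain ⟨m, rfl⟩ : ∃ m, r = k + 1 + m := ⟨r - (k + 1), by omega⟩
  refine (N_near_aux H hH ρ hρ k δ h1 m h2).trans ?_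
  have hδ : 0 ≤ δ := by
    have : 0 ≤ (ρ (1 - H k)).re :=
      (Complex.le_def.mp (N_nonneg hρ (sub_nonneg.mpr (hH k).2))).1
    exact this.trans h1
  have : ((m : ℝ) + 1) ^ 2 ≤ ((k + 1 + m : ℕ) : ℝ) ^ 2 := by
    push_cast
    have : (0 : ℝ) ≤ k := Nat.cast_nonneg k
    have : (0 : ℝ) ≤ m := Nat.cast_nonneg m
    nlinarith
  exact mul_le_mul_of_nonneg_right this hδ

end H504S
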