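import Pool.Agent.H504S.TaskN

set_option autoImplicit false

namespace H504S

open H730HC Finset
open scoped ComplexConjugate ComplexOrder

universe u v

attribute [local instance] CStarAlgebra.spectralOrder CStarAlgebra.spectralOrderedRing

variable {A : Type u} [CStarAlgebra A]

/-- the products `a_0 ⋯ a_{k-1}`, `a_i = v_i g_i v_i⁻¹` -/
noncomputable def O_L (v g : ℕ → unitary A) : ℕ → unitary A
  | 0 => 1
  | k + 1 => O_L v g k * (v k * g k * (v k)⁻¹)

theorem O_L_congr (v v' g g' : ℕ → unitary A) (k : ℕ) (h : ∀ i < k, v i = v' i)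
    (hg : ∀ i < k, g i = g' i) : O_L v g k = O_L v' g' k := by
  induction k with
  | zero => rfl
  | succ k ih =>
    rw [O_L, O_L, ih (fun i hi => h i (by omega)) (fun i hi => hg i (by omega)),
      h k (by omega), hg k (by omega)]

theorem O_T_congr (v g g' : ℕ → unitary A) (k : ℕ) (hg : ∀ i, i ≠ k → g i = g' i) (n : ℕ) :
    (O_L v g (k + 1))⁻¹ * O_L v g (k + 1 + n) = (O_L v g' (k + 1))⁻¹ * O_L v g' (k + 1 + n) := by
  induction n with
  | zero => simp
  | succ n ih =>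
    have e1 : O_L v g (k + 1 + (n + 1)) = O_L v g (k + 1 + n) *
        (v (k + 1 + n) * g (k + 1 + n) * (v (k + 1 + n))⁻¹) := rfl
    have e2 : O_L v g' (k + 1 + (n + 1)) = O_L v g' (k + 1 + n) *
        (v (k + 1 + n) * g' (k + 1 + n) * (v (k + 1 + n))⁻¹) := rfl
    rw [e1, e2, ← mul_assoc (O_L v g (k + 1))⁻¹, ← mul_assoc (O_L v g' (k + 1))⁻¹, ih,
      hg (k + 1 + n) (by omega)]

theorem O_coe_inv (u : unitary A) : ((u⁻¹ : unitary A) : A) = star (u : A) := rfl

theorem O_cju_pos (u : unitary A) {ρ : A →L[ℂ] ℂ} (hρ : IsPos ρ) : IsPos (cju u ρ) := by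
  intro x
  rw [cju_apply]
  have : (u : A) * (star x * x) * star (u : A) = star (x * star (u : A)) * (x * star (u : A)) := by
    simp only [star_mul, star_star, mul_assoc]
  rw [this]
  exact hρ _

theorem O_sum_pos {ι : Type v} (S : Finset ι) (f : ι → (A →L[ℂ] ℂ)) (h : ∀ i ∈ S, IsPos (f i)) :
    IsPos (∑ i ∈ S, f i) := by
  intro x
  rw [_root_.sum_apply]
  exact Finset.sum_nonneg (fun i hi => h i hi x)

theorem O_re_nonneg {ρ : A →L[ℂ] ℂ} (hρ : IsPos ρ) {a : A} (ha : 0 ≤ a) : 0 ≤ (ρ a).re :=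
  (Complex.le_def.mp (N_nonneg hρ ha)).1

theorem O_conj_mem (u : unitary A) {h : A} (h0 : 0 ≤ h) (h1 : h ≤ 1) :
    0 ≤ (u : A) * h * star (u : A) ∧ (u : A) * h * star (u : A) ≤ 1 := by
  refine ⟨star_right_conjugate_nonneg h0 _, ?_⟩
  have := star_right_conjugate_le_conjugate h1 (u : A)
  rw [mul_one] at this
  exact this.trans (le_of_eq (Unitary.mul_star_self_of_mem u.2))

/-- the functional which has to be avoided at step `k` -/
noncomputable def O_R (ρ : A →L[ℂ] ℂ) (Ω : Finset (ℕ → unitary A)) (v : ℕ → unitary A) (k : ℕ) :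
    A →L[ℂ] ℂ :=
  ∑ g ∈ Ω, ∑ j ∈ range k, cju ((O_L v g j * v j)⁻¹ * O_L v g k) ρ

theorem O_R_congr (ρ : A →L[ℂ] ℂ) (Ω : Finset (ℕ → unitary A)) (v v' : ℕ → unitary A) (k : ℕ)
    (h : ∀ i < k, v i = v' i) : O_R ρ Ω v k = O_R ρ Ω v' k := by
  unfold O_R
  refine Finset.sum_congr rfl (fun g _ => Finset.sum_congr rfl (fun j hj => ?_))
  have hj' := Finset.mem_range.mp hj
  rw [O_L_congr v v' g g j (fun i hi => h i (by omega)) (fun _ _ => rfl),
    O_L_congr v v' g g k h (fun _ _ => rfl), h j hj']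

theorem O_R_pos {ρ : A →L[ℂ] ℂ} (hρ : IsPos ρ) (Ω : Finset (ℕ → unitary A)) (v : ℕ → unitary A)
    (k : ℕ) : IsPos (O_R ρ Ω v k) :=
  O_sum_pos _ _ (fun _ _ => O_sum_pos _ _ (fun _ _ => O_cju_pos _ hρ))

/-- every term of `O_R` is at most `O_R` -/
theorem O_R_term {ρ : A →L[ℂ] ℂ} (hρ : IsPos ρ) (Ω : Finset (ℕ → unitary A)) (v : ℕ → unitary A)
    (k : ℕ) (g : ℕ → unitary A) (hg : g ∈ Ω) (j : ℕ) (hj : j < k) (h : A) (h0 : 0 ≤ h) :
    (cju ((O_L v g j * v j)⁻¹ * O_L v g k) ρ h).re ≤ (O_R ρ Ω v k h).re := by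
  unfold O_R
  rw [_root_.sum_apply, Complex.re_sum]
  have h1 : (cju ((O_L v g j * v j)⁻¹ * O_L v g k) ρ h).re ≤
      ((∑ j ∈ range k, cju ((O_L v g j * v j)⁻¹ * O_L v g k) ρ) h).re := by
    rw [_root_.sum_apply, Complex.re_sum]
    exact Finset.single_le_sum
      (f := fun j => (cju ((O_L v g j * v j)⁻¹ * O_L v g k) ρ h).re)
      (fun i _ => O_re_nonneg (O_cju_pos _ hρ) h0) (Finset.mem_range.mpr hj)
  refine h1.trans ?_
  exact Finset.single_le_sum
    (f := fun g => ((∑ j ∈ range k, cju ((O_L v g j * v j)⁻¹ * O_L v g k) ρ) h).re)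
    (fun i _ => O_re_nonneg (O_sum_pos _ _ (fun _ _ => O_cju_pos _ hρ)) h0) hg

/-- the sequence of unitaries and cut-downs -/
theorem O_seq
    (hvm : ∀ (ρ R : A →L[ℂ] ℂ), IsPos ρ → IsPos R → InfT R → ∀ (δ : ℝ), 0 < δ →
      ∃ (v : unitary A) (h : A), 0 ≤ h ∧ h ≤ 1 ∧
        (ρ (star (v : A) * (1 - h) * (v : A))).re + (R h).re ≤ δ)
    (hcju : ∀ (u : unitary A) (φ : A →L[ℂ] ℂ), InfT φ → InfT (cju u φ))
    (hsum : ∀ (S : Finset ℕ) (f : ℕ → (A →L[ℂ] ℂ)), (∀ i ∈ S, InfT (f i)) → InfT (∑ i ∈ S, f i))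
    (hsum' : ∀ (S : Finset (ℕ → unitary A)) (f : (ℕ → unitary A) → (A →L[ℂ] ℂ)),
      (∀ i ∈ S, InfT (f i)) → InfT (∑ i ∈ S, f i))
    (ρ : A →L[ℂ] ℂ) (hρ : IsPos ρ) (hρi : InfT ρ) (Ω : Finset (ℕ → unitary A)) (δ : ℝ)
    (hδ : 0 < δ) (n : ℕ) :
    ∃ (v : ℕ → unitary A) (h : ℕ → A), (∀ k, 0 ≤ h k ∧ h k ≤ 1) ∧
      ∀ k < n, (ρ (star (v k : A) * (1 - h k) * (v k : A))).re + (O_R ρ Ω v k (h k)).re ≤ δ := by
  induction n with
  | zero => exact ⟨fun _ => 1, fun _ => 0, fun _ => ⟨le_rfl, zero_le_one⟩, fun k hk => by omega⟩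
  | succ n ih =>
    obtain ⟨v, h, hh, hv⟩ := ih
    obtain ⟨v', h', h0, h1, h2⟩ := hvm ρ (O_R ρ Ω v n) hρ (O_R_pos hρ Ω v n)
      (hsum' _ _ (fun _ _ => hsum _ _ (fun _ _ => hcju _ _ hρi))) δ hδ
    refine ⟨Function.update v n v', Function.update h n h', ?_, ?_⟩
    · intro k
      by_cases hk : k = n
      · subst hk; simpa using ⟨h0, h1⟩
      · rw [Function.update_of_ne hk]; exact hh k
    · intro k hk
      have e : O_R ρ Ω (Function.update v n v') k = O_R ρ Ω v k :=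
        O_R_congr ρ Ω _ _ k (fun i hi => Function.update_of_ne (by omega) _ _)
      rw [e]
      by_cases hk' : k = n
      · subst hk'
        rw [Function.update_self, Function.update_self]
        exact h2
      · rw [Function.update_of_ne hk', Function.update_of_ne hk']
        exact hv k (by omega)

/-- words: functions supported on `i < r` -/
noncomputable def O_W (G : Finset (unitary A)) (r : ℕ) : Finset (ℕ → unitary A) :=
  open Classical in
  (Fintype.piFinset (fun _ : Fin r => G)).image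
    (fun g => fun i => if hi : i < r then g ⟨i, hi⟩ else 1)

theorem O_mem_W (G : Finset (unitary A)) (r : ℕ) (g : ℕ → unitary A) :
    g ∈ O_W G r ↔ (∀ i < r, g i ∈ G) ∧ ∀ i, r ≤ i → g i = 1 := by
  classical
  unfold O_W
  rw [Finset.mem_image]
  constructor
  · rintro ⟨f, hf, rfl⟩
    rw [Fintype.mem_piFinset] at hf
    refine ⟨fun i hi => ?_, fun i hi => ?_⟩
    · simp only [dif_pos hi]; exact hf _
    · simp only [dif_neg (not_lt.mpr hi)]
  · rintro ⟨h1, h2⟩
    refine ⟨fun i => g i, ?_, ?_⟩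
    · rw [Fintype.mem_piFinset]; exact fun i => h1 i i.2
    · funext i
      by_cases hi : i < r
      · simp only [dif_pos hi]
      · simp only [dif_neg hi]; exact (h2 i (not_lt.mp hi)).symm

theorem O_update_mem (G : Finset (unitary A)) (r : ℕ) (g : ℕ → unitary A) (hg : g ∈ O_W G r)
    (k : ℕ) (hk : k < r) (x : unitary A) (hx : x ∈ G) : Function.update g k x ∈ O_W G r := by
  rw [O_mem_W] at hg ⊢
  refine ⟨fun i hi => ?_, fun i hi => ?_⟩
  · by_cases h : i = k
    · subst h; simpa using hx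
    · rw [Function.update_of_ne h]; exact hg.1 i hi
  · rw [Function.update_of_ne (by omega)]; exact hg.2 i hi

theorem O_sum_update (G : Finset (unitary A)) (r k : ℕ) (hk : k < r)
    (F : (ℕ → unitary A) → ℝ) :
    ∑ g ∈ O_W G r, ∑ x ∈ G, F (Function.update g k x) = (G.card : ℝ) * ∑ g ∈ O_W G r, F g := by
  have h1 : (G.card : ℝ) * ∑ g ∈ O_W G r, F g = ∑ g ∈ O_W G r, ∑ _x ∈ G, F g := by
    rw [Finset.mul_sum]
    refine Finset.sum_congr rfl (fun g _ => ?_)
    rw [Finset.sum_const, nsmul_eq_mul]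
  rw [h1, ← Finset.sum_product', ← Finset.sum_product']
  refine Finset.sum_nbij' (fun p => (Function.update p.1 k p.2, p.1 k))
    (fun p => (Function.update p.1 k p.2, p.1 k)) ?_ ?_ ?_ ?_ ?_
  · rintro ⟨g, x⟩ hp
    rw [Finset.mem_product] at hp ⊢
    exact ⟨O_update_mem G r g hp.1 k hk x hp.2, ((O_mem_W G r g).mp hp.1).1 k hk⟩
  · rintro ⟨g, x⟩ hp
    rw [Finset.mem_product] at hp ⊢
    exact ⟨O_update_mem G r g hp.1 k hk x hp.2, ((O_mem_W G r g).mp hp.1).1 k hk⟩
  · rintro ⟨g, x⟩ hp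
    simp
  · rintro ⟨g, x⟩ hp
    simp
  · rintro ⟨g, x⟩ hp
    rfl

theorem RS_of
    (hvm : ∀ (ρ R : A →L[ℂ] ℂ), IsPos ρ → IsPos R → InfT R → ∀ (δ : ℝ), 0 < δ →
      ∃ (v : unitary A) (h : A), 0 ≤ h ∧ h ≤ 1 ∧
        (ρ (star (v : A) * (1 - h) * (v : A))).re + (R h).re ≤ δ)
    (hcju : ∀ (u : unitary A) (φ : A →L[ℂ] ℂ), InfT φ → InfT (cju u φ))
    (hsum : ∀ (S : Finset ℕ) (f : ℕ → (A →L[ℂ] ℂ)), (∀ i ∈ S, InfT (f i)) → InfT (∑ i ∈ S, f i))
    (hsum' : ∀ (S : Finset (ℕ → unitary A)) (f : (ℕ → unitary A) → (A →L[ℂ] ℂ)),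
      (∀ i ∈ S, InfT (f i)) → InfT (∑ i ∈ S, f i))
    (Z : unitary A → (A →L[ℂ] ℂ)) (C : ℝ) (hZ : ∀ g, ‖Z g‖ ≤ C) (ρ : A →L[ℂ] ℂ) (hρ : IsPos ρ)
    (hρi : InfT ρ) (G : Finset (unitary A)) (ε : ℝ) (hε : 0 < ε) :
    ∃ w b : unitary A, ∀ g ∈ G, ∃ X : A, ‖X‖ ≤ 1 ∧ (ρ (star (1 - X) * (1 - X))).re ≤ ε ∧
      ‖ra (cju w (Z (w * g * b))) X‖ ≤ ε := by
  rcases G.eq_empty_or_nonempty with hG | hG
  · subst hG
    exact ⟨1, 1, fun g hg => absurd hg (Finset.notMem_empty g)⟩
  obtain ⟨r, hr⟩ := exists_nat_gt ((G.card : ℝ) * C ^ 2 / ε ^ 2)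
  have hr0 : (0 : ℝ) < r := lt_of_le_of_lt (by positivity) hr
  have hrpos : 0 < r := by exact_mod_cast hr0
  set δ : ℝ := ε / (r : ℝ) ^ 2 with hδ
  have hδ0 : 0 < δ := by positivity
  obtain ⟨v, h, hh, hv⟩ := O_seq hvm hcju hsum hsum' ρ hρ hρi (O_W G r) δ hδ0 r
  -- the cut-downs for a word
  set H : (ℕ → unitary A) → ℕ → A := fun g k => (O_L v g k : A) * h k * star (O_L v g k : A) with hH
  have hH01 : ∀ g k, 0 ≤ H g k ∧ H g k ≤ 1 := fun g k => O_conj_mem _ (hh k).1 (hh k).2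
  set q : (ℕ → unitary A) → ℕ → ℝ := fun g k => ‖ra (Z (O_L v g r)) (XX (H g) k r)‖ ^ 2 with hq
  have hq1 : ∀ g, ∑ k ∈ range r, q g k ≤ C ^ 2 := by
    intro g
    refine (orth (Z (O_L v g r)) r (fun k => XX (H g) k r) (XX_row (H g) (hH01 g) r)).trans ?_
    have := hZ (O_L v g r)
    gcongr
  have hΩ : (O_W G r).Nonempty := by
    obtain ⟨x, hx⟩ := hG
    refine ⟨fun i => if i < r then x else 1, ?_⟩
    rw [O_mem_W]
    refine ⟨fun i hi => by simp only [if_pos hi]; exact hx, fun i hi => ?_⟩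
    simp only [if_neg (not_lt.mpr hi)]
  -- averaging
  obtain ⟨k, hk, g, hg, hkg⟩ : ∃ k < r, ∃ g ∈ O_W G r,
      ∑ x ∈ G, q (Function.update g k x) k ≤ ε ^ 2 := by
    by_contra hcon
    push Not at hcon
    have h1 : ∑ k ∈ range r, ∑ g ∈ O_W G r, ε ^ 2 ≤
        ∑ k ∈ range r, ∑ g ∈ O_W G r, ∑ x ∈ G, q (Function.update g k x) k :=
      Finset.sum_le_sum (fun k hk => Finset.sum_le_sum (fun g hg =>
        (hcon k (Finset.mem_range.mp hk) g hg).le))
    have h2 : ∑ k ∈ range r, ∑ g ∈ O_W G r, ∑ x ∈ G, q (Function.update g k x) k =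
        (G.card : ℝ) * ∑ g ∈ O_W G r, ∑ k ∈ range r, q g k := by
      rw [Finset.sum_comm (s := O_W G r), Finset.mul_sum]
      refine Finset.sum_congr rfl (fun k hk => ?_)
      exact O_sum_update G r k (Finset.mem_range.mp hk) (fun g => q g k)
    have h3 : ∑ g ∈ O_W G r, ∑ k ∈ range r, q g k ≤ ((O_W G r).card : ℝ) * C ^ 2 := by
      refine (Finset.sum_le_sum (fun g _ => hq1 g)).trans (le_of_eq ?_)
      rw [Finset.sum_const, nsmul_eq_mul]
    rw [h2] at h1
    simp only [Finset.sum_const, nsmul_eq_mul, Finset.card_range] at h1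
    have hc : (0 : ℝ) < ((O_W G r).card : ℝ) := by exact_mod_cast hΩ.card_pos
    have h4 : (r : ℝ) * (((O_W G r).card : ℝ) * ε ^ 2) ≤
        (G.card : ℝ) * (((O_W G r).card : ℝ) * C ^ 2) :=
      h1.trans (mul_le_mul_of_nonneg_left h3 (Nat.cast_nonneg _))
    have h5 : (r : ℝ) * ε ^ 2 ≤ (G.card : ℝ) * C ^ 2 := by
      by_contra hlt
      push Not at hlt
      have := mul_lt_mul_of_pos_left hlt hc
      nlinarith
    have h6 : (G.card : ℝ) * C ^ 2 < (r : ℝ) * ε ^ 2 := by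
      rwa [div_lt_iff₀ (by positivity)] at hr
    linarith
  -- the pair
  set w : unitary A := O_L v g k * v k with hw
  set T : unitary A := (O_L v g (k + 1))⁻¹ * O_L v g r with hT
  refine ⟨w, (v k)⁻¹ * T, fun x hx => ?_⟩
  set g' : ℕ → unitary A := Function.update g k x with hg'
  have hg'Ω : g' ∈ O_W G r := O_update_mem G r g hg k hk x hx
  have hLk : O_L v g' k = O_L v g k :=
    O_L_congr v v g' g k (fun _ _ => rfl) (fun i hi => Function.update_of_ne (by omega) _ _)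
  have hprod : O_L v g' r = w * x * ((v k)⁻¹ * T) := by
    obtain ⟨n, hn⟩ : ∃ n, r = k + 1 + n := ⟨r - (k + 1), by omega⟩
    have hTc : (O_L v g' (k + 1))⁻¹ * O_L v g' r = T := by
      rw [hT, hn]
      exact O_T_congr v g' g k (fun i hi => Function.update_of_ne hi _ _) n
    have e1 : O_L v g' r = O_L v g' (k + 1) * T := by rw [← hTc]; group
    have e2 : O_L v g' (k + 1) = O_L v g k * (v k * x * (v k)⁻¹) := by
      rw [O_L, hLk, hg', Function.update_self]
    rw [e1, e2, hw]; group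
  set Y : A := XX (H g') k r with hY
  have hwr : star (w : A) * (w : A) = 1 := Unitary.star_mul_self_of_mem w.2
  have hwr' : (w : A) * star (w : A) = 1 := Unitary.mul_star_self_of_mem w.2
  refine ⟨star (w : A) * Y * (w : A), ?_, ?_, ?_⟩
  · have h1 := XX_norm (H g') (hH01 g') k r
    calc ‖star (w : A) * Y * (w : A)‖ ≤ ‖star (w : A)‖ * ‖Y‖ * ‖(w : A)‖ :=
          (norm_mul_le _ _).trans (mul_le_mul_of_nonneg_right (norm_mul_le _ _) (norm_nonneg _))
      _ ≤ 1 * 1 * 1 := by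
          have hwn : ‖(w : A)‖ ≤ 1 := by
            rcases subsingleton_or_nontrivial A with hs | hn
            · rw [Subsingleton.elim (w : A) 0, norm_zero]; exact zero_le_one
            · exact (CStarRing.norm_of_mem_unitary w.2).le
          have hwn' : ‖star (w : A)‖ ≤ 1 := by rw [norm_star]; exact hwn
          gcongr
      _ = 1 := by norm_num
  · -- closeness to one
    set ρ' := cju w⁻¹ ρ with hρ'
    have hρ'a : ∀ y, ρ' y = ρ (star (w : A) * y * (w : A)) := by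
      intro y
      rw [hρ', cju_apply, O_coe_inv, star_star]
    have hpos' : IsPos ρ' := O_cju_pos _ hρ
    have e1 : star (1 - star (w : A) * Y * (w : A)) * (1 - star (w : A) * Y * (w : A)) =
        star (w : A) * (star (1 - Y) * (1 - Y)) * (w : A) := by
      have e2 : 1 - star (w : A) * Y * (w : A) = star (w : A) * (1 - Y) * (w : A) := by
        rw [mul_sub, sub_mul, mul_one, hwr]
      rw [e2]
      simp only [star_mul, star_star]
      calc star (w : A) * (star (1 - Y) * (w : A)) * (star (w : A) * (1 - Y) * (w : A)) =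
          star (w : A) * star (1 - Y) * ((w : A) * star (w : A)) * (1 - Y) * (w : A) := by
            simp only [mul_assoc]
        _ = _ := by rw [hwr']; simp only [mul_one, mul_assoc]
    rw [e1, ← hρ'a]
    have hvk := hv k hk
    have hc1 : (ρ' (1 - H g' k)).re ≤ δ := by
      have e3 : star (w : A) * (1 - H g' k) * (w : A) = star (v k : A) * (1 - h k) * (v k : A) := by
        have hl : star (O_L v g k : A) * (O_L v g k : A) = 1 :=
          Unitary.star_mul_self_of_mem (O_L v g k).2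
        have hvv : star (v k : A) * (v k : A) = 1 := Unitary.star_mul_self_of_mem (v k).2
        have e4 : star (w : A) * H g' k * (w : A) = star (v k : A) * h k * (v k : A) := by
          simp only [hH, hw, hLk, Submonoid.coe_mul, star_mul]
          calc star (v k : A) * star (O_L v g k : A) *
                ((O_L v g k : A) * h k * star (O_L v g k : A)) * ((O_L v g k : A) * (v k : A)) =
              star (v k : A) * (star (O_L v g k : A) * (O_L v g k : A)) * h k *
                (star (O_L v g k : A) * (O_L v g k : A)) * (v k : A) := by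
                simp only [mul_assoc]
            _ = _ := by rw [hl]; simp only [mul_one]
        rw [mul_sub, sub_mul, mul_one, hwr, e4, mul_sub, sub_mul, mul_one, hvv]
      rw [hρ'a, e3]
      have := O_re_nonneg (O_R_pos hρ (O_W G r) v k) (hh k).1
      linarith
    have hc2 : ∀ j, k < j → j < r → (ρ' (H g' j)).re ≤ δ := by
      intro j hkj hjr
      have h1 := O_R_term hρ (O_W G r) v j g' hg'Ω k hkj (h j) (hh j).1
      have h2 := hv j hjr
      have h3 : 0 ≤ (ρ (star (v j : A) * (1 - h j) * (v j : A))).re :=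
        O_re_nonneg hρ (star_left_conjugate_nonneg (sub_nonneg.mpr (hh j).2) _)
      have h4 : ρ' (H g' j) = cju ((O_L v g' k * v k)⁻¹ * O_L v g' j) ρ (h j) := by
        rw [hρ'a, cju_apply, hLk]
        congr 1
        simp only [hH, Submonoid.coe_mul, star_mul, ← hw, O_coe_inv, star_star]
        simp only [mul_assoc]
      rw [h4]
      linarith
    refine (XX_near (H g') (hH01 g') ρ' hpos' k r hk δ hc1 hc2).trans (le_of_eq ?_)
    rw [hδ]; field_simp
  · -- smallness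
    have hqx : q g' k ≤ ε ^ 2 := by
      refine le_trans ?_ hkg
      exact Finset.single_le_sum (f := fun x => q (Function.update g k x) k)
        (fun _ _ => by positivity) hx
    have h1 : ‖ra (Z (O_L v g' r)) Y‖ ≤ ε := by
      have : ‖ra (Z (O_L v g' r)) Y‖ ^ 2 ≤ ε ^ 2 := hqx
      exact le_of_sq_le_sq this hε.le
    refine le_trans ?_ h1
    rw [← hprod]
    refine ContinuousLinearMap.opNorm_le_bound _ (norm_nonneg _) (fun y => ?_)
    have e1 : ra (cju w (Z (O_L v g' r))) (star (w : A) * Y * (w : A)) y =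
        ra (Z (O_L v g' r)) Y ((w : A) * y * star (w : A)) := by
      rw [R12_ra_apply, R12_ra_apply, cju_apply]
      congr 1
      calc (w : A) * (star (w : A) * Y * (w : A) * y) * star (w : A) =
          ((w : A) * star (w : A)) * Y * ((w : A) * y * star (w : A)) := by simp only [mul_assoc]
        _ = _ := by rw [hwr', one_mul]
    rw [e1]
    refine ((ra (Z (O_L v g' r)) Y).le_opNorm _).trans ?_
    exact mul_le_mul_of_nonneg_left (R06_norm_conj w y) (norm_nonneg _)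

end H504S
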