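import Pool.Agent.H504S.TaskM
import Pool.Agent.H504S.TaskO

set_option autoImplicit false

namespace H504S

open H730HC Finset
open scoped ComplexConjugate ComplexOrder

universe u v

attribute [local instance] CStarAlgebra.spectralOrder CStarAlgebra.spectralOrderedRing

variable {A : Type u} [CStarAlgebra A]

theorem RS (Z : unitary A → (A →L[ℂ] ℂ)) (C : ℝ) (hZ : ∀ g, ‖Z g‖ ≤ C) (ρ : A →L[ℂ] ℂ) (hρ : IsPos ρ)
    (hρi : InfT ρ) (G : Finset (unitary A)) (ε : ℝ) (hε : 0 < ε) :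
    ∃ w b : unitary A, ∀ g ∈ G, ∃ X : A, ‖X‖ ≤ 1 ∧ (ρ (star (1 - X) * (1 - X))).re ≤ ε ∧
      ‖ra (cju w (Z (w * g * b))) X‖ ≤ ε :=
  RS_of vmove InfT_cju InfT_sum InfT_sum Z C hZ ρ hρ hρi G ε hε

end H504S
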