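import Pool.Agent.H504S.TaskA
import Pool.Agent.H504S.TaskH
import Pool.Agent.H504S.TaskI
import Pool.Agent.H504S.TaskO2

/-!
# Task P: the generalised mean for functionals of infinite type
-/

set_option autoImplicit false

namespace H504S

open H730HC Finset
open scoped ComplexConjugate ComplexOrder

universe u v

attribute [local instance] CStarAlgebra.spectralOrder CStarAlgebra.spectralOrderedRing

variable {A : Type u} [CStarAlgebra A]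

theorem P_ulim_zero {κ : Type u} {I : Type u} (F : Ultrafilter κ) (ix : κ → I) (f : I → ℝ)
    (hb : Bdd f) (h : ∀ ε : ℝ, 0 < ε → ∀ᶠ k in (F : Filter κ), |f (ix k)| ≤ ε) :
    ulim F (fun k => f (ix k)) = 0 := by
  have h1 := ultra_tendsto F (fun k (f : I → ℝ) => f (ix k)) (fun k => T08_mean_point (ix k)) f hb
  have h2 : Filter.Tendsto (fun k => f (ix k)) (F : Filter κ) (nhds 0) := by
    rw [Metric.tendsto_nhds]
    intro ε hε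
    filter_upwards [h (ε / 2) (by linarith)] with k hk
    rw [Real.dist_eq, sub_zero]
    linarith
  exact tendsto_nhds_unique h1 h2

theorem P_isMean {κ : Type u} {I : Type u} (F : Ultrafilter κ) (ix : κ → I) :
    IsMean (fun g : I → ℝ => ulim F (fun k => g (ix k))) :=
  ultra_isMean F (fun k (f : I → ℝ) => f (ix k)) (fun k => T08_mean_point (ix k))

theorem P_EX_zero {κ : Type u} {I : Type u} (F : Ultrafilter κ) (ix : κ → I)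
    (f : I → (A →L[ℂ] ℂ)) (C : ℝ) (hf : ∀ i, ‖f i‖ ≤ C)
    (h : ∀ ε : ℝ, 0 < ε → ∀ᶠ k in (F : Filter κ), ‖f (ix k)‖ ≤ ε) :
    EX (fun g : I → ℝ => ulim F (fun k => g (ix k))) f = 0 := by
  have hm := P_isMean F ix
  ext x
  have hs := (EX_spec hm f C hf).1 x
  have hbx : ∀ i, ‖f i x‖ ≤ C * ‖x‖ := R04_bdx hf x
  have hev : ∀ ε : ℝ, 0 < ε → ∀ᶠ k in (F : Filter κ), ‖f (ix k) x‖ ≤ ε := by
    intro ε hε
    filter_upwards [h (ε / (‖x‖ + 1)) (by positivity)] with k hk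
    have h0 : 0 ≤ ‖x‖ := norm_nonneg x
    calc ‖f (ix k) x‖ ≤ ‖f (ix k)‖ * ‖x‖ := (f (ix k)).le_opNorm x
      _ ≤ ε / (‖x‖ + 1) * ‖x‖ := mul_le_mul_of_nonneg_right hk h0
      _ ≤ ε / (‖x‖ + 1) * (‖x‖ + 1) :=
        mul_le_mul_of_nonneg_left (by linarith) (by positivity)
      _ = ε := by field_simp
  apply Complex.ext
  · rw [hs.1]
    exact P_ulim_zero F ix (fun i => (f i x).re)
      ⟨_, fun i => (Complex.abs_re_le_norm _).trans (hbx i)⟩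
      fun ε hε => (hev ε hε).mono fun k hk => (Complex.abs_re_le_norm _).trans hk
  · rw [hs.2]
    exact P_ulim_zero F ix (fun i => (f i x).im)
      ⟨_, fun i => (Complex.abs_im_le_norm _).trans (hbx i)⟩
      fun ε hε => (hev ε hε).mono fun k hk => (Complex.abs_im_le_norm _).trans hk

theorem P_nonneg (ρ : A →L[ℂ] ℂ) (hρ : IsPos ρ) {a : A} (h : 0 ≤ a) : 0 ≤ ρ a := by
  obtain ⟨s, hs⟩ := CStarAlgebra.nonneg_iff_eq_star_mul_self.mp h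
  rw [hs]
  exact hρ s

theorem P_nonneg_re (ρ : A →L[ℂ] ℂ) (hρ : IsPos ρ) {a : A} (h : 0 ≤ a) : 0 ≤ (ρ a).re :=
  (Complex.le_def.mp (P_nonneg ρ hρ h)).1

theorem P_mono (ρ : A →L[ℂ] ℂ) (hρ : IsPos ρ) {a b : A} (h : a ≤ b) : (ρ a).re ≤ (ρ b).re := by
  have h1 := P_nonneg_re ρ hρ (sub_nonneg.2 h)
  rw [map_sub, Complex.sub_re] at h1
  linarith

theorem P_sum_pos {ι : Type v} (S : Finset ι) (f : ι → (A →L[ℂ] ℂ)) (h : ∀ i ∈ S, IsPos (f i)) :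
    IsPos (∑ i ∈ S, f i) := by
  intro x
  rw [_root_.sum_apply]
  exact Finset.sum_nonneg fun i hi => h i hi x

theorem P_cju_pos (w : unitary A) (ρ : A →L[ℂ] ℂ) (h : IsPos ρ) : IsPos (cju w ρ) := by
  intro x
  rw [cju_apply]
  have e : (w : A) * (star x * x) * star (w : A) = star (x * star (w : A)) * (x * star (w : A)) := by
    rw [star_mul, star_star]
    simp only [mul_assoc]
  rw [e]
  exact h _

theorem P_cju_norm (w : unitary A) (φ : A →L[ℂ] ℂ) (C : ℝ) (h : ‖φ‖ ≤ C) : ‖cju w φ‖ ≤ C := by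
  have hC : 0 ≤ C := (norm_nonneg _).trans h
  refine ContinuousLinearMap.opNorm_le_bound _ hC fun x => ?_
  rw [cju_apply]
  have h1 : ‖(w : A) * x * star (w : A)‖ = ‖x‖ := by
    have e : star (w : A) = ((star w : unitary A) : A) := rfl
    rw [e, CStarRing.norm_mul_coe_unitary, CStarRing.norm_coe_unitary_mul]
  calc ‖φ ((w : A) * x * star (w : A))‖
      ≤ ‖φ‖ * ‖(w : A) * x * star (w : A)‖ := ContinuousLinearMap.le_opNorm _ _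
    _ ≤ C * ‖x‖ := by rw [h1]; exact mul_le_mul_of_nonneg_right h (norm_nonneg _)

theorem P_ra_apply (φ : A →L[ℂ] ℂ) (a x : A) : ra φ a x = φ (a * x) := rfl

theorem P_norm_le_one {e : A} (h0 : 0 ≤ e) (h1 : e ≤ 1) : ‖e‖ ≤ 1 :=
  (CStarAlgebra.norm_le_one_iff_of_nonneg e h0).2 h1

theorem P_ra_norm (φ : A →L[ℂ] ℂ) (C : ℝ) (h : ‖φ‖ ≤ C) {e : A} (he : ‖e‖ ≤ 1) :
    ‖ra φ e‖ ≤ C := by
  have hC : 0 ≤ C := (norm_nonneg _).trans h
  refine ContinuousLinearMap.opNorm_le_bound _ hC fun x => ?_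
  rw [P_ra_apply]
  calc ‖φ (e * x)‖ ≤ ‖φ‖ * ‖e * x‖ := ContinuousLinearMap.le_opNorm _ _
    _ ≤ C * ‖x‖ := by
      refine mul_le_mul h ?_ (norm_nonneg _) hC
      calc ‖e * x‖ ≤ ‖e‖ * ‖x‖ := norm_mul_le _ _
        _ ≤ 1 * ‖x‖ := mul_le_mul_of_nonneg_right he (norm_nonneg _)
        _ = ‖x‖ := one_mul _

/-- `ρ (f y y* f) ≤ ‖y‖² ρ f` for `0 ≤ f ≤ 1` -/
theorem P_conj (ρ : A →L[ℂ] ℂ) (hρ : IsPos ρ) (f y : A) (h0 : 0 ≤ f) (h1 : f ≤ 1) :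
    (ρ (f * y * star (f * y))).re ≤ ‖y‖ ^ 2 * (ρ f).re := by
  have hs : star f = f := (IsSelfAdjoint.of_nonneg h0).star_eq
  have e1 : f * y * star (f * y) = f * (y * star y) * star f := by
    rw [star_mul]
    simp only [mul_assoc]
  have h2 : f * (y * star y) * star f ≤ ‖y * star y‖ • (f * star f) :=
    CStarAlgebra.star_right_conjugate_le_norm_smul (IsSelfAdjoint.mul_star_self y)
  have h3 : f * star f ≤ f := by
    have := CStarAlgebra.pow_antitone h0 h1 one_le_two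
    simp only [pow_one] at this
    rw [hs, ← pow_two]
    exact this
  have h4 : ‖y * star y‖ = ‖y‖ ^ 2 := by rw [CStarRing.norm_self_mul_star, pow_two]
  have h5 : (ρ (‖y * star y‖ • (f * star f))).re = ‖y‖ ^ 2 * (ρ (f * star f)).re := by
    rw [h4]
    have e2 : ((‖y‖ ^ 2 : ℝ) • (f * star f) : A) = ((‖y‖ ^ 2 : ℝ) : ℂ) • (f * star f) :=
      (Complex.coe_smul _ _).symm
    rw [e2, map_smul, smul_eq_mul, Complex.re_ofReal_mul]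
  rw [e1]
  calc (ρ (f * (y * star y) * star f)).re ≤ (ρ (‖y * star y‖ • (f * star f))).re := P_mono ρ hρ h2
    _ = ‖y‖ ^ 2 * (ρ (f * star f)).re := h5
    _ ≤ ‖y‖ ^ 2 * (ρ f).re := mul_le_mul_of_nonneg_left (P_mono ρ hρ h3) (by positivity)

theorem P_fin (Z : unitary A → (A →L[ℂ] ℂ)) (C : ℝ) (hZ : ∀ g, ‖Z g‖ ≤ C)
    (E G : Finset (unitary A)) (Φ : Finset (A →L[ℂ] ℂ)) (hΦ : ∀ φ ∈ Φ, InfT φ) (ε : ℝ)
    (hε : 0 < ε) :
    ∃ i : Ix A, (∀ u ∈ E, ‖(u : A) * i.2.1 - i.2.1 * (u : A)‖ ≤ ε) ∧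
      (∀ φ ∈ Φ, ‖ra φ i.2.1 - φ‖ ≤ ε) ∧
      ∀ g ∈ G, ‖ra (cju i.1.1 (Z (i.1.1 * g * i.1.2))) i.2.1‖ ≤ ε := by
  classical
  have hC : 0 ≤ C := (norm_nonneg _).trans (hZ 1)
  obtain ⟨ε1, hε1e⟩ : ∃ ε1 : ℝ, ε1 = ε / (2 * (C + 1)) := ⟨_, rfl⟩
  have hε1 : 0 < ε1 := by rw [hε1e]; positivity
  have hε1C : (C + 1) * ε1 = ε / 2 := by rw [hε1e]; field_simp
  have hε1ε : ε1 ≤ ε := by nlinarith
  obtain ⟨V, c, hc, ht⟩ := tele E ε1 hε1
  choose ρf hρ1 hρ2 hρ3 using fun φ : A →L[ℂ] ℂ => dom φ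
  obtain ⟨ρ, hρe⟩ : ∃ ρ : A →L[ℂ] ℂ, ρ = ∑ φ ∈ Φ, ρf φ := ⟨_, rfl⟩
  obtain ⟨ρ', hρ'e⟩ : ∃ ρ' : A →L[ℂ] ℂ, ρ' = ∑ v ∈ V, cju v⁻¹ ρ := ⟨_, rfl⟩
  have hρ : IsPos ρ := by rw [hρe]; exact P_sum_pos Φ ρf fun φ _ => hρ1 φ
  have hρi : InfT ρ := by rw [hρe]; exact InfT_sum Φ ρf (fun φ hφ => hρ3 φ (hΦ φ hφ))
  have hρ' : IsPos ρ' := by rw [hρ'e]; exact P_sum_pos V _ fun v _ => P_cju_pos v⁻¹ ρ hρ
  have hρ'i : InfT ρ' := by rw [hρ'e]; exact InfT_sum V _ fun v _ => InfT_cju v⁻¹ ρ hρi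
  obtain ⟨K, hKe⟩ : ∃ K : ℝ, K = ∑ φ ∈ Φ, ‖φ‖ := ⟨_, rfl⟩
  have hK0 : 0 ≤ K := by rw [hKe]; exact Finset.sum_nonneg fun φ _ => norm_nonneg φ
  have hKφ : ∀ φ ∈ Φ, ‖φ‖ ≤ K := by
    intro φ hφ
    rw [hKe]
    exact Finset.single_le_sum (f := fun φ : A →L[ℂ] ℂ => ‖φ‖) (fun _ _ => norm_nonneg _) hφ
  obtain ⟨q, hqe⟩ : ∃ q : ℝ, q = K * c * G.card := ⟨_, rfl⟩
  have hq0 : 0 ≤ q := by rw [hqe]; positivity
  obtain ⟨ε2, hε2e⟩ : ∃ ε2 : ℝ, ε2 = min (ε / 2) (ε ^ 2 / (q + 1)) := ⟨_, rfl⟩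
  have hε2 : 0 < ε2 := by rw [hε2e]; exact lt_min (by positivity) (by positivity)
  have hε2a : ε2 ≤ ε / 2 := by rw [hε2e]; exact min_le_left _ _
  have hε2b : q * ε2 ≤ ε ^ 2 := by
    have h1 : ε2 ≤ ε ^ 2 / (q + 1) := by rw [hε2e]; exact min_le_right _ _
    rw [le_div_iff₀ (by positivity)] at h1
    nlinarith
  obtain ⟨w, b, hwb⟩ := RS Z C hZ ρ' hρ' hρ'i G ε2 hε2
  choose! X hX1 hX2 hX3 using hwb
  obtain ⟨h, hhe⟩ : ∃ h : A, h = ∑ g ∈ G, star (1 - X g) * (1 - X g) := ⟨_, rfl⟩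
  have hh : 0 ≤ h := by rw [hhe]; exact Finset.sum_nonneg fun g _ => star_mul_self_nonneg _
  obtain ⟨e, he0, he1, heE, he2, he3⟩ := ht h hh
  have hen : ‖e‖ ≤ 1 := P_norm_le_one he0 he1
  have h1e0 : 0 ≤ 1 - e := sub_nonneg.2 he1
  have h1e1 : 1 - e ≤ 1 := sub_le_self _ he0
  refine ⟨((w, b), ⟨e, he0, he1⟩), ?_, ?_, ?_⟩
  · intro u hu
    exact (heE u hu).trans hε1ε
  · intro φ hφ
    refine ContinuousLinearMap.opNorm_le_bound _ hε.le fun y => ?_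
    have e1 : (ra φ e - φ) y = -φ ((1 - e) * y) := by
      rw [sub_apply, P_ra_apply, sub_mul, one_mul, map_sub, neg_sub]
    show ‖(ra φ e - φ) y‖ ≤ ε * ‖y‖
    rw [e1, norm_neg]
    have h1 := hρ2 φ ((1 - e) * y)
    have h2 := P_conj (ρf φ) (hρ1 φ) (1 - e) y h1e0 h1e1
    have h3 : (ρf φ (1 - e)).re ≤ (ρ (1 - e)).re := by
      rw [hρe, _root_.sum_apply, Complex.re_sum]
      exact Finset.single_le_sum (f := fun φ => (ρf φ (1 - e)).re)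
        (fun φ _ => P_nonneg_re (ρf φ) (hρ1 φ) h1e0) hφ
    have h4 : (ρ (1 - e)).re ≤ c * (ρ' h).re := by
      have h5 := P_mono ρ hρ he2
      have e2 : ρ (c • ∑ v ∈ V, star (v : A) * h * (v : A)) = (c : ℂ) * ρ' h := by
        rw [← Complex.coe_smul, map_smul, smul_eq_mul, map_sum, hρ'e,
          _root_.sum_apply]
        congr 1
        refine Finset.sum_congr rfl fun v _ => ?_
        rw [cju_apply]
        have e3 : ((v⁻¹ : unitary A) : A) = star (v : A) := rfl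
        rw [e3, star_star]
      rw [e2, Complex.re_ofReal_mul] at h5
      exact h5
    have h5 : (ρ' h).re ≤ G.card * ε2 := by
      rw [hhe, map_sum, Complex.re_sum]
      calc ∑ g ∈ G, (ρ' (star (1 - X g) * (1 - X g))).re ≤ ∑ g ∈ G, ε2 :=
            Finset.sum_le_sum fun g hg => hX2 g hg
        _ = G.card * ε2 := by rw [Finset.sum_const, nsmul_eq_mul]
    have h6 : (ρf φ (1 - e)).re ≤ c * (G.card * ε2) :=
      h3.trans (h4.trans (mul_le_mul_of_nonneg_left h5 hc))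
    have h7 : ‖φ‖ * (‖y‖ ^ 2 * (ρf φ (1 - e)).re) ≤ (ε * ‖y‖) ^ 2 := by
      have h8 : ‖φ‖ * (ρf φ (1 - e)).re ≤ K * (c * (G.card * ε2)) :=
        mul_le_mul (hKφ φ hφ) h6 (P_nonneg_re (ρf φ) (hρ1 φ) h1e0) hK0
      have h9 : K * (c * (G.card * ε2)) = q * ε2 := by rw [hqe]; ring
      rw [h9] at h8
      calc ‖φ‖ * (‖y‖ ^ 2 * (ρf φ (1 - e)).re) = ‖y‖ ^ 2 * (‖φ‖ * (ρf φ (1 - e)).re) := by ring
        _ ≤ ‖y‖ ^ 2 * ε ^ 2 := mul_le_mul_of_nonneg_left (h8.trans hε2b) (by positivity)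
        _ = (ε * ‖y‖) ^ 2 := by ring
    have h10 : ‖φ ((1 - e) * y)‖ ^ 2 ≤ (ε * ‖y‖) ^ 2 :=
      h1.trans ((mul_le_mul_of_nonneg_left h2 (norm_nonneg _)).trans h7)
    exact le_of_sq_le_sq h10 (by positivity)
  · intro g hg
    obtain ⟨ψ, hψe⟩ : ∃ ψ : A →L[ℂ] ℂ, ψ = cju w (Z (w * g * b)) := ⟨_, rfl⟩
    have hψ : ‖ψ‖ ≤ C := by rw [hψe]; exact P_cju_norm w _ C (hZ _)
    have h3 := hX3 g hg
    rw [← hψe] at h3
    show ‖ra (cju w (Z (w * g * b))) e‖ ≤ ε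
    rw [← hψe]
    have h4 : ‖(1 - X g) * e‖ ≤ ε1 := by
      refine he3 _ ?_
      rw [hhe]
      exact Finset.single_le_sum (f := fun g => star (1 - X g) * (1 - X g))
        (fun g _ => star_mul_self_nonneg _) hg
    refine ContinuousLinearMap.opNorm_le_bound _ hε.le fun y => ?_
    rw [P_ra_apply]
    have e1 : e * y = X g * (e * y) + (1 - X g) * e * y := by
      rw [sub_mul, sub_mul, one_mul, mul_assoc]
      abel
    have h5 : ‖ψ (X g * (e * y))‖ ≤ ε / 2 * ‖y‖ := by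
      have h6 := (ra ψ (X g)).le_opNorm (e * y)
      rw [P_ra_apply] at h6
      have h7 : ‖e * y‖ ≤ ‖y‖ := by
        calc ‖e * y‖ ≤ ‖e‖ * ‖y‖ := norm_mul_le _ _
          _ ≤ 1 * ‖y‖ := mul_le_mul_of_nonneg_right hen (norm_nonneg _)
          _ = ‖y‖ := one_mul _
      exact h6.trans (mul_le_mul (h3.trans hε2a) h7 (norm_nonneg _) (by positivity))
    have h8 : ‖ψ ((1 - X g) * e * y)‖ ≤ ε / 2 * ‖y‖ := by
      have h9 : ‖(1 - X g) * e * y‖ ≤ ε1 * ‖y‖ :=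
        (norm_mul_le _ _).trans (mul_le_mul_of_nonneg_right h4 (norm_nonneg _))
      calc ‖ψ ((1 - X g) * e * y)‖ ≤ ‖ψ‖ * ‖(1 - X g) * e * y‖ := ψ.le_opNorm _
        _ ≤ C * (ε1 * ‖y‖) := mul_le_mul hψ h9 (norm_nonneg _) hC
        _ ≤ (C + 1) * (ε1 * ‖y‖) := mul_le_mul_of_nonneg_right (by linarith) (by positivity)
        _ = ε / 2 * ‖y‖ := by rw [← mul_assoc, hε1C]
    calc ‖ψ (e * y)‖ = ‖ψ (X g * (e * y)) + ψ ((1 - X g) * e * y)‖ := by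
          rw [← map_add, ← e1]
      _ ≤ ε / 2 * ‖y‖ + ε / 2 * ‖y‖ := (norm_add_le _ _).trans (add_le_add h5 h8)
      _ = ε * ‖y‖ := by ring

-- TASK P (uses tele, RS, dom, I)
theorem GMinf (Z : unitary A → (A →L[ℂ] ℂ)) (C : ℝ) (hZ : ∀ g, ‖Z g‖ ≤ C) :
    ∃ m : (Ix A → ℝ) → ℝ, IsGM m ∧ (∀ φ : A →L[ℂ] ℂ, InfT φ → EX m (fun i => ra φ i.2.1) = φ) ∧
      ∀ g : unitary A,
        EX m (fun i => ra (cju i.1.1 (Z (i.1.1 * g * i.1.2))) i.2.1) = 0 := by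
  classical
  have hC : 0 ≤ C := (norm_nonneg _).trans (hZ 1)
  have hex : ∀ κ : Finset (unitary A) × Finset (A →L[ℂ] ℂ) × ℕ, ∃ i : Ix A,
      (∀ u ∈ κ.1, ‖(u : A) * i.2.1 - i.2.1 * (u : A)‖ ≤ 1 / ((κ.2.2 : ℝ) + 1)) ∧
      (∀ φ ∈ κ.2.1.filter (fun φ => InfT φ), ‖ra φ i.2.1 - φ‖ ≤ 1 / ((κ.2.2 : ℝ) + 1)) ∧
      ∀ g ∈ κ.1, ‖ra (cju i.1.1 (Z (i.1.1 * g * i.1.2))) i.2.1‖ ≤ 1 / ((κ.2.2 : ℝ) + 1) :=
    fun κ => P_fin Z C hZ κ.1 κ.1 (κ.2.1.filter (fun φ => InfT φ))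
      (fun φ hφ => (Finset.mem_filter.1 hφ).2) _ (by positivity)
  choose ix hix1 hix2 hix3 using hex
  let F : Ultrafilter (Finset (unitary A) × Finset (A →L[ℂ] ℂ) × ℕ) :=
    Ultrafilter.of Filter.atTop
  have hF : (F : Filter (Finset (unitary A) × Finset (A →L[ℂ] ℂ) × ℕ)) ≤ Filter.atTop :=
    Ultrafilter.of_le _
  have hev : ∀ (u : unitary A) (φ : A →L[ℂ] ℂ) (ε : ℝ), 0 < ε →
      ∀ᶠ κ in (F : Filter (Finset (unitary A) × Finset (A →L[ℂ] ℂ) × ℕ)),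
        u ∈ κ.1 ∧ φ ∈ κ.2.1 ∧ 1 / ((κ.2.2 : ℝ) + 1) ≤ ε := by
    intro u φ ε hε
    obtain ⟨k0, hk0⟩ := exists_nat_gt (1 / ε)
    apply hF
    filter_upwards [Filter.eventually_ge_atTop
      (({u} : Finset (unitary A)), ({φ} : Finset (A →L[ℂ] ℂ)), k0)] with κ hκ
    refine ⟨hκ.1 (Finset.mem_singleton_self u), hκ.2.1 (Finset.mem_singleton_self φ), ?_⟩
    rw [div_le_iff₀ (by positivity)]
    rw [div_lt_iff₀ hε] at hk0
    have h1 : (k0 : ℝ) ≤ κ.2.2 := by exact_mod_cast hκ.2.2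
    nlinarith
  have hmean := P_isMean F ix
  have hen : ∀ i : Ix A, ‖i.2.1‖ ≤ 1 := fun i => P_norm_le_one i.2.2.1 i.2.2.2
  refine ⟨fun g => ulim F (fun k => g (ix k)), ⟨hmean, ?_⟩, ?_, ?_⟩
  · intro u
    refine P_ulim_zero F ix (fun i : Ix A => ‖(u : A) * i.2.1 - i.2.1 * (u : A)‖)
      ⟨2, fun i => ?_⟩ fun ε hε => ?_
    · rw [abs_of_nonneg (norm_nonneg _)]
      have h1 : ‖(u : A) * i.2.1‖ ≤ 1 := by
        rw [CStarRing.norm_coe_unitary_mul]; exact hen i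
      have h2 : ‖i.2.1 * (u : A)‖ ≤ 1 := by
        rw [CStarRing.norm_mul_coe_unitary]; exact hen i
      calc ‖(u : A) * i.2.1 - i.2.1 * (u : A)‖ ≤ ‖(u : A) * i.2.1‖ + ‖i.2.1 * (u : A)‖ :=
            norm_sub_le _ _
        _ ≤ 2 := by linarith
    · filter_upwards [hev u 0 ε hε] with κ hκ
      rw [abs_of_nonneg (norm_nonneg _)]
      exact (hix1 κ u hκ.1).trans hκ.2.2
  · intro φ hφ
    have hb1 : ∃ C' : ℝ, ∀ i : Ix A, ‖ra φ i.2.1‖ ≤ C' :=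
      ⟨‖φ‖, fun i => P_ra_norm φ _ le_rfl (hen i)⟩
    have h1 := EX_add hmean (fun i : Ix A => ra φ i.2.1) (fun _ : Ix A => -φ) hb1
      ⟨‖-φ‖, fun _ => le_rfl⟩
    rw [EX_const hmean (-φ)] at h1
    have h2 : EX (fun g : Ix A → ℝ => ulim F (fun k => g (ix k)))
        (fun i : Ix A => ra φ i.2.1 + -φ) = 0 := by
      refine P_EX_zero F ix (fun i : Ix A => ra φ i.2.1 + -φ) (‖φ‖ + ‖φ‖) (fun i => ?_)
        fun ε hε => ?_
      · refine (norm_add_le _ _).trans (add_le_add (P_ra_norm φ _ le_rfl (hen i)) ?_)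
        rw [norm_neg]
      · filter_upwards [hev 1 φ ε hε] with κ hκ
        rw [← sub_eq_add_neg]
        exact (hix2 κ φ (Finset.mem_filter.2 ⟨hκ.2.1, hφ⟩)).trans hκ.2.2
    rw [h2] at h1
    have h3 := eq_neg_of_add_eq_zero_left h1.symm
    rw [neg_neg] at h3
    exact h3
  · intro g
    refine P_EX_zero F ix (fun i : Ix A => ra (cju i.1.1 (Z (i.1.1 * g * i.1.2))) i.2.1) C
      (fun i => P_ra_norm _ C (P_cju_norm _ _ C (hZ _)) (hen i)) fun ε hε => ?_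
    filter_upwards [hev g 0 ε hε] with κ hκ
    exact (hix3 κ g hκ.1).trans hκ.2.2

end H504S

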