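import Pool.Agent.H504S.Wire
import Pool.Agent.H504S.TaskE
import Pool.Agent.H504S.TaskP
import Pool.Agent.H730R3.HD.R15
import Pool.Agent.H730R3.HD.R33

set_option autoImplicit false

namespace H504S

open H730HC Finset
open scoped ComplexConjugate ComplexOrder

universe u v

attribute [local instance] CStarAlgebra.spectralOrder CStarAlgebra.spectralOrderedRing

variable {A : Type u} [CStarAlgebra A]

theorem Good_add {n : ℕ} {F G : (ℕ → A) → (A →L[ℂ] ℂ)} (hF : Good n F) (hG : Good n G) :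
    Good n (fun X => F X + G X) := by
  obtain ⟨P, hP, h1⟩ := hF
  obtain ⟨Q, hQ, h2⟩ := hG
  refine ⟨fun i X => P i X + Q i X, fun i => IsB_add (hP i) (hQ i), fun g => ?_⟩
  show F (al (g : A)) + G (al (g : A)) = _
  rw [h1 g, h2 g, ← neg_add, ← Finset.sum_add_distrib]
  congr 1
  refine Finset.sum_congr rfl fun i _ => ?_
  rw [R15_face_add, smul_add]

theorem Q_cju_zero (u : unitary A) : cju u (0 : A →L[ℂ] ℂ) = 0 := by
  ext x
  rw [cju_apply]
  rfl

/-- the identity on `al g` for every bounded cocycle -/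
theorem good_all (n : ℕ) (F : (ℕ → A) → (A →L[ℂ] ℂ)) (hF : IsB (n + 1) F)
    (hc : ∀ a, dX (n + 1) F a = 0) : Good n F := by
  obtain ⟨P, hadd, hsmul, hnorm, hla, hra, hFT, hInf⟩ := dec A
  -- `P` as a continuous linear map
  let PL : (A →L[ℂ] ℂ) →L[ℂ] (A →L[ℂ] ℂ) := LinearMap.mkContinuous
    { toFun := P, map_add' := hadd, map_smul' := hsmul } 1 (fun φ => by simpa using hnorm φ)
  have hPL : ∀ φ, PL φ = P φ := fun φ => rfl
  have hF1 : IsB (n + 1) (fun X => PL (F X)) := IsB_comp hF PL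
  have hface : ∀ (i : ℕ) (f : (ℕ → A) → (A →L[ℂ] ℂ)) (a : ℕ → A),
      fX (n + 1) i (fun X => PL (f X)) a = PL (fX (n + 1) i f a) := by
    intro i f a
    unfold fX
    split_ifs with h1 h2
    · exact (hla (a 0) (f (shift a))).symm
    · rfl
    · exact (hra (a (n + 1)) (f a)).symm
  have hd1 : ∀ a, dX (n + 1) (fun X => PL (F X)) a = 0 := by
    intro a
    have : dX (n + 1) (fun X => PL (F X)) a = PL (dX (n + 1) F a) := by
      unfold dX
      rw [map_sum]
      refine Finset.sum_congr rfl fun i _ => ?_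
      rw [hface, map_smul]
    rw [this, hc a, map_zero]
  have hg1 : Good n (fun X => PL (F X)) := by
    refine good_of n _ hF1 hd1 fun Z C hZ => ?_
    obtain ⟨m, hm, h1, h2⟩ := GMf Z C hZ
    exact ⟨m, hm, fun X => h1 _ (hFT (F X)), h2⟩
  have hF2 : IsB (n + 1) (fun X => F X + (-1 : ℂ) • PL (F X)) := IsB_add hF (IsB_smul _ hF1)
  have hd2 : ∀ a, dX (n + 1) (fun X => F X + (-1 : ℂ) • PL (F X)) a = 0 := by
    intro a
    rw [R15_dd_add, hc a, hd1 a, R15_smul_zero, add_zero]
  have hg2 : Good n (fun X => F X + (-1 : ℂ) • PL (F X)) := by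
    refine good_of n _ hF2 hd2 fun Z C hZ => ?_
    obtain ⟨m, hm, h1, h2⟩ := GMinf Z C hZ
    refine ⟨m, hm, fun X => h1 _ ?_, 0, fun g => ?_⟩
    · have := hInf (F X)
      have h3 : F X + (-1 : ℂ) • PL (F X) = F X - P (F X) := by
        refine ContinuousLinearMap.ext fun x => ?_
        show F X x + (-1 : ℂ) * P (F X) x = F X x - P (F X) x
        ring
      rw [h3]
      exact this
    · rw [h2 g, Q_cju_zero]
  have := Good_add hg1 hg2
  have h4 : (fun X => PL (F X) + (F X + (-1 : ℂ) • PL (F X))) = F := by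
    funext X
    refine ContinuousLinearMap.ext fun x => ?_
    show PL (F X) x + (F X x + (-1 : ℂ) * PL (F X) x) = F X x
    ring
  rw [h4] at this
  exact this

theorem main_unital (A : Type u) [CStarAlgebra A] (n : ℕ) (T : (ℕ → A) → (A →L[ℂ] ℂ)) (hT : IsB (n + 1) T)
    (hc : ∀ a, dX (n + 1) T a = 0) :
    ∃ S : (ℕ → A) → (A →L[ℂ] ℂ), IsB n S ∧ ∀ a, T a = dX n S a := by
  refine sumX_exact n T hT hc ?_
  obtain ⟨P, hP, hg⟩ := good_all n (ampMX (J := n + 1 + 1) (n + 1) T) (IsB_ampMX hT) (ampMX_cocycle hT hc)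
  refine R32_core hT P hP (n + 1) (fun _ => 0) (IsB_zero (n + 1)) (fun σ => ?_) ?_
  · refine R32_congr (SumX_zero n) fun a => ?_
    exact R32_ent_zero _ _
  · intro g
    rw [hg g, zero_sub]

end H504S
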