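import Pool.Agent.H730R3.HD.Defs

/-!
# Task R: non-unital algebras
-/

set_option autoImplicit false

namespace H504S

open H730HC Finset
open scoped ComplexConjugate

section limit

variable {A : Type} [NonUnitalCStarAlgebra A]

/-- right multiplication inside: `x ↦ φ (x a)` -/
noncomputable def R_mr (φ : A →L[ℂ] ℂ) (a : A) : A →L[ℂ] ℂ := φ.comp ((ContinuousLinearMap.mul ℂ A).flip a)

/-- left multiplication inside: `x ↦ φ (a x)` -/
noncomputable def R_ml (φ : A →L[ℂ] ℂ) (a : A) : A →L[ℂ] ℂ := φ.comp (ContinuousLinearMap.mul ℂ A a)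

theorem R_mr_apply (φ : A →L[ℂ] ℂ) (a x : A) : R_mr φ a x = φ (x * a) := rfl
theorem R_ml_apply (φ : A →L[ℂ] ℂ) (a x : A) : R_ml φ a x = φ (a * x) := rfl

theorem R_exists_L (A : Type) [NonUnitalCStarAlgebra A] :
    ∃ L : (A →L[ℂ] ℂ) →ₗ[ℂ] ℂ, (∀ φ, ‖L φ‖ ≤ ‖φ‖) ∧
      (∀ (φ : A →L[ℂ] ℂ) (a : A), L (R_ml φ a) = φ a) ∧
      (∀ (φ : A →L[ℂ] ℂ) (a : A), L (R_mr φ a) = φ a) := by
  let _ : PartialOrder A := CStarAlgebra.spectralOrder A
  have _ : StarOrderedRing A := CStarAlgebra.spectralOrderedRing A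
  have hl := CStarAlgebra.increasingApproximateUnit A
  have _ : (CStarAlgebra.approximateUnit A).NeBot := hl.neBot
  set F : Ultrafilter A := Ultrafilter.of (CStarAlgebra.approximateUnit A) with hF
  have hFl : (F : Filter A) ≤ CStarAlgebra.approximateUnit A := Ultrafilter.of_le _
  have hnorm : ∀ᶠ x in (F : Filter A), ‖x‖ ≤ 1 := hFl hl.eventually_norm
  have hex : ∀ φ : A →L[ℂ] ℂ, ∃ z : ℂ, ‖z‖ ≤ ‖φ‖ ∧ Filter.Tendsto φ (F : Filter A) (nhds z) := by
    intro φ
    have hball : ∀ᶠ x in (F : Filter A), φ x ∈ Metric.closedBall (0 : ℂ) ‖φ‖ := by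
      filter_upwards [hnorm] with x hx
      rw [mem_closedBall_zero_iff]
      calc ‖φ x‖ ≤ ‖φ‖ * ‖x‖ := φ.le_opNorm x
        _ ≤ ‖φ‖ * 1 := mul_le_mul_of_nonneg_left hx (norm_nonneg _)
        _ = ‖φ‖ := mul_one _
    have hc := (isCompact_closedBall (0 : ℂ) ‖φ‖).ultrafilter_le_nhds (F.map φ)
      (by rw [Filter.le_principal_iff]; exact hball)
    obtain ⟨z, hz, hz'⟩ := hc
    exact ⟨z, by simpa using hz, hz'⟩
  choose L hL1 hL2 using hex
  have huniq : ∀ (φ : A →L[ℂ] ℂ) (z : ℂ), Filter.Tendsto φ (F : Filter A) (nhds z) → L φ = z :=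
    fun φ z hz => tendsto_nhds_unique (hL2 φ) hz
  refine ⟨{ toFun := L, map_add' := ?_, map_smul' := ?_ }, hL1, ?_, ?_⟩
  · intro φ ψ
    exact huniq _ _ ((hL2 φ).add (hL2 ψ))
  · intro c φ
    exact huniq _ _ ((hL2 φ).const_mul c)
  · intro φ a
    refine huniq _ _ ?_
    have h1 : Filter.Tendsto (fun x => a * x) (F : Filter A) (nhds a) :=
      (hl.tendsto_mul_left a).mono_left hFl
    exact (φ.continuous.tendsto a).comp h1
  · intro φ a
    refine huniq _ _ ?_
    have h1 : Filter.Tendsto (fun x => x * a) (F : Filter A) (nhds a) :=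
      (hl.tendsto_mul_right a).mono_left hFl
    exact (φ.continuous.tendsto a).comp h1

/-- projection to the algebra -/
noncomputable def R_snd (A : Type) [NonUnitalCStarAlgebra A] : Unitization ℂ A →L[ℂ] A :=
  { toFun := fun x => x.snd
    map_add' := fun _ _ => rfl
    map_smul' := fun _ _ => rfl
    cont := Unitization.continuous_snd }

/-- projection to the scalars -/
noncomputable def R_fst (A : Type) [NonUnitalCStarAlgebra A] : Unitization ℂ A →L[ℂ] ℂ :=
  { toFun := fun x => x.fst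
    map_add' := fun _ _ => rfl
    map_smul' := fun _ _ => rfl
    cont := Unitization.continuous_fst }

/-- inclusion -/
noncomputable def R_inr (A : Type) [NonUnitalCStarAlgebra A] : A →L[ℂ] Unitization ℂ A :=
  { toFun := fun x => (x : Unitization ℂ A)
    map_add' := fun x y => Unitization.inr_add ℂ x y
    map_smul' := fun c x => Unitization.inr_smul ℂ c x
    cont := Unitization.continuous_inr }

/-- extension of functionals -/
noncomputable def R_ext (L : (A →L[ℂ] ℂ) →ₗ[ℂ] ℂ) (φ : A →L[ℂ] ℂ) : Unitization ℂ A →L[ℂ] ℂ :=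
  φ.comp (R_snd A) + L φ • R_fst A

theorem R_ext_apply (L : (A →L[ℂ] ℂ) →ₗ[ℂ] ℂ) (φ : A →L[ℂ] ℂ) (b : Unitization ℂ A) :
    R_ext L φ b = φ b.snd + L φ * b.fst := rfl

theorem R_ext_add (L : (A →L[ℂ] ℂ) →ₗ[ℂ] ℂ) (φ ψ : A →L[ℂ] ℂ) :
    R_ext L (φ + ψ) = R_ext L φ + R_ext L ψ := by
  ext b
  simp only [R_ext_apply, ContinuousLinearMap.add_apply, map_add]
  ring

theorem R_ext_smul (L : (A →L[ℂ] ℂ) →ₗ[ℂ] ℂ) (c : ℂ) (φ : A →L[ℂ] ℂ) :
    R_ext L (c • φ) = c • R_ext L φ := by
  ext b
  simp only [R_ext_apply, ContinuousLinearMap.smul_apply, map_smul, smul_eq_mul]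
  ring

theorem R_ext_norm (L : (A →L[ℂ] ℂ) →ₗ[ℂ] ℂ) (hL : ∀ φ, ‖L φ‖ ≤ ‖φ‖) (φ : A →L[ℂ] ℂ) :
    ‖R_ext L φ‖ ≤ (‖R_snd A‖ + ‖R_fst A‖) * ‖φ‖ := by
  unfold R_ext
  refine (norm_add_le _ _).trans ?_
  have h1 : ‖φ.comp (R_snd A)‖ ≤ ‖φ‖ * ‖R_snd A‖ := ContinuousLinearMap.opNorm_comp_le _ _
  have h2 : ‖L φ • R_fst A‖ ≤ ‖φ‖ * ‖R_fst A‖ := by
    rw [norm_smul]
    exact mul_le_mul_of_nonneg_right (hL φ) (norm_nonneg _)
  linarith

/-- telescoping -/
theorem R_tele (h : ℕ → ℂ) (N : ℕ) :
    h 0 + ∑ i ∈ range N, (-1 : ℂ) ^ (i + 1) * (h i + h (i + 1)) = (-1 : ℂ) ^ N * h N := by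
  induction N with
  | zero => simp
  | succ N ih =>
    rw [Finset.sum_range_succ, ← add_assoc, ih]
    ring

end limit

section cochains

variable {A : Type} [NonUnitalCStarAlgebra A]

/-- restrict a sequence to its first entries -/
def R_re (m : ℕ) (a : ℕ → A) : Fin m → A := fun j => a j

/-- the extended cochain -/
noncomputable def R_T (L : (A →L[ℂ] ℂ) →ₗ[ℂ] ℂ) (m : ℕ)
    (T : ContinuousMultilinearMap ℂ (fun _ : Fin m => A) (A →L[ℂ] ℂ)) (X : ℕ → Unitization ℂ A) :
    Unitization ℂ A →L[ℂ] ℂ := R_ext L (T (fun j : Fin m => (X j).snd))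

theorem R_update_snd (m : ℕ) (X : ℕ → Unitization ℂ A) (k : ℕ) (hk : k < m) (x : Unitization ℂ A) :
    (fun j : Fin m => (Function.update X k x j).snd)
      = Function.update (fun j : Fin m => (X j).snd) ⟨k, hk⟩ x.snd := by
  funext j
  by_cases h : j = ⟨k, hk⟩
  · subst h
    simp
  · have h' : (j : ℕ) ≠ k := fun h2 => h (Fin.ext h2)
    rw [Function.update_of_ne h, Function.update_of_ne h']

theorem R_T_isB (L : (A →L[ℂ] ℂ) →ₗ[ℂ] ℂ) (hL : ∀ φ, ‖L φ‖ ≤ ‖φ‖) (m : ℕ)
    (T : ContinuousMultilinearMap ℂ (fun _ : Fin m => A) (A →L[ℂ] ℂ)) : IsB m (R_T L m T) := by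
  refine ⟨?_, ?_, ?_, ?_⟩
  · intro a b hab
    unfold R_T
    congr 2
    funext j
    rw [hab j j.2]
  · intro a k x y hk
    unfold R_T
    rw [R_update_snd m a k hk, R_update_snd m a k hk, R_update_snd m a k hk, Unitization.snd_add,
      T.map_update_add, R_ext_add]
  · intro a k c x hk
    unfold R_T
    rw [R_update_snd m a k hk, R_update_snd m a k hk, Unitization.snd_smul,
      T.map_update_smul, R_ext_smul]
  · refine ⟨(‖R_snd A‖ + ‖R_fst A‖) * (‖T‖ * ‖R_snd A‖ ^ m), by positivity, fun a => ?_⟩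
    unfold R_T
    refine (R_ext_norm L hL _).trans ?_
    rw [mul_assoc]
    apply mul_le_mul_of_nonneg_left _ (by positivity)
    refine (T.le_opNorm _).trans ?_
    rw [mul_assoc]
    apply mul_le_mul_of_nonneg_left _ (norm_nonneg _)
    calc ∏ i : Fin m, ‖(a i).snd‖ ≤ ∏ i : Fin m, (‖R_snd A‖ * ‖a i‖) := by
          apply Finset.prod_le_prod (fun _ _ => norm_nonneg _)
          intro i _
          exact (R_snd A).le_opNorm (a i)
      _ = ‖R_snd A‖ ^ m * ∏ k ∈ range m, ‖a k‖ := by
          rw [Finset.prod_mul_distrib, Finset.prod_const, Finset.card_univ, Fintype.card_fin,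
            Finset.prod_range]

/-- omit the entry `i` -/
def R_om (m i : ℕ) (a : ℕ → A) : Fin m → A := fun j => if (j : ℕ) < i then a j else a (j + 1)

/-- put `w` at place `i`, drop the entries `i`, `i + 1` -/
def R_put (m i : ℕ) (a : ℕ → A) (w : A) : Fin m → A :=
  fun j => if (j : ℕ) < i then a j else if (j : ℕ) = i then w else a (j + 1)

theorem R_put_eq (m i : ℕ) (hi : i < m) (a : ℕ → A) (w : A) :
    R_put m i a w = Function.update (R_put m i a 0) ⟨i, hi⟩ w := by
  funext j
  by_cases h : j = ⟨i, hi⟩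
  · subst h
    simp [R_put]
  · have h' : (j : ℕ) ≠ i := fun h2 => h (Fin.ext h2)
    rw [Function.update_of_ne h]
    simp [R_put, h']

theorem R_put_add (m i : ℕ) (hi : i < m) (a : ℕ → A)
    (T : ContinuousMultilinearMap ℂ (fun _ : Fin m => A) (A →L[ℂ] ℂ)) (x y : A) :
    T (R_put m i a (x + y)) = T (R_put m i a x) + T (R_put m i a y) := by
  rw [R_put_eq m i hi a (x + y), R_put_eq m i hi a x, R_put_eq m i hi a y, T.map_update_add]

theorem R_put_smul (m i : ℕ) (hi : i < m) (a : ℕ → A)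
    (T : ContinuousMultilinearMap ℂ (fun _ : Fin m => A) (A →L[ℂ] ℂ)) (c : ℂ) (x : A) :
    T (R_put m i a (c • x)) = c • T (R_put m i a x) := by
  rw [R_put_eq m i hi a (c • x), R_put_eq m i hi a x, T.map_update_smul]

theorem R_put_right (m i : ℕ) (a : ℕ → A) : R_put m i a (a (i + 1)) = R_om m i a := by
  funext j
  unfold R_put R_om
  split_ifs with h1 h2
  · rfl
  · rw [h2]
  · rfl

theorem R_put_left (m i : ℕ) (a : ℕ → A) : R_put m i a (a i) = R_om m (i + 1) a := by
  funext j
  unfold R_put R_om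
  split_ifs with h1 h2 h3 h4 h5
  · rfl
  · omega
  · rw [h3]
  · omega
  · omega
  · rfl

/-- the cocycle identity for the functionals -/
theorem R_cocycle (m : ℕ) (T : ContinuousMultilinearMap ℂ (fun _ : Fin (m + 1) => A) (A →L[ℂ] ℂ))
    (hT : ∀ (a : Fin (m + 1 + 1) → A) (b : A),
        T (Fin.tail a) (b * a 0)
          + ∑ i : Fin (m + 1), (-1 : ℂ) ^ ((i : ℕ) + 1) *
              T (fun j : Fin (m + 1) =>
                  if (j : ℕ) < (i : ℕ) then a (Fin.castSucc j)
                  else if (j : ℕ) = (i : ℕ) then a (Fin.castSucc j) * a (Fin.succ j)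
                  else a (Fin.succ j)) b
          + (-1 : ℂ) ^ (m + 1 + 1) * T (Fin.init a) (a (Fin.last (m + 1)) * b) = 0)
    (a : ℕ → A) :
    R_mr (T (R_om (m + 1) 0 a)) (a 0)
      + ∑ i ∈ range (m + 1), (-1 : ℂ) ^ (i + 1) • T (R_put (m + 1) i a (a i * a (i + 1)))
      + (-1 : ℂ) ^ (m + 1 + 1) • R_ml (T (R_om (m + 1) (m + 1) a)) (a (m + 1)) = 0 := by
  ext b
  have h := hT (fun j : Fin (m + 1 + 1) => a j) b
  simp only [ContinuousLinearMap.add_apply, ContinuousLinearMap.sum_apply,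
    ContinuousLinearMap.smul_apply, smul_eq_mul, ContinuousLinearMap.zero_apply, R_mr_apply,
    R_ml_apply]
  rw [← h, Finset.sum_range]
  congr 1
  · congr 1
    refine Finset.sum_congr rfl fun i _ => ?_
    congr 3
    funext j
    unfold R_put
    simp only [Fin.val_castSucc, Fin.val_succ]
    split_ifs with h1 h2
    · rfl
    · rw [h2]
    · rfl
  · congr 3
    unfold R_om
    funext j
    rw [if_pos j.2]
    rfl

theorem R_T_cocycle (L : (A →L[ℂ] ℂ) →ₗ[ℂ] ℂ)
    (hLl : ∀ (φ : A →L[ℂ] ℂ) (a : A), L (R_ml φ a) = φ a)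
    (hLr : ∀ (φ : A →L[ℂ] ℂ) (a : A), L (R_mr φ a) = φ a) (m : ℕ)
    (T : ContinuousMultilinearMap ℂ (fun _ : Fin (m + 1) => A) (A →L[ℂ] ℂ))
    (hT : ∀ (a : Fin (m + 1 + 1) → A) (b : A),
        T (Fin.tail a) (b * a 0)
          + ∑ i : Fin (m + 1), (-1 : ℂ) ^ ((i : ℕ) + 1) *
              T (fun j : Fin (m + 1) =>
                  if (j : ℕ) < (i : ℕ) then a (Fin.castSucc j)
                  else if (j : ℕ) = (i : ℕ) then a (Fin.castSucc j) * a (Fin.succ j)
                  else a (Fin.succ j)) b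
          + (-1 : ℂ) ^ (m + 1 + 1) * T (Fin.init a) (a (Fin.last (m + 1)) * b) = 0)
    (X : ℕ → Unitization ℂ A) : dX (m + 1) (R_T L (m + 1) T) X = 0 := by
  set a : ℕ → A := fun k => (X k).snd with ha
  set l : ℕ → ℂ := fun k => (X k).fst with hl
  have hco := R_cocycle m T hT a
  ext b
  set g : ℕ → ℂ := fun i => R_ext L (T (R_om (m + 1) i a)) b with hg
  -- first face
  have f0 : fX (m + 1) 0 (R_T L (m + 1) T) X b
      = l 0 * g 0 + R_ext L (R_mr (T (R_om (m + 1) 0 a)) (a 0)) b := by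
    have e1 : fX (m + 1) 0 (R_T L (m + 1) T) X b = R_ext L (T (R_om (m + 1) 0 a)) (b * X 0) := by
      unfold fX
      rw [if_pos rfl]
      rfl
    rw [e1]
    simp only [hg, R_ext_apply, Unitization.snd_mul, Unitization.fst_mul, map_add, map_smul,
      smul_eq_mul, hLr, R_mr_apply, ha, hl]
    ring
  -- last face
  have f1 : fX (m + 1) (m + 2) (R_T L (m + 1) T) X b
      = l (m + 1) * g (m + 1) + R_ext L (R_ml (T (R_om (m + 1) (m + 1) a)) (a (m + 1))) b := by
    have e1 : fX (m + 1) (m + 2) (R_T L (m + 1) T) X b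
        = R_ext L (T (R_om (m + 1) (m + 1) a)) (X (m + 1) * b) := by
      unfold fX
      rw [if_neg (by omega), if_neg (by omega)]
      have e2 : (fun j : Fin (m + 1) => (X j).snd) = R_om (m + 1) (m + 1) a := by
        funext j
        unfold R_om
        rw [if_pos j.2]
      unfold R_T
      rw [e2]
      rfl
    rw [e1]
    simp only [hg, R_ext_apply, Unitization.snd_mul, Unitization.fst_mul, map_add, map_smul,
      smul_eq_mul, hLl, R_ml_apply, ha, hl]
    ring
  -- middle faces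
  have f2 : ∀ i ∈ range (m + 1), fX (m + 1) (i + 1) (R_T L (m + 1) T) X b
      = (l i * g i + l (i + 1) * g (i + 1)) + R_ext L (T (R_put (m + 1) i a (a i * a (i + 1)))) b := by
    intro i hi
    rw [mem_range] at hi
    have e1 : fX (m + 1) (i + 1) (R_T L (m + 1) T) X = R_T L (m + 1) T (mu i X) := by
      unfold fX
      rw [if_neg (by omega), if_pos (by omega)]
      rfl
    have e2 : (fun j : Fin (m + 1) => (mu i X j).snd)
        = R_put (m + 1) i a (l i • a (i + 1) + l (i + 1) • a i + a i * a (i + 1)) := by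
      funext j
      unfold mu R_put
      split_ifs with h1 h2
      · rfl
      · rw [Unitization.snd_mul]
      · rfl
    rw [e1]
    unfold R_T
    rw [e2, R_put_add _ _ hi, R_put_add _ _ hi, R_put_smul _ _ hi, R_put_smul _ _ hi, R_put_right,
      R_put_left, R_ext_add, R_ext_add, R_ext_smul, R_ext_smul]
    simp only [ContinuousLinearMap.add_apply, ContinuousLinearMap.smul_apply, smul_eq_mul, hg]
  -- apply the extension to the cocycle identity
  have hco2 : R_ext L (R_mr (T (R_om (m + 1) 0 a)) (a 0)) b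
      + ∑ i ∈ range (m + 1), (-1 : ℂ) ^ (i + 1) * R_ext L (T (R_put (m + 1) i a (a i * a (i + 1)))) b
      + (-1 : ℂ) ^ (m + 1 + 1) * R_ext L (R_ml (T (R_om (m + 1) (m + 1) a)) (a (m + 1))) b = 0 := by
    let E : (A →L[ℂ] ℂ) →ₗ[ℂ] ℂ :=
      { toFun := fun φ => R_ext L φ b
        map_add' := fun φ ψ => by rw [R_ext_add]; rfl
        map_smul' := fun c φ => by rw [R_ext_smul]; rfl }
    have h := congrArg E hco
    rw [map_add, map_add, map_sum, map_zero, map_smul] at h
    simp only [map_smul, smul_eq_mul] at h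
    exact h
  have htele := R_tele (fun i => l i * g i) (m + 1)
  unfold dX
  rw [ContinuousLinearMap.sum_apply]
  simp only [ContinuousLinearMap.smul_apply, smul_eq_mul, ContinuousLinearMap.zero_apply]
  rw [Finset.sum_range_succ, Finset.sum_range_succ', f0, f1]
  rw [Finset.sum_congr rfl (fun i hi => by rw [f2 i hi])]
  simp only [mul_add, Finset.sum_add_distrib] at htele ⊢
  have e3 : (-1 : ℂ) ^ (m + 1 + 1) = -(-1 : ℂ) ^ (m + 1) := by ring
  rw [e3] at hco2 ⊢
  linear_combination htele + hco2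

end cochains

section restrict

variable {A : Type} [NonUnitalCStarAlgebra A]

/-- extend by zero -/
noncomputable def R_pad (m : ℕ) (v : Fin m → A) : ℕ → Unitization ℂ A :=
  fun k => if h : k < m then ((v ⟨k, h⟩ : A) : Unitization ℂ A) else 0

theorem R_pad_update (m : ℕ) (v : Fin m → A) [DecidableEq (Fin m)] (i : Fin m) (x : A) :
    R_pad m (Function.update v i x) = Function.update (R_pad m v) i (x : Unitization ℂ A) := by
  funext k
  by_cases h : k < m
  · by_cases h2 : k = i
    · subst h2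
      rw [Function.update_self]
      unfold R_pad
      rw [dif_pos h]
      have : (⟨(i : ℕ), h⟩ : Fin m) = i := rfl
      rw [this, Function.update_self]
    · rw [Function.update_of_ne h2]
      unfold R_pad
      rw [dif_pos h, dif_pos h]
      have : (⟨k, h⟩ : Fin m) ≠ i := fun h3 => h2 (by rw [← h3])
      rw [Function.update_of_ne this]
  · have h2 : k ≠ i := fun h3 => h (h3 ▸ i.2)
    rw [Function.update_of_ne h2]
    unfold R_pad
    rw [dif_neg h, dif_neg h]

theorem R_restrict (m : ℕ) (S : (ℕ → Unitization ℂ A) → (Unitization ℂ A →L[ℂ] ℂ)) (hS : IsB m S) :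
    ∃ S' : ContinuousMultilinearMap ℂ (fun _ : Fin m => A) (A →L[ℂ] ℂ),
      ∀ v, S' v = (S (R_pad m v)).comp (R_inr A) := by
  obtain ⟨C, hC0, hC⟩ := hS.bd
  let S0 : MultilinearMap ℂ (fun _ : Fin m => A) (A →L[ℂ] ℂ) :=
    { toFun := fun v => (S (R_pad m v)).comp (R_inr A)
      map_update_add' := by
        intro _ v i x y
        rw [R_pad_update, R_pad_update, R_pad_update, Unitization.inr_add,
          hS.add _ _ _ _ i.2]
        rfl
      map_update_smul' := by
        intro _ v i c x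
        rw [R_pad_update, R_pad_update, Unitization.inr_smul, hS.smul _ _ _ _ i.2]
        rfl }
  refine ⟨S0.mkContinuous (C * ‖R_inr A‖) ?_, fun v => rfl⟩
  intro v
  calc ‖(S (R_pad m v)).comp (R_inr A)‖ ≤ ‖S (R_pad m v)‖ * ‖R_inr A‖ :=
        ContinuousLinearMap.opNorm_comp_le _ _
    _ ≤ (C * ∏ k ∈ range m, ‖R_pad m v k‖) * ‖R_inr A‖ :=
        mul_le_mul_of_nonneg_right (hC _) (norm_nonneg _)
    _ = C * ‖R_inr A‖ * ∏ i, ‖v i‖ := by
        have e : ∏ k ∈ range m, ‖R_pad m v k‖ = ∏ i, ‖v i‖ := by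
          rw [Finset.prod_range]
          refine Finset.prod_congr rfl fun i _ => ?_
          unfold R_pad
          rw [dif_pos i.2, Unitization.norm_inr]
        rw [e]
        ring

end restrict

-- TASK R (non-unital algebras; deduce the frozen statement)
theorem final_step
    (hun : ∀ (B : Type) [CStarAlgebra B] (n : ℕ) (T : (ℕ → B) → (B →L[ℂ] ℂ)), IsB (n + 1) T →
      (∀ a, dX (n + 1) T a = 0) →
      ∃ S : (ℕ → B) → (B →L[ℂ] ℂ), IsB n S ∧ ∀ a, T a = dX n S a) :
    ∀ (A : Type) [NonUnitalCStarAlgebra A] (m : ℕ)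
      (T : ContinuousMultilinearMap ℂ (fun _ : Fin (m + 1) => A) (A →L[ℂ] ℂ)),
      (∀ (a : Fin (m + 1 + 1) → A) (b : A),
        T (Fin.tail a) (b * a 0)
          + ∑ i : Fin (m + 1), (-1 : ℂ) ^ ((i : ℕ) + 1) *
              T (fun j : Fin (m + 1) =>
                  if (j : ℕ) < (i : ℕ) then a (Fin.castSucc j)
                  else if (j : ℕ) = (i : ℕ) then a (Fin.castSucc j) * a (Fin.succ j)
                  else a (Fin.succ j)) b
          + (-1 : ℂ) ^ (m + 1 + 1) * T (Fin.init a) (a (Fin.last (m + 1)) * b) = 0) →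
      ∃ S : ContinuousMultilinearMap ℂ (fun _ : Fin m => A) (A →L[ℂ] ℂ),
        ∀ (a : Fin (m + 1) → A) (b : A),
          T a b =
            S (Fin.tail a) (b * a 0)
              + ∑ i : Fin m, (-1 : ℂ) ^ ((i : ℕ) + 1) *
                  S (fun j : Fin m =>
                      if (j : ℕ) < (i : ℕ) then a (Fin.castSucc j)
                      else if (j : ℕ) = (i : ℕ) then a (Fin.castSucc j) * a (Fin.succ j)
                      else a (Fin.succ j)) b
              + (-1 : ℂ) ^ (m + 1) * S (Fin.init a) (a (Fin.last m) * b) := by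
  intro A _ m T hT
  obtain ⟨L, hL, hLl, hLr⟩ := R_exists_L A
  obtain ⟨S, hS, hTS⟩ := hun (Unitization ℂ A) m (R_T L (m + 1) T) (R_T_isB L hL (m + 1) T)
    (R_T_cocycle L hLl hLr m T hT)
  obtain ⟨S', hS'⟩ := R_restrict m S hS
  refine ⟨S', fun a b => ?_⟩
  have h : R_T L (m + 1) T (R_pad (m + 1) a) (b : Unitization ℂ A)
      = dX m S (R_pad (m + 1) a) (b : Unitization ℂ A) := by rw [hTS]
  have e0 : R_T L (m + 1) T (R_pad (m + 1) a) (b : Unitization ℂ A) = T a b := by
    unfold R_T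
    rw [R_ext_apply, Unitization.snd_inr, Unitization.fst_inr, mul_zero, add_zero]
    congr 2
    funext j
    unfold R_pad
    rw [dif_pos j.2, Unitization.snd_inr]
  rw [e0] at h
  rw [h]
  unfold dX
  rw [ContinuousLinearMap.sum_apply]
  simp only [ContinuousLinearMap.smul_apply, smul_eq_mul]
  rw [Finset.sum_range_succ, Finset.sum_range_succ']
  have f0 : fX m 0 S (R_pad (m + 1) a) (b : Unitization ℂ A) = S' (Fin.tail a) (b * a 0) := by
    rw [hS']
    unfold fX
    rw [if_pos rfl]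
    have e1 : S (shift (R_pad (m + 1) a)) = S (R_pad m (Fin.tail a)) := by
      apply hS.dep
      intro k hk
      unfold shift R_pad
      rw [dif_pos (by omega), dif_pos hk]
      rfl
    rw [e1]
    change S (R_pad m (Fin.tail a)) ((b : Unitization ℂ A) * R_pad (m + 1) a 0)
      = S (R_pad m (Fin.tail a)) ((b * a 0 : A) : Unitization ℂ A)
    rw [Unitization.inr_mul]
    rfl
  have f1 : fX m (m + 1) S (R_pad (m + 1) a) (b : Unitization ℂ A)
      = S' (Fin.init a) (a (Fin.last m) * b) := by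
    rw [hS']
    unfold fX
    rw [if_neg (by omega), if_neg (by omega)]
    have e1 : S (R_pad (m + 1) a) = S (R_pad m (Fin.init a)) := by
      apply hS.dep
      intro k hk
      unfold R_pad
      rw [dif_pos (by omega), dif_pos hk]
      rfl
    rw [e1]
    change S (R_pad m (Fin.init a)) (R_pad (m + 1) a m * (b : Unitization ℂ A))
      = S (R_pad m (Fin.init a)) ((a (Fin.last m) * b : A) : Unitization ℂ A)
    rw [Unitization.inr_mul]
    unfold R_pad
    rw [dif_pos (by omega)]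
    rfl
  have f2 : ∀ i ∈ range m, (-1 : ℂ) ^ (i + 1) * fX m (i + 1) S (R_pad (m + 1) a) (b : Unitization ℂ A)
      = (-1 : ℂ) ^ (i + 1) * S' (fun j : Fin m =>
                      if (j : ℕ) < i then a (Fin.castSucc j)
                      else if (j : ℕ) = i then a (Fin.castSucc j) * a (Fin.succ j)
                      else a (Fin.succ j)) b := by
    intro i hi
    rw [mem_range] at hi
    rw [hS']
    unfold fX
    rw [if_neg (by omega), if_pos (by omega)]
    have e1 : S (mu (i + 1 - 1) (R_pad (m + 1) a)) = S (R_pad m (fun j : Fin m =>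
                      if (j : ℕ) < i then a (Fin.castSucc j)
                      else if (j : ℕ) = i then a (Fin.castSucc j) * a (Fin.succ j)
                      else a (Fin.succ j))) := by
      apply hS.dep
      intro k hk
      rw [Nat.add_sub_cancel]
      unfold mu R_pad
      rw [dif_pos hk]
      simp only
      by_cases h1 : k < i
      · rw [if_pos h1, if_pos h1, dif_pos (by omega)]
        rfl
      · rw [if_neg h1, if_neg h1]
        by_cases h2 : k = i
        · subst h2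
          rw [if_pos rfl, if_pos rfl, dif_pos (by omega), dif_pos (by omega), Unitization.inr_mul]
          rfl
        · rw [if_neg h2, if_neg h2, dif_pos (by omega)]
          rfl
    rw [e1]
    rfl
  rw [Finset.sum_congr rfl f2, f0, f1, Finset.sum_range]
  ring

end H504S
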