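import Pool.Agent.H504S.TaskC
import Pool.Agent.H504S.TaskD
import Pool.Agent.H504S.TaskF
import Pool.Agent.H504S.TaskI
import Pool.Agent.H504S.TaskJ
import Pool.Agent.H504S.TaskL
import Pool.Agent.H20R3.CS.TaskG

/-! Wiring of the parts of the proof of S04091 (parts by the team, see departures). -/

set_option autoImplicit false

namespace H504S

open H730HC Finset
open scoped ComplexConjugate ComplexOrder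

universe u v

attribute [local instance] CStarAlgebra.spectralOrder CStarAlgebra.spectralOrderedRing

variable {A : Type u} [CStarAlgebra A]

theorem GMf (Z : unitary A → (A →L[ℂ] ℂ)) (C : ℝ) (hZ : ∀ g, ‖Z g‖ ≤ C) :
    ∃ m : (Ix A → ℝ) → ℝ, IsGM m ∧ (∀ φ : A →L[ℂ] ℂ, FT φ → EX m (fun i => ra φ i.2.1) = φ) ∧
      ∃ ζ : A →L[ℂ] ℂ, ∀ g : unitary A,
        EX m (fun i => ra (cju i.1.1 (Z (i.1.1 * g * i.1.2))) i.2.1) = cju g⁻¹ ζ :=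
  GMf_of (fun Z C hZ t ht E W e he => KL Z C hZ t ht E W e he) Z C hZ

theorem dec (A : Type u) [CStarAlgebra A] : ∃ P : (A →L[ℂ] ℂ) → (A →L[ℂ] ℂ),
    (∀ φ ψ, P (φ + ψ) = P φ + P ψ) ∧ (∀ (c : ℂ) φ, P (c • φ) = c • P φ) ∧ (∀ φ, ‖P φ‖ ≤ ‖φ‖) ∧
    (∀ a φ, P (la a φ) = la a (P φ)) ∧ (∀ a φ, P (ra φ a) = ra (P φ) a) ∧
    (∀ φ, FT (P φ)) ∧ ∀ φ, InfT (φ - P φ) :=
  dec_wrap A (fun E ε hε => tele E ε hε) (fun φ => dec_pt φ)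

theorem V2 (ρ R : A →L[ℂ] ℂ) (hρ : IsPos ρ) (hR : IsPos R) (c : ℝ) (hc : 0 < c)
    (hcc : ∀ (v : unitary A) (h : A), 0 ≤ h → h ≤ 1 →
      c ≤ (ρ (star (v : A) * (1 - h) * (v : A))).re + (R h).re) :
    ∃ Rs : ℕ → (A →L[ℂ] ℂ), (∀ i, Cone R (Rs i)) ∧ ∃ ψ : A →L[ℂ] ℂ, IsPos ψ ∧ c / 2 ≤ (ψ 1).re ∧
      ∀ (i : ℕ) (u : unitary A) (h : A), 0 ≤ h → h ≤ 1 →
        (ψ (star (u : A) * h * (u : A))).re ≤ (Rs i h).re + 2 / ((i : ℝ) + 1) :=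
  V2_of ρ R c (V1 ρ R hρ hR c hc hcc)

theorem V3 (ψ : A →L[ℂ] ℂ) (hψ : IsPos ψ) (Rs : ℕ → (A →L[ℂ] ℂ)) (hRs : ∀ i, IsPos (Rs i))
    (hd : ∀ (i : ℕ) (u : unitary A) (h : A), 0 ≤ h → h ≤ 1 →
        (ψ (star (u : A) * h * (u : A))).re ≤ (Rs i h).re + 2 / ((i : ℝ) + 1)) :
    ∃ τ : A →L[ℂ] ℂ, IsPT τ ∧ (τ 1).re = (ψ 1).re ∧ ∀ (i : ℕ) (h : A), 0 ≤ h → h ≤ 1 →
      (τ h).re ≤ (Rs i h).re + 2 / ((i : ℝ) + 1) :=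
  V3_of_close (fun N B e he => close N B e he) ψ hψ Rs hRs hd

end H504S
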